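import Mathlib

set_option autoImplicit false
open scoped ContDiff

namespace Pool.Agent.Caratheodory

/-- Euclidean 3-space. -/
abbrev E3 := EuclideanSpace ℝ (Fin 3)

/-- the Hessian of `K` at `y` restricted to the plane orthogonal to `y` is a multiple of the metric -/
def ScalarAt (K : E3 → ℝ) (y : E3) : Prop :=
  ∃ c : ℝ, ∀ u v : E3, inner ℝ y u = 0 → inner ℝ y v = 0 →
    fderiv ℝ (fderiv ℝ K) y u v = c * inner ℝ u v

end Pool.Agent.Caratheodory
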