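import Mathlib
import Pool.Agent.Caratheodory.Defs
import Pool.Agent.Work.MP_d5a045_gt.Geo1

/-!
# Module A: from a homogeneous function to the surface
-/

set_option autoImplicit false
open scoped ContDiff

namespace Pool.Agent.Caratheodory

/-- MODULE A (Body): a smooth 1-homogeneous function off 0 whose tangential Hessian on the unit
sphere is scalar at most at one point gives the counterexample. -/
theorem body (K : E3 → ℝ) (hK : ∀ y : E3, y ≠ 0 → ContDiffAt ℝ ∞ K y)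
    (hom : ∀ (s : ℝ) (y : E3), 0 < s → K (s • y) = s * K y) (n0 : E3)
    (humb : ∀ y : E3, ‖y‖ = 1 → ScalarAt K y → y = n0) :
    ∃ F : EuclideanSpace ℝ (Fin 3) → ℝ,
    (∀ n : ℕ, ContDiff ℝ n F) ∧
    IsCompact {x : EuclideanSpace ℝ (Fin 3) | F x = 0} ∧
    (∀ x : EuclideanSpace ℝ (Fin 3), F x = 0 → fderiv ℝ F x ≠ 0) ∧
    Nonempty (↥{x : EuclideanSpace ℝ (Fin 3) | F x = 0} ≃ₜ
      ↥(Metric.sphere (0 : EuclideanSpace ℝ (Fin 3)) 1)) ∧
    ¬ ∃ p q : EuclideanSpace ℝ (Fin 3), F p = 0 ∧ F q = 0 ∧ p ≠ q ∧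
      (∃ c : ℝ, ∀ u v : EuclideanSpace ℝ (Fin 3),
        fderiv ℝ F p u = 0 → fderiv ℝ F p v = 0 →
          fderiv ℝ (fderiv ℝ F) p u v = c * inner ℝ u v) ∧
      (∃ c : ℝ, ∀ u v : EuclideanSpace ℝ (Fin 3),
        fderiv ℝ F q u = 0 → fderiv ℝ F q v = 0 →
          fderiv ℝ (fderiv ℝ F) q u v = c * inner ℝ u v) := by
  by_contra hcon
  exact CarNeg.geo K hK (fun y _ r hr => hom r y hr) n0
    (fun y hy hne hs => hne (humb y hy hs))
    (fun F h1 h2 h3 h4 => by_contra fun h5 => hcon ⟨F, h1, h2, h3, h4, h5⟩)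

end Pool.Agent.Caratheodory
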