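import Mathlib

set_option autoImplicit false
open scoped ContDiff

namespace Pool.Agent.Caratheodory

noncomputable section

/-- the smooth step: `0` for `x ≤ 0`, `1` for `x ≥ 1` -/
def sg : ℝ → ℝ := Real.smoothTransition

/-- amplitude profile of a stage: `1 - s` on `[0, 1/2]`, zero outside `(-1/2, 1)` -/
def phi (s : ℝ) : ℝ := (1 - s) * sg (2 * s + 1) * sg (2 - 2 * s)

/-- angle profile of a stage: `0` for `s ≤ 1/8`, `π/2` for `s ≥ 1/4` -/
def om (s : ℝ) : ℝ := Real.pi / 2 * sg (8 * s - 1)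

/-- wrinkle profile in time: `0` for `s ≤ 0`, `1` on `[1/8, 5/4]`, `0` for `s ≥ 11/8` -/
def kap (s : ℝ) : ℝ := sg (8 * s) * (1 - sg (8 * s - 10))

def XX (s : ℝ) : ℝ := ∫ q in (-(1/2 : ℝ))..s, phi q * Real.cos (om q)
def YY (s : ℝ) : ℝ := ∫ q in (-(1/2 : ℝ))..s, phi q * Real.sin (om q)

/-- the kink profile as a function of `c = cos` or `sin` -/
def VV (r c : ℝ) : ℝ := r * c - Real.arcsin (r * c)

/-- wrinkles as functions of `ξ = τ + i x` -/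
def wrS (r : ℝ) (ξ : ℂ) : ℝ := kap ξ.re * VV r (Real.sin ξ.im)
def wrC (r : ℝ) (ξ : ℂ) : ℝ := kap ξ.re * VV r (Real.cos ξ.im)

/-- strength of the kink -/
def GG (r : ℝ) : ℝ := 4 * r / Real.sqrt (1 - r ^ 2)

/-- decay factors of the closing -/
def px (P τ : ℝ) : ℝ := Real.exp (-(P * ∫ q in (0:ℝ)..τ, sg (8 * q - 3)))
def py (P lam τ : ℝ) : ℝ := Real.exp (-(P * ∫ q in (0:ℝ)..τ, sg (lam * (q - 1))))

/-- macroscopic coefficients -/
def MX (a : ℕ → ℝ) (τ : ℝ) : ℝ := ∑' j : ℕ, a j * (if Even j then XX (τ + j) else YY (τ + j))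
def MY (a : ℕ → ℝ) (τ : ℝ) : ℝ := ∑' j : ℕ, a j * (if Even j then YY (τ + j) else XX (τ + j))

/-- the wrinkles, stage `0` has none -/
def Wr (k1 : ℝ) (a r : ℕ → ℝ) (ξ : ℂ) : ℝ :=
  ∑' j : ℕ, (if j = 0 then 0 else a j * k1 *
    (if Even j then wrS (r j) (ξ + j) else wrC (r j) (ξ + j)))

/-- the function on the `ξ = τ + i x` plane -/
def UU (P lam k1 : ℝ) (a r : ℕ → ℝ) (ξ : ℂ) : ℝ :=
  px P ξ.re * MX a ξ.re * Real.cos ξ.im + py P lam ξ.re * MY a ξ.re * Real.sin ξ.im + Wr k1 a r ξ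

end

end Pool.Agent.Caratheodory
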