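import Mathlib
import Pool.Agent.Caratheodory.CoreDefs

/-!
# Module D2b: boundedness of the derivatives of the building blocks
-/

set_option autoImplicit false
open scoped ContDiff
open Filter Topology Metric

namespace Pool.Agent.Caratheodory

/-- derivatives of a smooth function that is periodic and supported in a strip are bounded -/
theorem bdd_of_periodic_strip (f : ℂ → ℝ) (hf : ContDiff ℝ ∞ f)
    (hper : ∀ ξ : ℂ, f (ξ + 2 * Real.pi * Complex.I) = f ξ) (a b : ℝ) (hab : a ≤ b)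
    (hz : ∀ ξ : ℂ, ξ.re < a ∨ b < ξ.re → f ξ = 0) (k : ℕ) :
    ∃ C : ℝ, ∀ ξ : ℂ, ‖iteratedFDeriv ℝ k f ξ‖ ≤ C := by
  have hc : Continuous (iteratedFDeriv ℝ k f) :=
    hf.continuous_iteratedFDeriv (WithTop.coe_le_coe.2 le_top)
  have hK : IsCompact (Set.Icc a b ×ℂ Set.Icc 0 (2 * Real.pi)) :=
    isCompact_Icc.reProdIm isCompact_Icc
  obtain ⟨C, hC⟩ := hK.exists_bound_of_continuousOn hc.continuousOn
  have hC0 : 0 ≤ C := by
    refine (norm_nonneg _).trans (hC (a : ℂ) ?_)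
    rw [Complex.mem_reProdIm]
    exact ⟨⟨by simp, by simpa using hab⟩, ⟨by simp, by simp [Real.pi_pos.le]⟩⟩
  refine ⟨C, fun ξ => ?_⟩
  by_cases h : ξ.re < a ∨ b < ξ.re
  · have hev : f =ᶠ[𝓝 ξ] fun _ => 0 := by
      rcases h with h | h
      · filter_upwards [(isOpen_lt Complex.continuous_re continuous_const).mem_nhds h] with y hy
        exact hz y (Or.inl hy)
      · filter_upwards [(isOpen_lt continuous_const Complex.continuous_re).mem_nhds h] with y hy
        exact hz y (Or.inr hy)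
    have h1 : iteratedFDeriv ℝ k f ξ = iteratedFDeriv ℝ k (fun _ => (0 : ℝ)) ξ :=
      (hev.iteratedFDeriv ℝ k).eq_of_nhds
    have h2 : iteratedFDeriv ℝ k (fun _ : ℂ => (0 : ℝ)) ξ = 0 := by
      have := iteratedFDeriv_fun_zero (𝕜 := ℝ) (E := ℂ) (F := ℝ) (n := k)
      exact congrFun this ξ
    rw [h1, h2, norm_zero]
    exact hC0
  · push Not at h
    have hp : Function.Periodic (fun y : ℝ => iteratedFDeriv ℝ k f (ξ.re + y * Complex.I))
        (2 * Real.pi) := by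
      intro y
      have e1 : (ξ.re : ℂ) + ((y + 2 * Real.pi : ℝ) : ℂ) * Complex.I =
          (ξ.re + y * Complex.I) + 2 * Real.pi * Complex.I := by push_cast; ring
      have e2 := iteratedFDeriv_comp_add_right (𝕜 := ℝ) (f := f) k (2 * Real.pi * Complex.I)
        (ξ.re + y * Complex.I)
      have e3 : (fun z : ℂ => f (z + 2 * Real.pi * Complex.I)) = f := funext hper
      rw [e3] at e2
      show iteratedFDeriv ℝ k f (ξ.re + ((y + 2 * Real.pi : ℝ) : ℂ) * Complex.I) = _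
      rw [e1, ← e2]
    obtain ⟨y, hy, hxy⟩ := hp.exists_mem_Ico₀ (by positivity) ξ.im
    have h3 : iteratedFDeriv ℝ k f ξ = iteratedFDeriv ℝ k f (ξ.re + y * Complex.I) := by
      have := hxy
      simp only [Complex.re_add_im] at this
      exact this
    rw [h3]
    refine hC _ ?_
    rw [Complex.mem_reProdIm]
    constructor
    · simpa using h
    · simpa using ⟨hy.1, hy.2.le⟩

theorem sg_smooth : ContDiff ℝ ∞ sg := Real.smoothTransition.contDiff

theorem kap_smooth : ContDiff ℝ ∞ kap :=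
  (sg_smooth.comp (contDiff_const.mul contDiff_id)).mul
    (contDiff_const.sub (sg_smooth.comp ((contDiff_const.mul contDiff_id).sub contDiff_const)))

theorem kap_left {s : ℝ} (h : s ≤ 0) : kap s = 0 := by
  unfold kap
  rw [show sg (8 * s) = 0 from Real.smoothTransition.zero_of_nonpos (by linarith), zero_mul]

theorem kap_right {s : ℝ} (h : 11 / 8 ≤ s) : kap s = 0 := by
  unfold kap
  rw [show sg (8 * s - 10) = 1 from Real.smoothTransition.one_of_one_le (by linarith), sub_self,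
    mul_zero]

theorem VV_smooth {r : ℝ} (h0 : 0 < r) (h1 : r < 1) {g : ℝ → ℝ} (hg : ContDiff ℝ ∞ g)
    (hb : ∀ x, |g x| ≤ 1) : ContDiff ℝ ∞ (fun x => VV r (g x)) := by
  have h2 : ContDiff ℝ ∞ (fun x => r * g x) := contDiff_const.mul hg
  have h3 : ContDiff ℝ ∞ (fun x => Real.arcsin (r * g x)) := by
    rw [contDiff_iff_contDiffAt]
    intro x
    have h4 : |r * g x| < 1 := by
      rw [abs_mul, abs_of_pos h0]
      calc r * |g x| ≤ r * 1 := mul_le_mul_of_nonneg_left (hb x) h0.le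
        _ = r := mul_one r
        _ < 1 := h1
    have h5 := abs_lt.1 h4
    have h6 : ContDiffAt ℝ ∞ Real.arcsin (r * g x) := Real.contDiffAt_arcsin h5.1.ne' h5.2.ne
    exact ContDiffAt.comp (g := Real.arcsin) (f := fun x => r * g x) x h6 h2.contDiffAt
  exact h2.sub h3

theorem wr_bounded {r : ℝ} (h0 : 0 < r) (h1 : r < 1) {g : ℝ → ℝ} (hg : ContDiff ℝ ∞ g)
    (hb : ∀ x, |g x| ≤ 1) (hp : ∀ x, g (x + 2 * Real.pi) = g x) :
    ContDiff ℝ ∞ (fun ξ : ℂ => kap ξ.re * VV r (g ξ.im)) ∧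
    ∀ k : ℕ, ∃ C : ℝ, ∀ ξ : ℂ,
      ‖iteratedFDeriv ℝ k (fun ξ : ℂ => kap ξ.re * VV r (g ξ.im)) ξ‖ ≤ C := by
  have hre : ContDiff ℝ ∞ (fun ξ : ℂ => ξ.re) := Complex.reCLM.contDiff
  have him : ContDiff ℝ ∞ (fun ξ : ℂ => ξ.im) := Complex.imCLM.contDiff
  have hs : ContDiff ℝ ∞ (fun ξ : ℂ => kap ξ.re * VV r (g ξ.im)) :=
    (kap_smooth.comp hre).mul ((VV_smooth h0 h1 hg hb).comp him)
  refine ⟨hs, fun k => bdd_of_periodic_strip _ hs ?_ 0 (11 / 8) (by norm_num) ?_ k⟩
  · intro ξ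
    have e1 : (ξ + 2 * Real.pi * Complex.I).re = ξ.re := by simp
    have e2 : (ξ + 2 * Real.pi * Complex.I).im = ξ.im + 2 * Real.pi := by simp
    rw [e1, e2, hp]
  · intro ξ h
    rcases h with h | h
    · rw [kap_left h.le, zero_mul]
    · rw [kap_right h.le, zero_mul]

/-- D2b -/
theorem wrS_bounded (r : ℝ) (h0 : 0 < r) (h1 : r < 1) : ContDiff ℝ ∞ (wrS r) ∧
    ∀ k : ℕ, ∃ C : ℝ, ∀ ξ : ℂ, ‖iteratedFDeriv ℝ k (wrS r) ξ‖ ≤ C :=
  wr_bounded h0 h1 Real.contDiff_sin Real.abs_sin_le_one Real.sin_add_two_pi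

/-- D2b -/
theorem wrC_bounded (r : ℝ) (h0 : 0 < r) (h1 : r < 1) : ContDiff ℝ ∞ (wrC r) ∧
    ∀ k : ℕ, ∃ C : ℝ, ∀ ξ : ℂ, ‖iteratedFDeriv ℝ k (wrC r) ξ‖ ≤ C :=
  wr_bounded h0 h1 Real.contDiff_cos Real.abs_cos_le_one Real.cos_add_two_pi

theorem int_bounded (F : ℝ → ℝ) (hF : ContDiff ℝ ∞ F) (h0 : ∀ q, 0 ≤ F q) (h1 : ∀ q, F q ≤ 3 / 2)
    (hl : ∀ q, q ≤ -(1 / 2) → F q = 0) (hr : ∀ q, 1 ≤ q → F q = 0) (G : ℝ → ℝ)
    (hG : G = fun s => ∫ q in (-(1/2 : ℝ))..s, F q) :
    ContDiff ℝ ∞ G ∧ (∀ s, HasDerivAt G (F s) s) ∧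
    (∀ s, 0 ≤ G s ∧ G s ≤ 9/4) ∧ (∀ s, s ≤ -(1/2) → G s = 0) ∧
    ∀ k : ℕ, ∃ C : ℝ, ∀ s : ℝ, ‖iteratedFDeriv ℝ k G s‖ ≤ C := by
  have hc : Continuous F := hF.continuous
  have hi : ∀ a b : ℝ, IntervalIntegrable F MeasureTheory.volume a b := fun a b =>
    hc.intervalIntegrable a b
  have hd : ∀ s, HasDerivAt G (F s) s := by
    intro s
    rw [hG]
    exact intervalIntegral.integral_hasDerivAt_right (hi _ _)
      (hc.stronglyMeasurableAtFilter _ _) hc.continuousAt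
  have hderiv : deriv G = F := funext fun s => (hd s).deriv
  have hs : ContDiff ℝ ∞ G := by
    rw [contDiff_infty_iff_deriv]
    exact ⟨fun s => (hd s).differentiableAt, by rw [hderiv]; exact hF⟩
  have hz : ∀ s, s ≤ -(1/2) → G s = 0 := by
    intro s h
    rw [hG]
    show ∫ q in (-(1/2 : ℝ))..s, F q = 0
    rw [intervalIntegral.integral_symm, neg_eq_zero]
    have : ∫ q in s..(-(1/2 : ℝ)), F q = ∫ q in s..(-(1/2 : ℝ)), (0 : ℝ) := by
      refine intervalIntegral.integral_congr fun q hq => ?_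
      rw [Set.uIcc_of_le h] at hq
      exact hl q hq.2
    rw [this]; simp
  have hmono : Monotone G := monotone_of_deriv_nonneg (fun s => (hd s).differentiableAt)
    (fun s => by rw [hderiv]; exact h0 s)
  have hone : G 1 ≤ 9 / 4 := by
    rw [hG]
    show ∫ q in (-(1/2 : ℝ))..1, F q ≤ 9 / 4
    have : ∫ q in (-(1/2 : ℝ))..1, F q ≤ ∫ q in (-(1/2 : ℝ))..1, (3 / 2 : ℝ) :=
      intervalIntegral.integral_mono_on (by norm_num) (hi _ _) (by simp) fun q _ => h1 q
    refine this.trans ?_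
    rw [intervalIntegral.integral_const]
    norm_num
  have hupper : ∀ s, G s ≤ 9 / 4 := by
    intro s
    rcases le_total s 1 with h | h
    · exact (hmono h).trans hone
    · have h2 : G s = G 1 := by
        rw [hG]
        show ∫ q in (-(1/2 : ℝ))..s, F q = ∫ q in (-(1/2 : ℝ))..1, F q
        rw [← intervalIntegral.integral_add_adjacent_intervals (hi (-(1/2)) 1) (hi 1 s)]
        have : ∫ q in (1 : ℝ)..s, F q = ∫ q in (1 : ℝ)..s, (0 : ℝ) := by
          refine intervalIntegral.integral_congr fun q hq => ?_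
          rw [Set.uIcc_of_le h] at hq
          exact hr q hq.1
        rw [this]; simp
      rw [h2]; exact hone
  have hlower : ∀ s, 0 ≤ G s := by
    intro s
    rcases le_total s (-(1/2)) with h | h
    · rw [hz s h]
    · rw [← hz (-(1/2)) le_rfl]
      exact hmono h
  refine ⟨hs, hd, fun s => ⟨hlower s, hupper s⟩, hz, ?_⟩
  intro k
  cases k with
  | zero =>
    refine ⟨9 / 4, fun s => ?_⟩
    rw [norm_iteratedFDeriv_zero, Real.norm_eq_abs, abs_of_nonneg (hlower s)]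
    exact hupper s
  | succ k =>
    have hcs : HasCompactSupport F := by
      refine HasCompactSupport.intro (isCompact_Icc (a := -(1/2 : ℝ)) (b := 1)) fun q hq => ?_
      rw [Set.mem_Icc, not_and_or, not_le, not_le] at hq
      rcases hq with hq | hq
      · exact hl q hq.le
      · exact hr q hq.le
    have hcs2 : HasCompactSupport (iteratedFDeriv ℝ k F) := hcs.iteratedFDeriv k
    have hcc : Continuous (iteratedFDeriv ℝ k F) :=
      hF.continuous_iteratedFDeriv (WithTop.coe_le_coe.2 le_top)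
    obtain ⟨C, hC⟩ := hcs2.exists_bound_of_continuous hcc
    refine ⟨C, fun s => ?_⟩
    rw [norm_iteratedFDeriv_eq_norm_iteratedDeriv, iteratedDeriv_succ', hderiv,
      ← norm_iteratedFDeriv_eq_norm_iteratedDeriv]
    exact hC s

theorem phi_smooth : ContDiff ℝ ∞ phi :=
  ((contDiff_const.sub contDiff_id).mul
    (sg_smooth.comp ((contDiff_const.mul contDiff_id).add contDiff_const))).mul
    (sg_smooth.comp (contDiff_const.sub (contDiff_const.mul contDiff_id)))

theorem om_smooth : ContDiff ℝ ∞ om :=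
  contDiff_const.mul (sg_smooth.comp ((contDiff_const.mul contDiff_id).sub contDiff_const))

theorem phi_left {s : ℝ} (h : s ≤ -(1/2)) : phi s = 0 := by
  unfold phi
  rw [show sg (2 * s + 1) = 0 from Real.smoothTransition.zero_of_nonpos (by linarith)]
  ring

theorem phi_right {s : ℝ} (h : 1 ≤ s) : phi s = 0 := by
  unfold phi
  rw [show sg (2 - 2 * s) = 0 from Real.smoothTransition.zero_of_nonpos (by linarith)]
  ring

theorem sg_nonneg (x : ℝ) : 0 ≤ sg x := Real.smoothTransition.nonneg x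

theorem sg_le_one (x : ℝ) : sg x ≤ 1 := Real.smoothTransition.le_one x

theorem phi_nonneg (s : ℝ) : 0 ≤ phi s := by
  rcases le_total 1 s with h | h
  · rw [phi_right h]
  · exact mul_nonneg (mul_nonneg (by linarith) (sg_nonneg _)) (sg_nonneg _)

theorem phi_le (s : ℝ) : phi s ≤ 3 / 2 := by
  rcases le_total 1 s with h | h
  · rw [phi_right h]; norm_num
  rcases le_total s (-(1/2)) with h' | h'
  · rw [phi_left h']; norm_num
  unfold phi
  have h1 : (1 - s) * sg (2 * s + 1) ≤ (1 - s) * 1 :=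
    mul_le_mul_of_nonneg_left (sg_le_one _) (by linarith)
  have h2 : (1 - s) * sg (2 * s + 1) * sg (2 - 2 * s) ≤ (1 - s) * sg (2 * s + 1) * 1 :=
    mul_le_mul_of_nonneg_left (sg_le_one _) (mul_nonneg (by linarith) (sg_nonneg _))
  linarith

theorem om_mem (s : ℝ) : 0 ≤ om s ∧ om s ≤ Real.pi / 2 := by
  have hpi := Real.pi_pos
  refine ⟨mul_nonneg (by positivity) (sg_nonneg _), ?_⟩
  calc om s = Real.pi / 2 * sg (8 * s - 1) := rfl
    _ ≤ Real.pi / 2 * 1 := mul_le_mul_of_nonneg_left (sg_le_one _) (by positivity)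
    _ = _ := mul_one _

theorem cos_om_nonneg (s : ℝ) : 0 ≤ Real.cos (om s) :=
  Real.cos_nonneg_of_neg_pi_div_two_le_of_le
    (by have := (om_mem s).1; have := Real.pi_pos; linarith) (om_mem s).2

theorem sin_om_nonneg (s : ℝ) : 0 ≤ Real.sin (om s) :=
  Real.sin_nonneg_of_nonneg_of_le_pi (om_mem s).1
    (by have := (om_mem s).2; have := Real.pi_pos; linarith)

/-- D2b -/
theorem XX_bounded : ContDiff ℝ ∞ XX ∧ (∀ s, HasDerivAt XX (phi s * Real.cos (om s)) s) ∧
    (∀ s, 0 ≤ XX s ∧ XX s ≤ 9/4) ∧ (∀ s, s ≤ -(1/2) → XX s = 0) ∧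
    ∀ k : ℕ, ∃ C : ℝ, ∀ s : ℝ, ‖iteratedFDeriv ℝ k XX s‖ ≤ C := by
  refine int_bounded (fun s => phi s * Real.cos (om s))
    (phi_smooth.mul (Real.contDiff_cos.comp om_smooth)) ?_ ?_ ?_ ?_ XX rfl
  · exact fun q => mul_nonneg (phi_nonneg q) (cos_om_nonneg q)
  · exact fun q => (mul_le_of_le_one_right (phi_nonneg q) (Real.cos_le_one _)).trans (phi_le q)
  · exact fun q hq => by show phi q * _ = 0; rw [phi_left hq, zero_mul]
  · exact fun q hq => by show phi q * _ = 0; rw [phi_right hq, zero_mul]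

/-- D2b -/
theorem YY_bounded : ContDiff ℝ ∞ YY ∧ (∀ s, HasDerivAt YY (phi s * Real.sin (om s)) s) ∧
    (∀ s, 0 ≤ YY s ∧ YY s ≤ 9/4) ∧ (∀ s, s ≤ -(1/2) → YY s = 0) ∧
    ∀ k : ℕ, ∃ C : ℝ, ∀ s : ℝ, ‖iteratedFDeriv ℝ k YY s‖ ≤ C := by
  refine int_bounded (fun s => phi s * Real.sin (om s))
    (phi_smooth.mul (Real.contDiff_sin.comp om_smooth)) ?_ ?_ ?_ ?_ YY rfl
  · exact fun q => mul_nonneg (phi_nonneg q) (sin_om_nonneg q)
  · exact fun q => (mul_le_of_le_one_right (phi_nonneg q) (Real.sin_le_one _)).trans (phi_le q)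
  · exact fun q hq => by show phi q * _ = 0; rw [phi_left hq, zero_mul]
  · exact fun q hq => by show phi q * _ = 0; rw [phi_right hq, zero_mul]

end Pool.Agent.Caratheodory
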