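import Pool.Agent.Caratheodory.CoreDefs

set_option autoImplicit false
open scoped ContDiff

/-! # The closing of the construction (module D4, helper34) -/

namespace Pool.Agent.Caratheodory

open Filter Topology Set

theorem sg_contDiff : ContDiff ℝ ∞ sg := contDiff_infty.2 fun n =>
  (Real.smoothTransition.contDiff : ContDiff ℝ (n : ℕ∞) Real.smoothTransition)

theorem sg_continuous : Continuous sg := Real.smoothTransition.continuous

theorem csg_nonneg (x : ℝ) : 0 ≤ sg x := Real.smoothTransition.nonneg x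
theorem csg_le_one (x : ℝ) : sg x ≤ 1 := Real.smoothTransition.le_one x
theorem sg_zero {x : ℝ} (h : x ≤ 0) : sg x = 0 := Real.smoothTransition.zero_of_nonpos h
theorem sg_one {x : ℝ} (h : 1 ≤ x) : sg x = 1 := Real.smoothTransition.one_of_one_le h

theorem sg_hasDerivAt (x : ℝ) : HasDerivAt sg (deriv sg x) x :=
  (sg_contDiff.differentiable (by simp) x).hasDerivAt

theorem dsg_nonneg (x : ℝ) : 0 ≤ deriv sg x :=
  (show Monotone sg from Real.smoothTransition.monotone).deriv_nonneg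

theorem dsg_zero {x : ℝ} (h : x ≤ 0) : deriv sg x = 0 := by
  refine IsLocalMin.deriv_eq_zero (Eventually.of_forall fun y => ?_)
  rw [sg_zero h]
  exact csg_nonneg y

theorem dsg_one {x : ℝ} (h : 1 ≤ x) : deriv sg x = 0 := by
  refine IsLocalMax.deriv_eq_zero (Eventually.of_forall fun y => ?_)
  rw [sg_one h]
  exact csg_le_one y

theorem dsg_bound : ∃ S : ℝ, 0 < S ∧ ∀ x, deriv sg x ≤ S := by
  have h1 : Continuous (deriv sg) := (contDiff_infty_iff_deriv.1 sg_contDiff).2.continuous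
  obtain ⟨S, hS⟩ := (isCompact_Icc (a := (0 : ℝ)) (b := 1)).exists_bound_of_continuousOn
    h1.continuousOn
  refine ⟨|S| + 1, by positivity, fun x => ?_⟩
  rcases le_or_gt x 0 with h | h
  · rw [dsg_zero h]
    positivity
  rcases le_or_gt 1 x with h' | h'
  · rw [dsg_one h']
    positivity
  have := hS x ⟨h.le, h'.le⟩
  linarith [le_abs_self (deriv sg x), Real.norm_eq_abs (deriv sg x), le_abs_self S]

/-- the integrated step -/
noncomputable def st (l c τ : ℝ) : ℝ := ∫ q in (0:ℝ)..τ, sg (l * q - l * c)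

theorem st_hasDerivAt (l c τ : ℝ) : HasDerivAt (st l c) (sg (l * τ - l * c)) τ := by
  have h1 : Continuous fun q : ℝ => sg (l * q - l * c) := sg_continuous.comp (by fun_prop)
  exact intervalIntegral.integral_hasDerivAt_right (h1.intervalIntegrable _ _)
    (h1.stronglyMeasurableAtFilter _ _) h1.continuousAt

theorem st_contDiff (l c : ℝ) : ContDiff ℝ ∞ (st l c) := by
  rw [contDiff_infty_iff_deriv]
  refine ⟨fun τ => (st_hasDerivAt l c τ).differentiableAt, ?_⟩
  have h1 : deriv (st l c) = fun τ => sg (l * τ - l * c) := by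
    ext τ
    exact (st_hasDerivAt l c τ).deriv
  rw [h1]
  exact sg_contDiff.comp (by fun_prop)

theorem st_zero {l c τ : ℝ} (hl : 0 < l) (hc : 0 ≤ c) (h : τ ≤ c) : st l c τ = 0 := by
  unfold st
  refine (intervalIntegral.integral_congr (g := fun _ => 0) fun q hq => ?_).trans (by simp)
  have h1 : q ≤ c := by
    rcases le_total 0 τ with h2 | h2
    · rw [uIcc_of_le h2] at hq
      exact hq.2.trans h
    · rw [uIcc_of_ge h2] at hq
      exact hq.2.trans hc
  exact sg_zero (by nlinarith)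

theorem st_linear {l c τ : ℝ} (hl : 0 < l) (h : c + 1 / l ≤ τ) :
    st l c τ = st l c (c + 1 / l) + (τ - (c + 1 / l)) := by
  have h1 : Continuous fun q : ℝ => sg (l * q - l * c) := sg_continuous.comp (by fun_prop)
  unfold st
  rw [← intervalIntegral.integral_add_adjacent_intervals (h1.intervalIntegrable 0 (c + 1 / l))
    (h1.intervalIntegrable _ _)]
  congr 1
  have h2 : ∫ q in (c + 1 / l)..τ, sg (l * q - l * c) = ∫ q in (c + 1 / l)..τ, (1 : ℝ) := by
    refine intervalIntegral.integral_congr fun q hq => ?_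
    rw [uIcc_of_le h] at hq
    refine sg_one ?_
    have h3 : l * (c + 1 / l) = l * c + 1 := by field_simp
    nlinarith [hq.1, mul_le_mul_of_nonneg_left hq.1 hl.le]
  rw [h2]
  simp

theorem st_le {l c τ : ℝ} (hl : 0 < l) (hc : 0 ≤ c) (h : c ≤ τ) : st l c τ ≤ τ - c := by
  have h1 : Continuous fun q : ℝ => sg (l * q - l * c) := sg_continuous.comp (by fun_prop)
  have h2 : st l c τ = ∫ q in c..τ, sg (l * q - l * c) := by
    have h3 := intervalIntegral.integral_add_adjacent_intervals (h1.intervalIntegrable 0 c)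
      (h1.intervalIntegrable c τ) (μ := MeasureTheory.volume)
    have h4 : ∫ q in (0:ℝ)..c, sg (l * q - l * c) = 0 := st_zero (l := l) (c := c) hl hc le_rfl
    rw [h4, zero_add] at h3
    exact h3.symm
  rw [h2]
  have h3 : ∫ q in c..τ, sg (l * q - l * c) ≤ ∫ q in c..τ, (1 : ℝ) :=
    intervalIntegral.integral_mono_on h (h1.intervalIntegrable _ _)
      (continuous_const.intervalIntegrable _ _) fun q _ => csg_le_one _
  simpa using h3

theorem st_nonneg {l c τ : ℝ} (hτ : 0 ≤ τ) : 0 ≤ st l c τ :=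
  intervalIntegral.integral_nonneg hτ fun _ _ => csg_nonneg _

theorem px_eq (P τ : ℝ) : px P τ = Real.exp (-(P * st 8 (3/8) τ)) := by
  unfold px st
  norm_num

theorem py_eq (P lam τ : ℝ) : py P lam τ = Real.exp (-(P * st lam 1 τ)) := by
  unfold py st
  simp only [mul_sub, mul_one]

theorem E_far {P l c : ℝ} (hl : 0 < l) : ∃ C : ℝ, 0 < C ∧ ∀ τ, c + 1 / l ≤ τ →
    Real.exp (-(P * st l c τ)) = C * Real.exp (-(P * τ)) := by
  refine ⟨Real.exp (-(P * (st l c (c + 1 / l) - (c + 1 / l)))), Real.exp_pos _, fun τ hτ => ?_⟩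
  rw [st_linear hl hτ, ← Real.exp_add]
  congr 1
  ring

/-- D4, first part -/
theorem px_facts (P : ℝ) (hP : 0 < P) : ContDiff ℝ ∞ (px P) ∧ (∀ τ, τ ≤ 3/8 → px P τ = 1) ∧
    (∃ c : ℝ, 0 < c ∧ ∀ τ, 1/2 ≤ τ → px P τ = c * Real.exp (-(P * τ))) := by
  refine ⟨?_, fun τ hτ => ?_, ?_⟩
  · have h1 : px P = fun τ => Real.exp (-(P * st 8 (3/8) τ)) := by
      ext τ
      exact px_eq P τ
    rw [h1]
    exact ((contDiff_const.mul (st_contDiff 8 (3/8))).neg).exp
  · rw [px_eq, st_zero (by norm_num) (by norm_num) hτ]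
    simp
  · obtain ⟨C, hC, h⟩ := E_far (P := P) (l := 8) (c := 3/8) (by norm_num)
    refine ⟨C, hC, fun τ hτ => ?_⟩
    rw [px_eq]
    exact h τ (by norm_num at hτ ⊢; linarith)

/-- D4, second part -/
theorem py_facts (P lam : ℝ) (hP : 0 < P) (hl : 0 < lam) :
    ContDiff ℝ ∞ (py P lam) ∧ (∀ τ, τ ≤ 1 → py P lam τ = 1) ∧
    (∃ c : ℝ, 0 < c ∧ ∀ τ, 1 + 1 / lam ≤ τ → py P lam τ = c * Real.exp (-(P * τ))) := by
  refine ⟨?_, fun τ hτ => ?_, ?_⟩
  · have h1 : py P lam = fun τ => Real.exp (-(P * st lam 1 τ)) := by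
      ext τ
      exact py_eq P lam τ
    rw [h1]
    exact ((contDiff_const.mul (st_contDiff lam 1)).neg).exp
  · rw [py_eq, st_zero hl (by norm_num) hτ]
    simp
  · obtain ⟨C, hC, h⟩ := E_far (P := P) (l := lam) (c := 1) hl
    refine ⟨C, hC, fun τ hτ => ?_⟩
    rw [py_eq]
    exact h τ hτ

theorem phi_eq {s : ℝ} (hs : 0 ≤ s) : phi s = (1 - s) * sg (2 - 2 * s) := by
  rw [phi, sg_one (show (1 : ℝ) ≤ 2 * s + 1 by linarith), mul_one]

theorem phi_hasDerivAt {s : ℝ} (hs : 0 ≤ s) :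
    HasDerivAt phi (-(sg (2 - 2 * s)) - 2 * (1 - s) * deriv sg (2 - 2 * s)) s := by
  have h1 : HasDerivAt (fun s : ℝ => 1 - s) (-1) s := by
    simpa using (hasDerivAt_id s).const_sub 1
  have h2 : HasDerivAt (fun s : ℝ => 2 * s + 1) 2 s := by
    simpa using ((hasDerivAt_id s).const_mul 2).add_const 1
  have h3 : HasDerivAt (fun s : ℝ => 2 - 2 * s) (-2) s := by
    simpa using ((hasDerivAt_id s).const_mul 2).const_sub 2
  have h4 := (sg_hasDerivAt (2 * s + 1)).comp s h2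
  have h5 := (sg_hasDerivAt (2 - 2 * s)).comp s h3
  have h6 := (h1.mul h4).mul h5
  rw [dsg_one (show (1 : ℝ) ≤ 2 * s + 1 by linarith)] at h6
  simp only [Function.comp_def] at h6
  rw [sg_one (show (1 : ℝ) ≤ 2 * s + 1 by linarith)] at h6
  refine HasDerivAt.congr_deriv (f := phi) h6 ?_
  simp only [Pi.mul_apply]
  rw [sg_one (show (1 : ℝ) ≤ 2 * s + 1 by linarith)]
  ring

theorem px_hasDerivAt (P τ : ℝ) : HasDerivAt (px P) (-(P * sg (8 * τ - 3)) * px P τ) τ := by
  have h1 : px P = fun τ => Real.exp (-(P * st 8 (3/8) τ)) := by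
    ext τ
    exact px_eq P τ
  have h2 := (((st_hasDerivAt 8 (3/8) τ).const_mul P).neg).exp
  rw [h1]
  refine h2.congr_deriv ?_
  norm_num
  ring

theorem py_hasDerivAt (P lam τ : ℝ) :
    HasDerivAt (py P lam) (-(P * sg (lam * τ - lam)) * py P lam τ) τ := by
  have h1 : py P lam = fun τ => Real.exp (-(P * st lam 1 τ)) := by
    ext τ
    exact py_eq P lam τ
  have h2 := (((st_hasDerivAt lam 1 τ).const_mul P).neg).exp
  rw [h1]
  refine h2.congr_deriv ?_
  rw [mul_one]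
  simp only [Pi.neg_apply]
  ring

theorem sg_comp_hasDerivAt (l c τ : ℝ) :
    HasDerivAt (fun t => sg (l * t - c)) (l * deriv sg (l * τ - c)) τ := by
  have h3 : HasDerivAt (fun s : ℝ => l * s - c) l τ := by
    simpa using ((hasDerivAt_id τ).const_mul l).sub_const c
  have h4 := (sg_hasDerivAt (l * τ - c)).comp τ h3
  refine h4.congr_deriv ?_
  ring

/-- D4, third part -/
theorem pure_neg : ∃ P0 : ℝ, 0 < P0 ∧ ∀ P : ℝ, 0 < P → P ≤ P0 → ∃ lam : ℝ, 0 < lam ∧
    ∀ (X1 : ℝ) (q : ℝ → ℝ), 3/32 ≤ X1 → X1 ≤ 9 → (∀ τ, 1/4 ≤ τ → HasDerivAt q (phi τ) τ) →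
    (∀ τ, 1/4 ≤ τ → 0 ≤ q τ ∧ q τ ≤ 9) →
    ∀ τ : ℝ, 3/8 ≤ τ → ∀ A1 A2 B1 B2 : ℝ,
      (HasDerivAt (fun t => px P t * X1) A1 τ) → (HasDerivAt (deriv (fun t => px P t * X1)) A2 τ) →
      (HasDerivAt (fun t => py P lam t * q t) B1 τ) →
      (HasDerivAt (deriv (fun t => py P lam t * q t)) B2 τ) →
      A1 * (A2 + 3 * P ^ 2 * (px P τ * X1)) + B1 * (B2 + 3 * P ^ 2 * (py P lam τ * q τ)) < 0 := by
  obtain ⟨S, hS0, hS⟩ := dsg_bound
  refine ⟨min (1 / 20000) (1 / (100 * (S + 1))), by positivity, fun P hP hP0 =>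
    ⟨P / (S + 1), by positivity, ?_⟩⟩
  set lam : ℝ := P / (S + 1) with hlam
  have hlam0 : 0 < lam := by positivity
  have hP1 : P ≤ 1 / 20000 := hP0.trans (min_le_left _ _)
  have hP2 : P * S ≤ 1 / 100 := by
    have h1 : P ≤ 1 / (100 * (S + 1)) := hP0.trans (min_le_right _ _)
    rw [le_div_iff₀ (by positivity)] at h1
    nlinarith
  have hlamS : lam * S ≤ P := by
    rw [hlam, div_mul_eq_mul_div, div_le_iff₀ (by positivity)]
    nlinarith
  intro X1 q hX hX' hq hqb τ hτ A1 A2 B1 B2 hA1 hA2 hB1 hB2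
  -- the derivatives
  have dA : ∀ t, HasDerivAt (fun t => px P t * X1) (-(P * sg (8 * t - 3)) * px P t * X1) t :=
    fun t => (px_hasDerivAt P t).mul_const X1
  have eA1 : A1 = -(P * sg (8 * τ - 3)) * px P τ * X1 := hA1.unique (dA τ)
  have eA2 : A2 = X1 * px P τ * (P ^ 2 * sg (8 * τ - 3) ^ 2 - P * (8 * deriv sg (8 * τ - 3))) := by
    have h1 : deriv (fun t => px P t * X1) = fun t => -(P * sg (8 * t - 3)) * px P t * X1 := by
      ext t
      exact (dA t).deriv
    rw [h1] at hA2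
    have h2 := ((((sg_comp_hasDerivAt 8 3 τ).const_mul P).neg).mul (px_hasDerivAt P τ)).mul_const X1
    refine (hA2.unique h2).trans ?_
    simp only [Pi.neg_apply]
    ring
  have dB : ∀ t, 1 / 4 ≤ t → HasDerivAt (fun t => py P lam t * q t)
      (py P lam t * (phi t - P * sg (lam * t - lam) * q t)) t := fun t ht => by
    refine ((py_hasDerivAt P lam t).mul (hq t ht)).congr_deriv ?_
    ring
  have eB1 : B1 = py P lam τ * (phi τ - P * sg (lam * τ - lam) * q τ) :=
    hB1.unique (dB τ (by linarith))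
  set φ' : ℝ := -(sg (2 - 2 * τ)) - 2 * (1 - τ) * deriv sg (2 - 2 * τ) with hφ'
  have eB2 : B2 = py P lam τ * (φ' - 2 * P * sg (lam * τ - lam) * phi τ +
      P ^ 2 * sg (lam * τ - lam) ^ 2 * q τ - P * (lam * deriv sg (lam * τ - lam)) * q τ) := by
    have h1 : deriv (fun t => py P lam t * q t) =ᶠ[𝓝 τ]
        fun t => py P lam t * (phi t - P * sg (lam * t - lam) * q t) := by
      filter_upwards [Ioi_mem_nhds (show (1 / 4 : ℝ) < τ by linarith)] with t ht
      exact (dB t (le_of_lt ht)).deriv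
    have h2 := hB2.congr_of_eventuallyEq h1.symm
    have h3 := (py_hasDerivAt P lam τ).mul ((phi_hasDerivAt (s := τ) (by linarith)).sub
      (((sg_comp_hasDerivAt lam lam τ).const_mul P).mul (hq τ (by linarith))))
    refine (h2.unique h3).trans ?_
    simp only [Pi.mul_apply, Pi.sub_apply]
    ring
  have hp0 : 0 < px P τ := by rw [px_eq]; exact Real.exp_pos _
  have hp1 : px P τ ≤ 1 := by
    rw [px_eq, Real.exp_le_one_iff]
    have := st_nonneg (l := 8) (c := 3/8) (τ := τ) (by linarith)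
    nlinarith
  have hy0 : 0 < py P lam τ := by rw [py_eq]; exact Real.exp_pos _
  have hν0 := csg_nonneg (8 * τ - 3)
  have hν1 := csg_le_one (8 * τ - 3)
  have hdν0 := dsg_nonneg (8 * τ - 3)
  have hdν1 := hS (8 * τ - 3)
  have hμ0 := csg_nonneg (lam * τ - lam)
  have hdμ0 := dsg_nonneg (lam * τ - lam)
  have hdμ1 := hS (lam * τ - lam)
  obtain ⟨hq0, hq9⟩ := hqb τ (by linarith)
  rw [eA1, eA2, eB1, eB2]
  set p := px P τ with hp
  set y := py P lam τ with hy
  rcases le_or_gt τ 1 with hτ1 | hτ1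
  · have hy1 : y = 1 := (py_facts P lam hP hlam0).2.1 τ hτ1
    have hμz : sg (lam * τ - lam) = 0 := sg_zero (by nlinarith)
    have hdμz : deriv sg (lam * τ - lam) = 0 := dsg_zero (by nlinarith)
    have hφe := phi_eq (s := τ) (by linarith)
    rw [hy1, hμz, hdμz]
    rcases le_or_gt τ (1 / 2) with hτ2 | hτ2
    · have h1 : sg (2 - 2 * τ) = 1 := sg_one (by linarith)
      have h2 : deriv sg (2 - 2 * τ) = 0 := dsg_one (by linarith)
      rw [h1] at hφe
      rw [hφ', h1, h2, hφe]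
      set ν := sg (8 * τ - 3)
      set d := deriv sg (8 * τ - 3)
      have e1 : -(P * ν) * p * X1 * (X1 * p * (P ^ 2 * ν ^ 2 - P * (8 * d)) +
          3 * P ^ 2 * (p * X1)) + 1 * ((1 - τ) * 1 - P * 0 * q τ) *
          (1 * (-1 - 2 * (1 - τ) * 0 - 2 * P * 0 * ((1 - τ) * 1) + P ^ 2 * 0 ^ 2 * q τ -
            P * (lam * 0) * q τ) + 3 * P ^ 2 * (1 * q τ)) =
          P ^ 2 * (ν * (p * X1) ^ 2) * (8 * d) - P ^ 3 * (ν * (p * X1) ^ 2) * (ν ^ 2 + 3) +
          (1 - τ) * (-1 + 3 * P ^ 2 * q τ) := by ring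
      rw [e1]
      have hpX0 : 0 ≤ p * X1 := by positivity
      have hpX : p * X1 ≤ 9 := by nlinarith
      have hG0 : 0 ≤ ν * (p * X1) ^ 2 := by positivity
      have hG1 : ν * (p * X1) ^ 2 ≤ 81 := by
        have : (p * X1) ^ 2 ≤ 81 := by nlinarith
        nlinarith [sq_nonneg (p * X1)]
      have hP2S : P ^ 2 * S ≤ 1 / 2000000 := by
        have : P ^ 2 * S = P * (P * S) := by ring
        rw [this]
        calc P * (P * S) ≤ 1 / 20000 * (1 / 100) :=
            mul_le_mul hP1 hP2 (by positivity) (by norm_num)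
          _ = 1 / 2000000 := by norm_num
      have k1 : P ^ 2 * (ν * (p * X1) ^ 2) * (8 * d) ≤ 648 * (P ^ 2 * S) := by
        have h3 : (ν * (p * X1) ^ 2) * d ≤ 81 * S := mul_le_mul hG1 hdν1 hdν0 (by norm_num)
        have h4 : 0 ≤ P ^ 2 := sq_nonneg P
        have h5 : P ^ 2 * (ν * (p * X1) ^ 2) * (8 * d) = 8 * P ^ 2 * ((ν * (p * X1) ^ 2) * d) := by
          ring
        rw [h5]
        nlinarith
      have k2 : 0 ≤ P ^ 3 * (ν * (p * X1) ^ 2) * (ν ^ 2 + 3) := by positivity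
      have k3 : (1 - τ) * (-1 + 3 * P ^ 2 * q τ) ≤ -1 / 4 := by
        have h3 : P ^ 2 ≤ 1 / 400000000 := by nlinarith
        have h4 : 3 * P ^ 2 * q τ ≤ 1 / 2 := by nlinarith
        nlinarith
      linarith
    · have h1 : sg (8 * τ - 3) = 1 := sg_one (by linarith)
      have h2 : deriv sg (8 * τ - 3) = 0 := dsg_one (by linarith)
      rw [h1, h2]
      set σ := sg (2 - 2 * τ) with hσ
      set σ' := deriv sg (2 - 2 * τ) with hσ'
      have hσ0 : 0 ≤ σ := csg_nonneg _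
      have hσ'0 : 0 ≤ σ' := dsg_nonneg _
      have e1 : -(P * 1) * p * X1 * (X1 * p * (P ^ 2 * 1 ^ 2 - P * (8 * 0)) +
          3 * P ^ 2 * (p * X1)) + 1 * (phi τ - P * 0 * q τ) *
          (1 * (φ' - 2 * P * 0 * phi τ + P ^ 2 * 0 ^ 2 * q τ -
            P * (lam * 0) * q τ) + 3 * P ^ 2 * (1 * q τ)) =
          -(4 * P ^ 3 * (p * X1) ^ 2) + phi τ * (φ' + 3 * P ^ 2 * q τ) := by ring
      rw [e1]
      have hφ0 : 0 ≤ phi τ := by
        rw [hφe]
        exact mul_nonneg (by linarith) hσ0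
      have hφ2 : φ' ≤ -2 * phi τ := by
        rw [hφ', hφe]
        nlinarith [mul_nonneg (show (0 : ℝ) ≤ 1 - τ by linarith) hσ'0]
      have hp2 : 1 / 2 ≤ p := by
        rw [hp, px_eq]
        have h3 := st_le (l := 8) (c := 3/8) (τ := τ) (by norm_num) (by norm_num) (by linarith)
        have h4 := Real.add_one_le_exp (-(P * st 8 (3/8) τ))
        nlinarith
      have k1 : 3 / 64 ≤ p * X1 := by
        have h3 : (1 / 2 : ℝ) * (3 / 32) ≤ p * X1 := mul_le_mul hp2 hX (by norm_num) hp0.le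
        linarith
      have k2 : 9 / 4096 ≤ (p * X1) ^ 2 := by
        have h3 : (3 / 64 : ℝ) ^ 2 ≤ (p * X1) ^ 2 := pow_le_pow_left₀ (by norm_num) k1 2
        linarith
      have k3 : phi τ * (φ' + 3 * P ^ 2 * q τ) ≤ 729 / 8 * P ^ 4 := by
        have h5 : 3 * P ^ 2 * q τ ≤ 3 * P ^ 2 * 9 :=
          mul_le_mul_of_nonneg_left hq9 (by positivity)
        have h3 : φ' + 3 * P ^ 2 * q τ ≤ 27 * P ^ 2 - 2 * phi τ := by linarith
        have h4 : phi τ * (φ' + 3 * P ^ 2 * q τ) ≤ phi τ * (27 * P ^ 2 - 2 * phi τ) :=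
          mul_le_mul_of_nonneg_left h3 hφ0
        have h6 : phi τ * (27 * P ^ 2 - 2 * phi τ) =
          729 / 8 * P ^ 4 - 2 * (phi τ - 27 / 4 * P ^ 2) ^ 2 := by ring
        linarith [sq_nonneg (phi τ - 27 / 4 * P ^ 2)]
      have hP3 : 0 < P ^ 3 := by positivity
      have k4 : P ^ 4 ≤ 1 / 20000 * P ^ 3 := by
        have h3 : P ^ 4 = P * P ^ 3 := by ring
        rw [h3]
        exact mul_le_mul_of_nonneg_right hP1 hP3.le
      have k5 : 4 * P ^ 3 * (9 / 4096) ≤ 4 * P ^ 3 * (p * X1) ^ 2 :=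
        mul_le_mul_of_nonneg_left k2 (by positivity)
      linarith
  · have h1 : sg (8 * τ - 3) = 1 := sg_one (by linarith)
    have h2 : deriv sg (8 * τ - 3) = 0 := dsg_one (by linarith)
    have h3 : sg (2 - 2 * τ) = 0 := sg_zero (by linarith)
    have h4 : deriv sg (2 - 2 * τ) = 0 := dsg_zero (by linarith)
    have hφe := phi_eq (s := τ) (by linarith)
    rw [h3, mul_zero] at hφe
    rw [hφ', h1, h2, h3, h4, hφe]
    set μ := sg (lam * τ - lam)
    set d := deriv sg (lam * τ - lam)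
    have e1 : -(P * 1) * p * X1 * (X1 * p * (P ^ 2 * 1 ^ 2 - P * (8 * 0)) +
        3 * P ^ 2 * (p * X1)) + y * (0 - P * μ * q τ) *
        (y * (-0 - 2 * (1 - τ) * 0 - 2 * P * μ * 0 + P ^ 2 * μ ^ 2 * q τ -
          P * (lam * d) * q τ) + 3 * P ^ 2 * (y * q τ)) =
        -(4 * P ^ 3 * (p * X1) ^ 2) - P * μ * (y * q τ) ^ 2 * (P ^ 2 * μ ^ 2 +
          (3 * P ^ 2 - P * (lam * d))) := by ring
    rw [e1]
    have h5 : lam * d ≤ P := (mul_le_mul_of_nonneg_left hdμ1 hlam0.le).trans hlamS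
    have h6 : 0 ≤ 3 * P ^ 2 - P * (lam * d) := by
      have k1 : P * (lam * d) ≤ P * P := mul_le_mul_of_nonneg_left h5 hP.le
      have k2 : P * P = P ^ 2 := by ring
      have k3 : 0 ≤ P ^ 2 := sq_nonneg P
      linarith
    have h7 : 0 ≤ P * μ * (y * q τ) ^ 2 * (P ^ 2 * μ ^ 2 + (3 * P ^ 2 - P * (lam * d))) :=
      mul_nonneg (by positivity) (add_nonneg (by positivity) h6)
    have h8 : 0 < p * X1 := by positivity
    have h9 : 0 < 4 * P ^ 3 * (p * X1) ^ 2 := by positivity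
    linarith

end Pool.Agent.Caratheodory
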