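import Pool.Agent.Caratheodory.StageDefs

/-!
# The macroscopic coefficients

Bounds and derivatives of `MX`, `MY`.
-/

set_option autoImplicit false
open scoped ContDiff Topology

namespace Pool.Agent.Caratheodory

namespace Macro

open Real

lemma sg_zero {x : ℝ} (h : x ≤ 0) : sg x = 0 := Real.smoothTransition.zero_of_nonpos h
lemma sg_one {x : ℝ} (h : 1 ≤ x) : sg x = 1 := Real.smoothTransition.one_of_one_le h
lemma sg_nonneg (x : ℝ) : 0 ≤ sg x := Real.smoothTransition.nonneg x
lemma sg_le_one (x : ℝ) : sg x ≤ 1 := Real.smoothTransition.le_one x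
lemma sg_contDiff : ContDiff ℝ ∞ sg := Real.smoothTransition.contDiff

lemma phi_left {s : ℝ} (h : s ≤ -(1/2)) : phi s = 0 := by
  unfold phi; rw [sg_zero (x := 2 * s + 1) (by linarith)]; ring

lemma phi_right {s : ℝ} (h : 1 ≤ s) : phi s = 0 := by
  unfold phi; rw [sg_zero (x := 2 - 2 * s) (by linarith)]; ring

lemma phi_nonneg (s : ℝ) : 0 ≤ phi s := by
  rcases le_total s 1 with h | h
  · unfold phi
    have := sg_nonneg (2 * s + 1); have := sg_nonneg (2 - 2 * s)
    have : 0 ≤ 1 - s := by linarith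
    positivity
  · rw [phi_right h]

lemma phi_le (s : ℝ) : phi s ≤ 3 / 2 := by
  rcases le_total s (-(1/2)) with h | h
  · rw [phi_left h]; norm_num
  rcases le_total s 1 with h1 | h1
  · unfold phi
    have a1 := sg_nonneg (2 * s + 1); have a2 := sg_nonneg (2 - 2 * s)
    have b1 := sg_le_one (2 * s + 1); have b2 := sg_le_one (2 - 2 * s)
    have h3 : 0 ≤ 1 - s := by linarith
    have h4 : sg (2 * s + 1) * sg (2 - 2 * s) ≤ 1 := by nlinarith
    have h5 : 0 ≤ sg (2 * s + 1) * sg (2 - 2 * s) := by positivity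
    rw [mul_assoc]
    nlinarith
  · rw [phi_right h1]; norm_num

lemma phi_mid {s : ℝ} (h0 : 0 ≤ s) (h1 : s ≤ 1 / 2) : phi s = 1 - s := by
  unfold phi; rw [sg_one (x := 2 * s + 1) (by linarith), sg_one (x := 2 - 2 * s) (by linarith)]
  ring

lemma phi_contDiff : ContDiff ℝ ∞ phi := by
  unfold phi
  have h1 : ContDiff ℝ ∞ (fun s : ℝ => sg (2 * s + 1)) :=
    sg_contDiff.comp ((contDiff_const.mul contDiff_id).add contDiff_const)
  have h2 : ContDiff ℝ ∞ (fun s : ℝ => sg (2 - 2 * s)) :=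
    sg_contDiff.comp (contDiff_const.sub (contDiff_const.mul contDiff_id))
  exact ((contDiff_const.sub contDiff_id).mul h1).mul h2

lemma om_left {s : ℝ} (h : s ≤ 1 / 8) : om s = 0 := by
  unfold om; rw [sg_zero (by linarith)]; ring

lemma om_right {s : ℝ} (h : 1 / 4 ≤ s) : om s = π / 2 := by
  unfold om; rw [sg_one (by linarith)]; ring

lemma om_nonneg (s : ℝ) : 0 ≤ om s := by
  unfold om; have := sg_nonneg (8 * s - 1); positivity

lemma om_le (s : ℝ) : om s ≤ π / 2 := by
  unfold om; have := sg_le_one (8 * s - 1); nlinarith [Real.pi_pos]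

lemma om_contDiff : ContDiff ℝ ∞ om := by
  unfold om
  exact contDiff_const.mul
    (sg_contDiff.comp ((contDiff_const.mul contDiff_id).sub contDiff_const))

lemma cos_om_nonneg (s : ℝ) : 0 ≤ cos (om s) :=
  cos_nonneg_of_neg_pi_div_two_le_of_le (by have := om_nonneg s; linarith [Real.pi_pos]) (om_le s)

lemma sin_om_nonneg (s : ℝ) : 0 ≤ sin (om s) :=
  sin_nonneg_of_nonneg_of_le_pi (om_nonneg s) (by have := om_le s; linarith [Real.pi_pos])

lemma dX_contDiff : ContDiff ℝ ∞ dX := phi_contDiff.mul (Real.contDiff_cos.comp om_contDiff)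
lemma dY_contDiff : ContDiff ℝ ∞ dY := phi_contDiff.mul (Real.contDiff_sin.comp om_contDiff)

lemma dX_nonneg (s : ℝ) : 0 ≤ dX s := mul_nonneg (phi_nonneg s) (cos_om_nonneg s)
lemma dY_nonneg (s : ℝ) : 0 ≤ dY s := mul_nonneg (phi_nonneg s) (sin_om_nonneg s)
lemma dX_le (s : ℝ) : dX s ≤ 3 / 2 := by
  unfold dX
  have := phi_nonneg s; have := phi_le s; have := cos_om_nonneg s; have := cos_le_one (om s)
  nlinarith
lemma dY_le (s : ℝ) : dY s ≤ 3 / 2 := by
  unfold dY
  have := phi_nonneg s; have := phi_le s; have := sin_om_nonneg s; have := sin_le_one (om s)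
  nlinarith

/-- the common properties of the two profiles `(XX, dX)` and `(YY, dY)` -/
structure Prof (f f' : ℝ → ℝ) : Prop where
  smooth : ContDiff ℝ ∞ f'
  der : ∀ s, HasDerivAt f (f' s) s
  left : ∀ s, s ≤ -(1/2) → f' s = 0
  right : ∀ s, 1 ≤ s → f' s = 0
  fleft : ∀ s, s ≤ -(1/2) → f s = 0
  fright : ∀ s, 1 ≤ s → f s = f 1
  nonneg : ∀ s, 0 ≤ f s
  le : ∀ s, f s ≤ 9 / 4

lemma prof_of (f' : ℝ → ℝ) (hs : ContDiff ℝ ∞ f') (hl : ∀ s, s ≤ -(1/2) → f' s = 0)
    (hr : ∀ s, 1 ≤ s → f' s = 0) (h0 : ∀ s, 0 ≤ f' s) (h1 : ∀ s, f' s ≤ 3 / 2) :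
    Prof (fun s => ∫ q in (-(1/2 : ℝ))..s, f' q) f' := by
  have hc : Continuous f' := hs.continuous
  have hder : ∀ s, HasDerivAt (fun s => ∫ q in (-(1/2 : ℝ))..s, f' q) (f' s) s := fun s =>
    intervalIntegral.integral_hasDerivAt_right (hc.intervalIntegrable _ _)
      hc.stronglyMeasurable.stronglyMeasurableAtFilter hc.continuousAt
  have hfl : ∀ s : ℝ, s ≤ -(1/2) → (∫ q in (-(1/2 : ℝ))..s, f' q) = 0 := by
    intro s h
    rw [intervalIntegral.integral_symm]
    have : (∫ q in s..(-(1/2 : ℝ)), f' q) = ∫ q in s..(-(1/2 : ℝ)), (0 : ℝ) := by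
      apply intervalIntegral.integral_congr
      intro q hq
      rw [Set.uIcc_of_le h] at hq
      exact hl q hq.2
    rw [this]; simp
  have hmono : Monotone (fun s => ∫ q in (-(1/2 : ℝ))..s, f' q) := by
    apply monotone_of_deriv_nonneg
    · intro s; exact (hder s).differentiableAt
    · intro s; rw [(hder s).deriv]; exact h0 s
  have hfr : ∀ s : ℝ, 1 ≤ s → (∫ q in (-(1/2 : ℝ))..s, f' q) = ∫ q in (-(1/2 : ℝ))..1, f' q := by
    intro s h
    rw [← intervalIntegral.integral_add_adjacent_intervals (hc.intervalIntegrable (-(1/2)) 1)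
      (hc.intervalIntegrable 1 s)]
    have : (∫ q in (1 : ℝ)..s, f' q) = ∫ q in (1 : ℝ)..s, (0 : ℝ) := by
      apply intervalIntegral.integral_congr
      intro q hq
      rw [Set.uIcc_of_le h] at hq
      exact hr q hq.1
    rw [this]; simp
  refine ⟨hs, hder, hl, hr, hfl, hfr, ?_, ?_⟩
  · intro s
    rcases le_total s (-(1/2)) with h | h
    · rw [hfl s h]
    · have := hmono h
      simpa using this
  · intro s
    have hle1 : (∫ q in (-(1/2 : ℝ))..1, f' q) ≤ 9 / 4 := by
      have h2 : (∫ q in (-(1/2 : ℝ))..1, f' q) ≤ ∫ q in (-(1/2 : ℝ))..1, (3/2 : ℝ) := by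
        apply intervalIntegral.integral_mono_on (by norm_num) (hc.intervalIntegrable _ _)
          (by simp)
        intro q _
        exact h1 q
      refine h2.trans ?_
      rw [intervalIntegral.integral_const]
      norm_num
    rcases le_total s 1 with h | h
    · exact (hmono h).trans hle1
    · show (∫ q in (-(1/2 : ℝ))..s, f' q) ≤ 9/4
      rw [hfr s h]; exact hle1

lemma prof_X : Prof XX dX :=
  prof_of dX dX_contDiff (fun s h => by unfold dX; rw [phi_left h]; ring)
    (fun s h => by unfold dX; rw [phi_right h]; ring) dX_nonneg dX_le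

lemma prof_Y : Prof YY dY :=
  prof_of dY dY_contDiff (fun s h => by unfold dY; rw [phi_left h]; ring)
    (fun s h => by unfold dY; rw [phi_right h]; ring) dY_nonneg dY_le

/-- the derivative of the derivative vanishes outside too -/
lemma Prof.deriv_left {f f' : ℝ → ℝ} (h : Prof f f') {s : ℝ} (hs : s < -(1/2)) :
    deriv f' s = 0 := by
  have : f' =ᶠ[𝓝 s] fun _ => 0 := by
    filter_upwards [Iio_mem_nhds hs] with x hx
    exact h.left x (le_of_lt hx)
  rw [this.deriv_eq]; simp

lemma Prof.deriv_right {f f' : ℝ → ℝ} (h : Prof f f') {s : ℝ} (hs : 1 ≤ s) :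
    deriv f' s = 0 := by
  -- continuity of the derivative
  have hc : Continuous (deriv f') := h.smooth.continuous_deriv (by simp)
  rcases hs.lt_or_eq with hs | hs
  · have : f' =ᶠ[𝓝 s] fun _ => 0 := by
      filter_upwards [Ioi_mem_nhds hs] with x hx
      exact h.right x (le_of_lt hx)
    rw [this.deriv_eq]; simp
  · subst hs
    have h1 : Filter.Tendsto (deriv f') (𝓝[>] 1) (𝓝 (deriv f' 1)) :=
      hc.continuousAt.tendsto.mono_left nhdsWithin_le_nhds
    have h2 : Filter.Tendsto (deriv f') (𝓝[>] 1) (𝓝 0) := by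
      apply tendsto_const_nhds.congr'
      filter_upwards [self_mem_nhdsWithin] with x hx
      have hx : 1 < x := hx
      have : f' =ᶠ[𝓝 x] fun _ => 0 := by
        filter_upwards [Ioi_mem_nhds hx] with x hx
        exact h.right x (le_of_lt hx)
      rw [this.deriv_eq]; simp
    exact tendsto_nhds_unique h1 h2

/-! ### general series -/

section series

variable {a : ℕ → ℝ} (hpos : ∀ j, 0 < a j) (h2 : ∀ j, 2 * a (j+1) ≤ a j)
include hpos h2

lemma a_le (n j : ℕ) : a (n + j) ≤ a n * (1/2) ^ j := by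
  induction j with
  | zero => simp
  | succ j ih =>
    have := h2 (n + j)
    rw [pow_succ, ← add_assoc]
    linarith

lemma a_summable : Summable a := by
  have h : Summable (fun j : ℕ => a 0 * (1/2 : ℝ) ^ j) :=
    (summable_geometric_of_lt_one (by norm_num) (by norm_num)).mul_left _
  refine Summable.of_nonneg_of_le (fun j => (hpos j).le) (fun j => ?_) h
  have := a_le hpos h2 0 j
  simpa using this

/-- a shifted series with nonnegative bounded terms starting at index `n` -/
lemma series_bound (g : ℕ → ℝ) (n : ℕ) (B : ℝ) (hB : 0 ≤ B) (hg0 : ∀ j, 0 ≤ g j)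
    (hgB : ∀ j, g j ≤ B) (hgz : ∀ j, j < n → g j = 0) :
    0 ≤ ∑' j, a j * g j ∧ ∑' j, a j * g j ≤ 2 * B * a n := by
  have hsum : Summable (fun j => a j * g j) := by
    refine Summable.of_nonneg_of_le (fun j => mul_nonneg (hpos j).le (hg0 j)) (fun j => ?_)
      ((a_summable hpos h2).mul_right B)
    exact mul_le_mul_of_nonneg_left (hgB j) (hpos j).le
  refine ⟨tsum_nonneg fun j => mul_nonneg (hpos j).le (hg0 j), ?_⟩
  rw [← hsum.sum_add_tsum_nat_add n]
  have h1 : ∑ j ∈ Finset.range n, a j * g j = 0 := by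
    apply Finset.sum_eq_zero
    intro j hj
    rw [hgz j (Finset.mem_range.1 hj), mul_zero]
  rw [h1, zero_add]
  have h3 : Summable (fun j : ℕ => a n * (1/2 : ℝ) ^ j * B) :=
    ((summable_geometric_of_lt_one (by norm_num) (by norm_num)).mul_left _).mul_right _
  have h4 : ∑' j, a (j + n) * g (j + n) ≤ ∑' j : ℕ, a n * (1/2 : ℝ) ^ j * B := by
    apply Summable.tsum_le_tsum _ ((summable_nat_add_iff n).2 hsum) h3
    intro j
    have := a_le hpos h2 n j
    rw [add_comm n j] at this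
    exact mul_le_mul this (hgB _) (hg0 _) (mul_nonneg (hpos n).le (by positivity))
  refine h4.trans ?_
  rw [tsum_mul_right, tsum_mul_left, tsum_geometric_of_lt_one (by norm_num) (by norm_num)]
  have := hpos n
  nlinarith

/-- local form of the series: finite sum plus constant -/
lemma series_local (F F' : ℕ → ℝ → ℝ) (hF : ∀ j, Prof (F j) (F' j)) (m : ℕ) (τ : ℝ)
    (hτ : 1 - m ≤ τ) :
    ∑' j, a j * F j (τ + j) = ∑ j ∈ Finset.range m, a j * F j (τ + j)
      + ∑' j, a (j + m) * F (j + m) 1 := by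
  have hsum : Summable (fun j : ℕ => a j * F j (τ + j)) := by
    refine Summable.of_nonneg_of_le (fun j => mul_nonneg (hpos j).le ((hF j).nonneg _))
      (fun j => ?_) ((a_summable hpos h2).mul_right (9/4))
    exact mul_le_mul_of_nonneg_left ((hF j).le _) (hpos j).le
  rw [← hsum.sum_add_tsum_nat_add m]
  congr 1
  apply tsum_congr
  intro j
  rw [(hF (j + m)).fright]
  push_cast
  have : (0 : ℝ) ≤ j := Nat.cast_nonneg j
  linarith

lemma series_hasDerivAt (F F' : ℕ → ℝ → ℝ) (hF : ∀ j, Prof (F j) (F' j)) (m : ℕ) (τ : ℝ)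
    (hτ : 1 - m < τ) :
    HasDerivAt (fun τ => ∑' j, a j * F j (τ + j))
      (∑ j ∈ Finset.range m, a j * F' j (τ + j)) τ := by
  have h1 : (fun τ : ℝ => ∑' j, a j * F j (τ + j)) =ᶠ[𝓝 τ]
      fun τ => ∑ j ∈ Finset.range m, a j * F j (τ + j) + ∑' j, a (j + m) * F (j + m) 1 := by
    filter_upwards [Ioi_mem_nhds hτ] with t ht
    exact series_local hpos h2 F F' hF m t (le_of_lt ht)
  apply HasDerivAt.congr_of_eventuallyEq _ h1
  apply HasDerivAt.add_const
  apply HasDerivAt.fun_sum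
  intro j _
  apply HasDerivAt.const_mul
  exact ((hF j).der (τ + j)).comp_add_const τ j

lemma series_deriv2 (F F' : ℕ → ℝ → ℝ) (hF : ∀ j, Prof (F j) (F' j)) (m : ℕ) (τ : ℝ)
    (hτ : 1 - m < τ) :
    deriv (deriv (fun τ => ∑' j, a j * F j (τ + j))) τ =
      ∑ j ∈ Finset.range m, a j * deriv (F' j) (τ + j) := by
  have h1 : deriv (fun τ : ℝ => ∑' j, a j * F j (τ + j)) =ᶠ[𝓝 τ]
      fun τ => ∑ j ∈ Finset.range m, a j * F' j (τ + j) := by
    filter_upwards [Ioi_mem_nhds hτ] with t ht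
    exact (series_hasDerivAt hpos h2 F F' hF m t ht).deriv
  rw [h1.deriv_eq]
  apply HasDerivAt.deriv
  apply HasDerivAt.fun_sum
  intro j _
  apply HasDerivAt.const_mul
  exact (((hF j).smooth.differentiable (by simp) (τ + j)).hasDerivAt).comp_add_const τ j

/-- stage form of the first and second derivative -/
lemma series_stage (F F' : ℕ → ℝ → ℝ) (hF : ∀ j, Prof (F j) (F' j)) (n : ℕ) (s : ℝ)
    (hs0 : 0 ≤ s) (hs1 : s ≤ 1) :
    deriv (fun τ => ∑' j, a j * F j (τ + j)) (s - n) =
      a n * F' n s + (if n = 0 then 0 else a (n - 1)) * F' (n - 1) (s - 1) ∧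
    deriv (deriv (fun τ => ∑' j, a j * F j (τ + j))) (s - n) =
      a n * deriv (F' n) s + (if n = 0 then 0 else a (n - 1)) * deriv (F' (n - 1)) (s - 1) := by
  have hτ : 1 - ((n + 2 : ℕ) : ℝ) < s - n := by push_cast; linarith
  rw [(series_hasDerivAt hpos h2 F F' hF (n + 2) _ hτ).deriv,
    series_deriv2 hpos h2 F F' hF (n + 2) _ hτ]
  have hz1 : F' (n + 1) (s - n + ((n + 1 : ℕ) : ℝ)) = 0 := by
    apply (hF _).right; push_cast; linarith
  have hz2 : deriv (F' (n + 1)) (s - n + ((n + 1 : ℕ) : ℝ)) = 0 := by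
    apply (hF _).deriv_right; push_cast; linarith
  have e1 : s - (n : ℝ) + n = s := by ring
  rw [Finset.sum_range_succ, Finset.sum_range_succ, Finset.sum_range_succ, Finset.sum_range_succ,
    hz1, hz2, e1]
  rcases Nat.eq_zero_or_pos n with hn | hn
  · subst hn; simp
  · obtain ⟨m, rfl⟩ : ∃ m, n = m + 1 := ⟨n - 1, by omega⟩
    rw [Finset.sum_range_succ, Finset.sum_range_succ]
    have hzz : ∀ j ∈ Finset.range m, (s - ((m + 1 : ℕ) : ℝ) + (j : ℝ)) < -(1/2) := by
      intro j hj
      have : j + 1 ≤ m := Finset.mem_range.1 hj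
      have : ((j + 1 : ℕ) : ℝ) ≤ m := by exact_mod_cast this
      push_cast at this ⊢
      linarith
    have z1 : ∑ j ∈ Finset.range m, a j * F' j (s - ((m + 1 : ℕ) : ℝ) + (j : ℝ)) = 0 := by
      apply Finset.sum_eq_zero
      intro j hj
      rw [(hF j).left _ (hzz j hj).le, mul_zero]
    have z2 : ∑ j ∈ Finset.range m, a j * deriv (F' j) (s - ((m + 1 : ℕ) : ℝ) + (j : ℝ)) = 0 := by
      apply Finset.sum_eq_zero
      intro j hj
      rw [(hF j).deriv_left (hzz j hj), mul_zero]
    have e2 : s - ((m + 1 : ℕ) : ℝ) + (m : ℝ) = s - 1 := by push_cast; ring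
    rw [z1, z2, e2]
    simp only [Nat.add_sub_cancel, Nat.add_eq_zero_iff, one_ne_zero, and_false, if_false]
    constructor <;> ring

end series

/-! ### identification -/

/-- the profiles of `MX` -/
noncomputable def FX (j : ℕ) : ℝ → ℝ := if Even j then XX else YY
noncomputable def FX' (j : ℕ) : ℝ → ℝ := if Even j then dX else dY
/-- the profiles of `MY` -/
noncomputable def FY (j : ℕ) : ℝ → ℝ := if Even j then YY else XX
noncomputable def FY' (j : ℕ) : ℝ → ℝ := if Even j then dY else dX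

lemma prof_FX (j : ℕ) : Prof (FX j) (FX' j) := by
  unfold FX FX'; split_ifs
  · exact prof_X
  · exact prof_Y

lemma prof_FY (j : ℕ) : Prof (FY j) (FY' j) := by
  unfold FY FY'; split_ifs
  · exact prof_Y
  · exact prof_X

lemma MX_eq (a : ℕ → ℝ) : MX a = fun τ : ℝ => ∑' j : ℕ, a j * FX j (τ + j) := by
  funext τ
  unfold MX FX
  apply tsum_congr
  intro j
  split_ifs <;> rfl

lemma MY_eq (a : ℕ → ℝ) : MY a = fun τ : ℝ => ∑' j : ℕ, a j * FY j (τ + j) := by
  funext τ
  unfold MY FY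
  apply tsum_congr
  intro j
  split_ifs <;> rfl

lemma YY_left {s : ℝ} (h : s ≤ 0) : YY s = 0 := by
  have h1 : Antitone (fun _ : ℝ => (0 : ℝ)) := antitone_const
  rcases le_total s (-(1/2)) with h2 | h2
  · exact prof_Y.fleft s h2
  · unfold YY
    have : (∫ q in (-(1/2 : ℝ))..s, phi q * sin (om q)) = ∫ q in (-(1/2 : ℝ))..s, (0 : ℝ) := by
      apply intervalIntegral.integral_congr
      intro q hq
      rw [Set.uIcc_of_le h2] at hq
      show phi q * sin (om q) = 0
      rw [om_left (by linarith [hq.2])]; simp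
    rw [this]; simp

lemma XX_right {s : ℝ} (h : 1 / 4 ≤ s) : XX s = XX (1/4) := by
  unfold XX
  have hc : Continuous dX := dX_contDiff.continuous
  have hc' : Continuous (fun q => phi q * cos (om q)) := hc
  rw [← intervalIntegral.integral_add_adjacent_intervals (hc'.intervalIntegrable (-(1/2)) (1/4))
    (hc'.intervalIntegrable (1/4) s)]
  have : (∫ q in (1/4 : ℝ)..s, phi q * cos (om q)) = ∫ q in (1/4 : ℝ)..s, (0 : ℝ) := by
    apply intervalIntegral.integral_congr
    intro q hq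
    rw [Set.uIcc_of_le h] at hq
    show phi q * cos (om q) = 0
    rw [om_right hq.1]; simp
  rw [this]; simp

lemma XX_quarter : 3 / 32 ≤ XX (1/4) := by
  have hc : Continuous (fun q => phi q * cos (om q)) := dX_contDiff.continuous
  have h1 : XX (1/4) = XX 0 + (∫ q in (0:ℝ)..(1/8), phi q * cos (om q))
      + ∫ q in (1/8:ℝ)..(1/4), phi q * cos (om q) := by
    unfold XX
    rw [intervalIntegral.integral_add_adjacent_intervals (hc.intervalIntegrable _ _)
      (hc.intervalIntegrable _ _),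
      intervalIntegral.integral_add_adjacent_intervals (hc.intervalIntegrable _ _)
      (hc.intervalIntegrable _ _)]
  have h2 := prof_X.nonneg 0
  have h3 : 0 ≤ ∫ q in (1/8:ℝ)..(1/4), phi q * cos (om q) :=
    intervalIntegral.integral_nonneg (by norm_num) (fun q _ => dX_nonneg q)
  have h4 : (∫ q in (0:ℝ)..(1/8), (3/4 : ℝ)) ≤ ∫ q in (0:ℝ)..(1/8), phi q * cos (om q) := by
    apply intervalIntegral.integral_mono_on (by norm_num) (by simp) (hc.intervalIntegrable _ _)
    intro q hq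
    rw [om_left hq.2, cos_zero, mul_one, phi_mid hq.1 (by linarith [hq.2])]
    linarith [hq.2]
  rw [intervalIntegral.integral_const] at h4
  rw [h1]
  norm_num at h4
  linarith

end Macro

open Macro in
/-- D3-M (Macro.lean): bounds and derivatives of the macroscopic coefficients.
`n` even: `MX' = a n * dX s + am * dY (s-1)` etc. -/
theorem macro_facts (a : ℕ → ℝ) (ha0 : a 0 = 1) (hpos : ∀ j, 0 < a j) (h2 : ∀ j, 2 * a (j+1) ≤ a j) :
    (∀ (n : ℕ) (s : ℝ), 0 ≤ s → s ≤ 1 →
      (0 ≤ MX a (s - n)) ∧ (0 ≤ MY a (s - n)) ∧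
      (s ≤ 1/2 → MX a (s - n) + MY a (s - n) ≤ 9 * a n) ∧
      (1 ≤ n → MX a (s - n) + MY a (s - n) ≤ 9 * a (n - 1))) ∧
    (∀ (n : ℕ) (s : ℝ), 0 ≤ s → s ≤ 1 → Even n →
      deriv (MX a) (s - n) = a n * dX s + (if n = 0 then 0 else a (n-1)) * dY (s - 1) ∧
      deriv (MY a) (s - n) = a n * dY s + (if n = 0 then 0 else a (n-1)) * dX (s - 1) ∧
      deriv (deriv (MX a)) (s - n)
        = a n * deriv dX s + (if n = 0 then 0 else a (n-1)) * deriv dY (s - 1) ∧
      deriv (deriv (MY a)) (s - n)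
        = a n * deriv dY s + (if n = 0 then 0 else a (n-1)) * deriv dX (s - 1)) ∧
    (∀ (n : ℕ) (s : ℝ), 0 ≤ s → s ≤ 1 → ¬ Even n →
      deriv (MY a) (s - n) = a n * dX s + (if n = 0 then 0 else a (n-1)) * dY (s - 1) ∧
      deriv (MX a) (s - n) = a n * dY s + (if n = 0 then 0 else a (n-1)) * dX (s - 1) ∧
      deriv (deriv (MY a)) (s - n)
        = a n * deriv dX s + (if n = 0 then 0 else a (n-1)) * deriv dY (s - 1) ∧
      deriv (deriv (MX a)) (s - n)
        = a n * deriv dY s + (if n = 0 then 0 else a (n-1)) * deriv dX (s - 1)) ∧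
    (∃ X1 : ℝ, 3/32 ≤ X1 ∧ X1 ≤ 9 ∧ ∀ τ, 1/4 ≤ τ → MX a τ = X1) ∧
    (∀ τ, 1/4 ≤ τ → HasDerivAt (MY a) (phi τ) τ ∧ 0 ≤ MY a τ ∧ MY a τ ≤ 9) ∧
    (∃ Y1 : ℝ, ∀ τ, 1 ≤ τ → MY a τ = Y1) := by
  -- splitting of the parity cases
  have hstX := series_stage hpos h2 FX FX' prof_FX
  have hstY := series_stage hpos h2 FY FY' prof_FY
  rw [← MX_eq a] at hstX
  rw [← MY_eq a] at hstY
  -- general bounds
  have hbX : ∀ (n : ℕ) (τ : ℝ), (∀ j : ℕ, j < n → FX j (τ + j) = 0) →
      0 ≤ MX a τ ∧ MX a τ ≤ 2 * (9/4) * a n := by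
    intro n τ h
    rw [MX_eq a]
    exact series_bound hpos h2 (fun j => FX j (τ + j)) n (9/4) (by norm_num)
      (fun j => (prof_FX j).nonneg _) (fun j => (prof_FX j).le _) h
  have hbY : ∀ (n : ℕ) (τ : ℝ), (∀ j : ℕ, j < n → FY j (τ + j) = 0) →
      0 ≤ MY a τ ∧ MY a τ ≤ 2 * (9/4) * a n := by
    intro n τ h
    rw [MY_eq a]
    exact series_bound hpos h2 (fun j => FY j (τ + j)) n (9/4) (by norm_num)
      (fun j => (prof_FY j).nonneg _) (fun j => (prof_FY j).le _) h
  refine ⟨?_, ?_, ?_, ?_, ?_, ?_⟩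
  · intro n s hs0 hs1
    have hX0 := (hbX 0 (s - n) (by intro j hj; omega)).1
    have hY0 := (hbY 0 (s - n) (by intro j hj; omega)).1
    refine ⟨hX0, hY0, ?_, ?_⟩
    · intro hs
      have hz : ∀ j : ℕ, j < n → (s - n + j) ≤ -(1/2) := by
        intro j hj
        have : ((j + 1 : ℕ) : ℝ) ≤ n := by exact_mod_cast hj
        push_cast at this
        linarith
      have k1 := (hbX n (s - n) (fun j hj => (prof_FX j).fleft _ (hz j hj))).2
      have k2 := (hbY n (s - n) (fun j hj => (prof_FY j).fleft _ (hz j hj))).2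
      linarith
    · intro hn
      have hz : ∀ j : ℕ, j < n - 1 → (s - n + j) ≤ -(1/2) := by
        intro j hj
        have : ((j + 2 : ℕ) : ℝ) ≤ n := by
          have : j + 2 ≤ n := by omega
          exact_mod_cast this
        push_cast at this
        linarith
      have k1 := (hbX (n - 1) (s - n) (fun j hj => (prof_FX j).fleft _ (hz j hj))).2
      have k2 := (hbY (n - 1) (s - n) (fun j hj => (prof_FY j).fleft _ (hz j hj))).2
      linarith
  · intro n s hs0 hs1 hn
    obtain ⟨x1, x2⟩ := hstX n s hs0 hs1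
    obtain ⟨y1, y2⟩ := hstY n s hs0 hs1
    rw [x1, x2, y1, y2]
    rcases Nat.eq_zero_or_pos n with h0 | h0
    · subst h0; simp [FX', FY']
    · have hodd : ¬ Even (n - 1) := by
        intro h
        have h3 : Even (n - 1 + 1) := by rwa [Nat.sub_add_cancel h0]
        exact (Nat.even_add_one.1 h3) h
      simp only [FX', FY', hn, hodd, if_true, if_false, and_self]
  · intro n s hs0 hs1 hn
    obtain ⟨x1, x2⟩ := hstX n s hs0 hs1
    obtain ⟨y1, y2⟩ := hstY n s hs0 hs1
    rw [x1, x2, y1, y2]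
    have h0 : 0 < n := by
      rcases Nat.eq_zero_or_pos n with h0 | h0
      · subst h0; exact absurd (by simp) hn
      · exact h0
    have heven : Even (n - 1) := by
      by_contra h
      apply hn
      have h3 : Even (n - 1 + 1) := Nat.even_add_one.2 h
      rwa [Nat.sub_add_cancel h0] at h3
    simp only [FX', FY', hn, heven, if_true, if_false, and_self]
  · -- X1
    have hloc : ∀ τ : ℝ, 1/4 ≤ τ → MX a τ = XX (1/4) + ∑' j, a (j + 1) * FX (j + 1) 1 := by
      intro τ hτ
      rw [MX_eq a]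
      have := series_local hpos h2 FX FX' prof_FX 1 τ (by push_cast; linarith)
      show ∑' j : ℕ, a j * FX j (τ + j) = _
      rw [this]
      simp [FX, ha0, XX_right hτ]
    refine ⟨XX (1/4) + ∑' j, a (j + 1) * FX (j + 1) 1, ?_, ?_, hloc⟩
    · have h3 : 0 ≤ ∑' j, a (j + 1) * FX (j + 1) 1 :=
        tsum_nonneg fun j => mul_nonneg (hpos _).le ((prof_FX _).nonneg _)
      have := XX_quarter
      linarith
    · rw [← hloc (1/4) le_rfl]
      have := (hbX 0 (1/4) (by intro j hj; omega)).2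
      rw [ha0] at this
      linarith
  · intro τ hτ
    refine ⟨?_, (hbY 0 τ (by intro j hj; omega)).1, ?_⟩
    · rw [MY_eq a]
      have h3 := series_hasDerivAt hpos h2 FY FY' prof_FY 1 τ (by push_cast; linarith)
      refine h3.congr_deriv ?_
      simp [FY', ha0, dY, om_right hτ]
    · have := (hbY 0 τ (by intro j hj; omega)).2
      rw [ha0] at this
      linarith
  · refine ⟨∑' j, a j * FY j 1, ?_⟩
    intro τ hτ
    rw [MY_eq a]
    apply tsum_congr
    intro j
    rw [(prof_FY j).fright]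
    have : (0 : ℝ) ≤ j := Nat.cast_nonneg j
    linarith

end Pool.Agent.Caratheodory
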