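import Mathlib

/-!
# Module D3-S: second derivatives of a separated function
-/

set_option autoImplicit false
open scoped ContDiff

namespace Pool.Agent.Caratheodory

theorem sep_D1 (A B : ℝ → ℝ) (hA : ContDiff ℝ ∞ A) (hB : ContDiff ℝ ∞ B) (ξ : ℂ) :
    HasFDerivAt (fun ξ : ℂ => A ξ.re * B ξ.im)
      ((deriv A ξ.re * B ξ.im) • Complex.reCLM + (A ξ.re * deriv B ξ.im) • Complex.imCLM) ξ := by
  have h1 : HasFDerivAt (fun ξ : ℂ => A ξ.re) ((deriv A ξ.re) • Complex.reCLM) ξ :=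
    HasDerivAt.comp_hasFDerivAt ξ (hA.differentiable (by simp) _).hasDerivAt
      Complex.reCLM.hasFDerivAt
  have h2 : HasFDerivAt (fun ξ : ℂ => B ξ.im) ((deriv B ξ.im) • Complex.imCLM) ξ :=
    HasDerivAt.comp_hasFDerivAt ξ (hB.differentiable (by simp) _).hasDerivAt
      Complex.imCLM.hasFDerivAt
  have h3 := h1.mul h2
  refine h3.congr_fderiv ?_
  ext <;> (simp; try ring)

/-- D3-S (Sep.lean): second derivative of a separated function. -/
theorem sep_D2 (A B : ℝ → ℝ) (hA : ContDiff ℝ ∞ A) (hB : ContDiff ℝ ∞ B) (ξ v w : ℂ) :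
    fderiv ℝ (fderiv ℝ (fun ξ : ℂ => A ξ.re * B ξ.im)) ξ v w
      = deriv (deriv A) ξ.re * B ξ.im * v.re * w.re
        + deriv A ξ.re * deriv B ξ.im * (v.re * w.im + v.im * w.re)
        + A ξ.re * deriv (deriv B) ξ.im * v.im * w.im := by
  have hA' : ContDiff ℝ ∞ (deriv A) := (contDiff_infty_iff_deriv.1 hA).2
  have hB' : ContDiff ℝ ∞ (deriv B) := (contDiff_infty_iff_deriv.1 hB).2
  have e : fderiv ℝ (fun ξ : ℂ => A ξ.re * B ξ.im) = fun ξ : ℂ =>
      (deriv A ξ.re * B ξ.im) • Complex.reCLM + (A ξ.re * deriv B ξ.im) • Complex.imCLM :=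
    funext fun ξ => (sep_D1 A B hA hB ξ).fderiv
  have h1 := ((sep_D1 (deriv A) B hA' hB ξ).smul_const Complex.reCLM).add
    ((sep_D1 A (deriv B) hA hB' ξ).smul_const Complex.imCLM)
  rw [e]
  refine (congrArg (fun T => T v w) h1.fderiv).trans ?_
  simp
  ring

end Pool.Agent.Caratheodory
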