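import Pool.Agent.Caratheodory.CoreDefs

set_option autoImplicit false

/-! # A slowly growing sequence (module D1, helper34) -/

namespace Pool.Agent.Caratheodory

open Filter Topology Finset

/-- the amplitudes `a j = 1 / (L 1 ⋯ L j)` -/
noncomputable def amp (L : ℕ → ℕ) (j : ℕ) : ℝ := ∏ i ∈ range j, (1 / (L (i + 1) : ℝ))

theorem amp_zero (L : ℕ → ℕ) : amp L 0 = 1 := by simp [amp]

theorem amp_succ (L : ℕ → ℕ) (j : ℕ) : amp L (j + 1) = amp L j * (1 / (L (j + 1) : ℝ)) := by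
  rw [amp, amp, prod_range_succ]

theorem amp_pos {L : ℕ → ℕ} (hL : ∀ j, 0 < L j) (j : ℕ) : 0 < amp L j :=
  prod_pos fun i _ => by
    have : (0 : ℝ) < L (i + 1) := by exact_mod_cast hL _
    positivity

/-- superexponential decay -/
theorem amp_decay {L : ℕ → ℕ} (hL : ∀ j, 0 < L j) (hLt : Tendsto L atTop atTop) (K : ℝ)
    (hK : 0 < K) : ∃ C : ℝ, 0 < C ∧ ∀ j, amp L j * K ^ j ≤ C := by
  obtain ⟨j0, hj0⟩ := eventually_atTop.1 (hLt.eventually_ge_atTop ⌈K⌉₊)
  have hpos : ∀ j, 0 < amp L j * K ^ j := fun j => mul_pos (amp_pos hL j) (pow_pos hK j)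
  have hmono : ∀ n, amp L (j0 + n) * K ^ (j0 + n) ≤ amp L j0 * K ^ j0 := by
    intro n
    induction n with
    | zero => simp
    | succ n ih =>
      refine le_trans ?_ ih
      have h1 : (K : ℝ) ≤ L (j0 + n + 1) := by
        have := hj0 (j0 + n + 1) (by omega)
        exact (Nat.le_ceil K).trans (by exact_mod_cast this)
      have h2 : (0 : ℝ) < L (j0 + n + 1) := by exact_mod_cast hL _
      rw [← add_assoc, amp_succ, pow_succ]
      have h3 : amp L (j0 + n) * (1 / (L (j0 + n + 1) : ℝ)) * (K ^ (j0 + n) * K) =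
          (amp L (j0 + n) * K ^ (j0 + n)) * (K / L (j0 + n + 1)) := by
        field_simp
      rw [h3]
      refine mul_le_of_le_one_right (hpos _).le ?_
      rw [div_le_one h2]
      exact h1
  refine ⟨∑ i ∈ range (j0 + 1), amp L i * K ^ i, ?_, fun j => ?_⟩
  · exact sum_pos (fun i _ => hpos i) ⟨0, by simp⟩
  · rcases le_or_gt j j0 with h | h
    · exact single_le_sum (f := fun i => amp L i * K ^ i) (fun i _ => (hpos i).le)
        (mem_range.2 (by omega))
    · obtain ⟨n, rfl⟩ := Nat.exists_eq_add_of_le h.le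
      exact (hmono n).trans (single_le_sum (f := fun i => amp L i * K ^ i)
        (fun i _ => (hpos i).le) (mem_range.2 (by omega)))

/-- the slow sequence -/
theorem slow_seq (N : ℕ → ℕ → ℝ) (L0 : ℕ) (hL0 : 0 < L0) :
    ∃ L : ℕ → ℕ, (∀ j, L0 ≤ L j) ∧ Tendsto L atTop atTop ∧
      ∀ k M : ℕ, ∃ C : ℝ, ∀ j, amp L j * (1 + |N k (L j)|) ≤ C * Real.exp (-(M * j)) := by
  classical
  set F : ℕ → ℝ := fun l => ∑ k ∈ range (l + 1), ∑ m ∈ range (l + 1), (1 + |N k m|) with hF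
  have hF1 : ∀ l k m, k ≤ l → m ≤ l → 1 + |N k m| ≤ F l := by
    intro l k m hk hm
    have h1 : 1 + |N k m| ≤ ∑ m ∈ range (l + 1), (1 + |N k m|) :=
      single_le_sum (f := fun m => 1 + |N k m|) (fun i _ => by positivity)
        (mem_range.2 (by omega))
    exact h1.trans (single_le_sum (f := fun k => ∑ m ∈ range (l + 1), (1 + |N k m|))
      (fun i _ => sum_nonneg fun i _ => by positivity) (mem_range.2 (by omega)))
  set G : ℕ → ℕ := fun j => Nat.findGreatest (fun l => F l ≤ j) j with hG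
  have hGt : Tendsto G atTop atTop := by
    rw [tendsto_atTop]
    intro b
    filter_upwards [eventually_ge_atTop (max b ⌈F b⌉₊)] with j hj
    refine Nat.le_findGreatest ((le_max_left _ _).trans hj) ?_
    exact (Nat.le_ceil _).trans (by exact_mod_cast (le_max_right _ _).trans hj)
  have hGs : ∀ᶠ j in atTop, F (G j) ≤ j := by
    filter_upwards [eventually_ge_atTop ⌈F 0⌉₊] with j hj
    exact Nat.findGreatest_spec (P := fun l => F l ≤ j) (Nat.zero_le j)
      ((Nat.le_ceil _).trans (by exact_mod_cast hj))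
  refine ⟨fun j => max L0 (G j), fun j => le_max_left _ _, ?_, ?_⟩
  · exact tendsto_atTop_mono (fun j => le_max_right _ _) hGt
  intro k M
  set L : ℕ → ℕ := fun j => max L0 (G j) with hL
  have hLpos : ∀ j, 0 < L j := fun j => lt_of_lt_of_le hL0 (le_max_left _ _)
  have hLt : Tendsto L atTop atTop := tendsto_atTop_mono (fun j => le_max_right _ _) hGt
  obtain ⟨C1, hC1, hC2⟩ := amp_decay hLpos hLt (Real.exp (M + 1)) (Real.exp_pos _)
  obtain ⟨j0, hj0⟩ := eventually_atTop.1 ((hGt.eventually_ge_atTop (max k L0)).and hGs)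
  have hpos : ∀ j, 0 ≤ amp L j * (1 + |N k (L j)|) * Real.exp (M * j) := fun j =>
    mul_nonneg (mul_nonneg (amp_pos hLpos j).le (by positivity)) (Real.exp_pos _).le
  refine ⟨C1 + ∑ i ∈ range j0, amp L i * (1 + |N k (L i)|) * Real.exp (M * i), fun j => ?_⟩
  rw [Real.exp_neg, ← div_eq_mul_inv, le_div_iff₀ (Real.exp_pos _)]
  rcases lt_or_ge j j0 with h | h
  · have h1 := single_le_sum (f := fun i => amp L i * (1 + |N k (L i)|) * Real.exp (M * i))
      (fun i _ => hpos i) (mem_range.2 h)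
    linarith
  · obtain ⟨h1, h2⟩ := hj0 j h
    have h3 : L j = G j := max_eq_right ((le_max_right _ _).trans h1)
    have h4 : 1 + |N k (L j)| ≤ j := by
      rw [h3]
      exact (hF1 (G j) k (G j) ((le_max_left _ _).trans h1) le_rfl).trans h2
    have h5 : (j : ℝ) ≤ Real.exp j := by linarith [Real.add_one_le_exp (j : ℝ)]
    have h6 : amp L j * (1 + |N k (L j)|) * Real.exp (M * j) ≤ C1 := by
      refine le_trans ?_ (hC2 j)
      have h7 : Real.exp (M + 1) ^ j = Real.exp j * Real.exp (M * j) := by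
        rw [← Real.exp_nat_mul, ← Real.exp_add]
        congr 1
        ring
      rw [h7, mul_assoc]
      refine mul_le_mul_of_nonneg_left ?_ (amp_pos hLpos j).le
      exact mul_le_mul_of_nonneg_right (h4.trans h5) (Real.exp_pos _).le
    have h8 : 0 ≤ ∑ i ∈ range j0, amp L i * (1 + |N k (L i)|) * Real.exp (M * i) :=
      sum_nonneg fun i _ => hpos i
    linarith

theorem GG_rho (m : ℝ) (hm : 0 < m) : 0 < m / Real.sqrt (1 + m ^ 2) ∧
    m / Real.sqrt (1 + m ^ 2) < 1 ∧ GG (m / Real.sqrt (1 + m ^ 2)) = 4 * m := by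
  have h1 : 0 < 1 + m ^ 2 := by positivity
  have h2 : 0 < Real.sqrt (1 + m ^ 2) := Real.sqrt_pos.2 h1
  have h3 : Real.sqrt (1 + m ^ 2) ^ 2 = 1 + m ^ 2 := Real.sq_sqrt h1.le
  refine ⟨by positivity, ?_, ?_⟩
  · rw [div_lt_one h2]
    exact Real.lt_sqrt_of_sq_lt (by linarith)
  · have h4 : 1 - (m / Real.sqrt (1 + m ^ 2)) ^ 2 = 1 / (Real.sqrt (1 + m ^ 2)) ^ 2 := by
      rw [div_pow, h3]
      field_simp
      ring
    unfold GG
    rw [h4, Real.sqrt_div zero_le_one, Real.sqrt_one, Real.sqrt_sq h2.le]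
    field_simp

/-- D1: the data of the construction -/
theorem exists_data (N : ℕ → ℝ → ℝ) (C1 : ℝ) : ∃ a r : ℕ → ℝ, a 0 = 1 ∧ (∀ j, 0 < a j) ∧
    (∀ j, 2 * a (j+1) ≤ a j) ∧ (∀ j, 0 < r j ∧ r j < 1) ∧
    (∀ j, C1 * a j ≤ a (j+1) * GG (r (j+1))) ∧
    (∀ k M : ℕ, ∃ C : ℝ, ∀ j : ℕ, a j * (1 + |N k (r j)|) ≤ C * Real.exp (-(M * j : ℝ))) := by
  set m : ℕ → ℝ := fun l => max 1 (C1 * l) with hm
  have hm0 : ∀ l, 0 < m l := fun l => lt_of_lt_of_le one_pos (le_max_left _ _)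
  set ρ : ℕ → ℝ := fun l => m l / Real.sqrt (1 + m l ^ 2) with hρ
  obtain ⟨L, hL1, hL2, hL3⟩ := slow_seq (fun k l => N k (ρ l)) 2 (by norm_num)
  have hpos : ∀ j, 0 < L j := fun j => lt_of_lt_of_le (by norm_num) (hL1 j)
  refine ⟨amp L, fun j => ρ (L j), amp_zero L, amp_pos hpos, fun j => ?_, fun j => ?_,
    fun j => ?_, fun k M => ?_⟩
  · rw [amp_succ]
    have h1 : (2 : ℝ) ≤ L (j + 1) := by exact_mod_cast hL1 _
    have h2 := amp_pos hpos j
    have h3 : 2 * (amp L j * (1 / (L (j + 1) : ℝ))) = amp L j * (2 / L (j + 1)) := by ring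
    rw [h3]
    refine mul_le_of_le_one_right h2.le ?_
    rw [div_le_one (by linarith)]
    exact h1
  · exact ⟨(GG_rho _ (hm0 _)).1, (GG_rho _ (hm0 _)).2.1⟩
  · have h1 : GG (ρ (L (j + 1))) = 4 * m (L (j + 1)) := (GG_rho _ (hm0 _)).2.2
    rw [amp_succ, h1]
    have h2 : (0 : ℝ) < L (j + 1) := by exact_mod_cast hpos _
    have h3 : C1 * L (j + 1) ≤ 4 * m (L (j + 1)) := by
      have h4 : C1 * L (j + 1) ≤ m (L (j + 1)) := le_max_right _ _
      have h5 := hm0 (L (j + 1))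
      linarith
    have h6 := amp_pos hpos j
    have h7 : amp L j * (1 / (L (j + 1) : ℝ)) * (4 * m (L (j + 1))) =
        amp L j * (4 * m (L (j + 1)) / L (j + 1)) := by ring
    rw [h7, mul_comm C1]
    refine mul_le_mul_of_nonneg_left ?_ h6.le
    rw [le_div_iff₀ h2]
    exact h3
  · obtain ⟨C, hC⟩ := hL3 k M
    exact ⟨C, hC⟩

end Pool.Agent.Caratheodory
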