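import Pool.Agent.Caratheodory.CoreDefs

/-!
# Series of smooth functions which start further and further to the left
-/

set_option autoImplicit false
open scoped ContDiff

namespace Pool.Agent.Caratheodory

theorem summable_exp_neg (C : ℝ) : Summable (fun j : ℕ => C * Real.exp (-((1 : ℕ) * j : ℝ))) := by
  apply Summable.mul_left
  have h2 : (fun j : ℕ => Real.exp (-((1 : ℕ) * j : ℝ))) = fun j : ℕ => (Real.exp (-1)) ^ j := by
    funext j
    rw [← Real.exp_nat_mul]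
    congr 1
    push_cast
    ring
  rw [h2]
  exact summable_geometric_of_lt_one (Real.exp_pos _).le (Real.exp_lt_one_iff.mpr (by norm_num))

/-- a function which vanishes on the left half space has vanishing derivatives there -/
theorem iteratedFDeriv_eq_zero_of_left {E : Type} [NormedAddCommGroup E] [NormedSpace ℝ E]
    (l : E →L[ℝ] ℝ) {g : E → ℝ} {c : ℝ} (hg : ∀ x : E, l x < c → g x = 0)
    (k : ℕ) {x : E} (hx : l x < c) : iteratedFDeriv ℝ k g x = 0 := by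
  have h1 : g =ᶠ[nhds x] (fun _ => (0 : ℝ)) := by
    have h2 : {z : E | l z < c} ∈ nhds x :=
      (isOpen_lt l.continuous continuous_const).mem_nhds hx
    filter_upwards [h2] with z hz
    exact hg z hz
  have h3 := (h1.iteratedFDeriv ℝ k).eq_of_nhds
  rw [h3]
  have h4 : iteratedFDeriv ℝ k (fun _ : E => (0 : ℝ)) = 0 := iteratedFDeriv_fun_zero
  rw [h4]
  rfl

/-- D2a (Series.lean) -/
theorem series {E : Type} [NormedAddCommGroup E] [NormedSpace ℝ E] (l : E →L[ℝ] ℝ)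
    (f : ℕ → E → ℝ) (hf : ∀ j, ContDiff ℝ ∞ (f j))
    (hz : ∀ (j : ℕ) (x : E), l x < -(j + 1 : ℝ) → f j x = 0)
    (hb : ∀ k M : ℕ, ∃ C : ℝ, ∀ (j : ℕ) (x : E),
      ‖iteratedFDeriv ℝ k (f j) x‖ ≤ C * Real.exp (-(M * j : ℝ))) :
    ContDiff ℝ ∞ (fun x => ∑' j, f j x) ∧
    (∀ (k : ℕ) (x : E), iteratedFDeriv ℝ k (fun x => ∑' j, f j x) x
      = ∑' j, iteratedFDeriv ℝ k (f j) x) ∧
    (∀ k N : ℕ, ∃ C : ℝ, ∀ x : E, l x ≤ 0 →
      ‖iteratedFDeriv ℝ k (fun x => ∑' j, f j x) x‖ ≤ C * Real.exp (N * l x)) := by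
  have hb1 : ∀ k : ℕ, ∃ C : ℝ, ∀ (j : ℕ) (x : E),
      ‖iteratedFDeriv ℝ k (f j) x‖ ≤ C * Real.exp (-((1 : ℕ) * j : ℝ)) := fun k => hb k 1
  choose C1 hC1 using hb1
  have hder : ∀ (k : ℕ) (x : E), iteratedFDeriv ℝ k (fun x => ∑' j, f j x) x
      = ∑' j, iteratedFDeriv ℝ k (f j) x := fun k x =>
    iteratedFDeriv_tsum_apply (v := fun (k : ℕ) (j : ℕ) => C1 k * Real.exp (-((1 : ℕ) * j : ℝ))) hf
      (fun k _ => summable_exp_neg (C1 k)) (fun k j x _ => hC1 k j x) le_top x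
  refine ⟨contDiff_tsum (v := fun (k : ℕ) (j : ℕ) => C1 k * Real.exp (-((1 : ℕ) * j : ℝ))) hf
      (fun k _ => summable_exp_neg (C1 k)) (fun k j x _ => hC1 k j x), hder, ?_⟩
  intro k N
  obtain ⟨C, hC⟩ := hb k (N + 1)
  have hC0 : 0 ≤ C := by
    have h1 := (norm_nonneg _).trans (hC 0 0)
    simpa using h1
  have hgeo := summable_exp_neg 1
  refine ⟨C * Real.exp N * ∑' j : ℕ, 1 * Real.exp (-((1 : ℕ) * j : ℝ)), fun x hx => ?_⟩
  rw [hder]
  set K : ℝ := C * Real.exp N * Real.exp (N * l x) with hK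
  have hK0 : 0 ≤ K := by rw [hK]; positivity
  have hterm : ∀ j : ℕ, ‖iteratedFDeriv ℝ k (f j) x‖ ≤
      K * (1 * Real.exp (-((1 : ℕ) * j : ℝ))) := by
    intro j
    by_cases hj : l x < -(j + 1 : ℝ)
    · rw [iteratedFDeriv_eq_zero_of_left l (hz j) k hj, norm_zero]
      positivity
    · push Not at hj
      refine (hC j x).trans ?_
      rw [hK, one_mul, mul_assoc C, mul_assoc C, ← Real.exp_add, ← Real.exp_add]
      apply mul_le_mul_of_nonneg_left _ hC0
      apply Real.exp_le_exp.mpr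
      push_cast
      have h6 : (N : ℝ) * (-(l x)) ≤ N * (j + 1) :=
        mul_le_mul_of_nonneg_left (by linarith) (Nat.cast_nonneg _)
      nlinarith
  calc ‖∑' j, iteratedFDeriv ℝ k (f j) x‖ ≤
        ∑' j : ℕ, K * (1 * Real.exp (-((1 : ℕ) * j : ℝ))) :=
        tsum_of_norm_bounded (hgeo.mul_left K).hasSum hterm
    _ = C * Real.exp N * (∑' j : ℕ, 1 * Real.exp (-((1 : ℕ) * j : ℝ))) *
        Real.exp (N * l x) := by
        rw [tsum_mul_left, hK]; ring

end Pool.Agent.Caratheodory
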