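import Pool.Agent.Caratheodory.StageDefs

set_option autoImplicit false
open scoped ContDiff

namespace Pool.Agent.Caratheodory

namespace SI

theorem sg_contDiff : ContDiff ℝ ∞ sg := Real.smoothTransition.contDiff

theorem sg_nonneg (x : ℝ) : 0 ≤ sg x := Real.smoothTransition.nonneg x

theorem sg_le_one (x : ℝ) : sg x ≤ 1 := Real.smoothTransition.le_one x

theorem sg_zero {x : ℝ} (h : x ≤ 0) : sg x = 0 := Real.smoothTransition.zero_of_nonpos h

theorem sg_one {x : ℝ} (h : 1 ≤ x) : sg x = 1 := Real.smoothTransition.one_of_one_le h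

theorem sg_diff : Differentiable ℝ sg := sg_contDiff.differentiable (by simp)

theorem phi_diff : Differentiable ℝ phi := by
  unfold phi
  exact (((differentiable_const _).sub differentiable_id).mul
    (sg_diff.comp (((differentiable_const _).mul differentiable_id).add (differentiable_const _)))).mul
    (sg_diff.comp ((differentiable_const _).sub ((differentiable_const _).mul differentiable_id)))

theorem om_diff : Differentiable ℝ om := by
  unfold om
  exact (differentiable_const _).mul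
    (sg_diff.comp (((differentiable_const _).mul differentiable_id).sub (differentiable_const _)))

theorem deriv_eq_of_Icc {f g : ℝ → ℝ} {a b x : ℝ} (hab : a < b) (hx : x ∈ Set.Icc a b)
    (hf : DifferentiableAt ℝ f x) (hg : DifferentiableAt ℝ g x)
    (h : ∀ y ∈ Set.Icc a b, f y = g y) : deriv f x = deriv g x := by
  rw [← hf.derivWithin (uniqueDiffOn_Icc hab x hx), ← hg.derivWithin (uniqueDiffOn_Icc hab x hx)]
  exact derivWithin_congr h (h x hx)

theorem phi_mid {s : ℝ} (h0 : 0 ≤ s) (h1 : s ≤ 1 / 2) : phi s = 1 - s := by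
  unfold phi
  rw [sg_one (by linarith), sg_one (by linarith)]
  ring

theorem deriv_phi_mid {s : ℝ} (h0 : 0 ≤ s) (h1 : s ≤ 1 / 2) : deriv phi s = -1 := by
  have h := deriv_eq_of_Icc (f := phi) (g := fun s => 1 - s) (a := 0) (b := 1 / 2) (x := s)
    (by norm_num) ⟨h0, h1⟩ (phi_diff s) (by fun_prop) (fun y hy => phi_mid hy.1 hy.2)
  rw [h]
  simp

theorem phi_left {s : ℝ} (h : s ≤ -(1 / 2)) : phi s = 0 := by
  unfold phi
  rw [sg_zero (x := 2 * s + 1) (by linarith)]
  ring

theorem dX_diff : Differentiable ℝ dX := by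
  unfold dX
  exact phi_diff.mul (Real.differentiable_cos.comp om_diff)

theorem dY_diff : Differentiable ℝ dY := by
  unfold dY
  exact phi_diff.mul (Real.differentiable_sin.comp om_diff)

theorem dX_left {s : ℝ} (h : s ≤ -(1 / 2)) : dX s = 0 := by
  unfold dX
  rw [phi_left h]; ring

theorem dY_left {s : ℝ} (h : s ≤ -(1 / 2)) : dY s = 0 := by
  unfold dY
  rw [phi_left h]; ring

theorem deriv_dX_left {s : ℝ} (h : s ≤ -(1 / 2)) : deriv dX s = 0 := by
  have := deriv_eq_of_Icc (f := dX) (g := fun _ => (0 : ℝ)) (a := s - 1) (b := s) (x := s)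
    (by linarith) ⟨by linarith, le_refl _⟩ (dX_diff s) (by fun_prop)
    (fun y hy => dX_left (le_trans hy.2 h))
  rw [this]; simp

theorem deriv_dY_left {s : ℝ} (h : s ≤ -(1 / 2)) : deriv dY s = 0 := by
  have := deriv_eq_of_Icc (f := dY) (g := fun _ => (0 : ℝ)) (a := s - 1) (b := s) (x := s)
    (by linarith) ⟨by linarith, le_refl _⟩ (dY_diff s) (by fun_prop)
    (fun y hy => dY_left (le_trans hy.2 h))
  rw [this]; simp

theorem deriv_dX (s : ℝ) : deriv dX s
    = deriv phi s * Real.cos (om s) - phi s * Real.sin (om s) * deriv om s := by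
  have h1 := (phi_diff s).hasDerivAt
  have h2 := ((om_diff s).hasDerivAt).cos
  have h3 := (h1.mul h2).deriv
  have : dX = phi * fun x => Real.cos (om x) := by
    funext x; rfl
  rw [this, h3]
  ring

theorem deriv_dY (s : ℝ) : deriv dY s
    = deriv phi s * Real.sin (om s) + phi s * Real.cos (om s) * deriv om s := by
  have h1 := (phi_diff s).hasDerivAt
  have h2 := ((om_diff s).hasDerivAt).sin
  have h3 := (h1.mul h2).deriv
  have : dY = phi * fun x => Real.sin (om x) := by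
    funext x; rfl
  rw [this, h3]
  ring

theorem om_zero {s : ℝ} (h : s ≤ 1 / 8) : om s = 0 := by
  unfold om
  rw [sg_zero (by linarith)]; ring

theorem om_top {s : ℝ} (h : 1 / 4 ≤ s) : om s = Real.pi / 2 := by
  unfold om
  rw [sg_one (by linarith)]; ring

theorem om_nonneg (s : ℝ) : 0 ≤ om s := by
  unfold om
  exact mul_nonneg (by positivity) (sg_nonneg _)

theorem om_le (s : ℝ) : om s ≤ Real.pi / 2 := by
  unfold om
  exact mul_le_of_le_one_right (by positivity) (sg_le_one _)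

theorem kap_nonneg (s : ℝ) : 0 ≤ kap s := by
  unfold kap
  exact mul_nonneg (sg_nonneg _) (by linarith [sg_le_one (8 * s - 10)])

theorem kap_le_one (s : ℝ) : kap s ≤ 1 := by
  unfold kap
  exact mul_le_one₀ (sg_le_one _) (by linarith [sg_le_one (8 * s - 10)])
    (by linarith [sg_nonneg (8 * s - 10)])

theorem kap_flat {q : ℝ} (h0 : 1 / 8 ≤ q) (h1 : q ≤ 5 / 4) : kap q = 1 := by
  unfold kap
  rw [sg_one (by linarith), sg_zero (by linarith)]; ring

theorem kap_ev {q : ℝ} (h0 : 1 / 8 < q) (h1 : q < 5 / 4) : kap =ᶠ[nhds q] fun _ => (1 : ℝ) := by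
  filter_upwards [Ioo_mem_nhds h0 h1] with x hx
  exact kap_flat hx.1.le hx.2.le

theorem deriv_kap_flat {q : ℝ} (h0 : 1 / 8 < q) (h1 : q < 5 / 4) : deriv kap q = 0 := by
  rw [(kap_ev h0 h1).deriv_eq]; simp

theorem deriv2_kap_flat {q : ℝ} (h0 : 1 / 8 < q) (h1 : q < 5 / 4) : deriv (deriv kap) q = 0 := by
  have h : deriv kap =ᶠ[nhds q] fun _ => (0 : ℝ) := by
    filter_upwards [Ioo_mem_nhds h0 h1] with x hx
    exact deriv_kap_flat hx.1 hx.2
  rw [h.deriv_eq]; simp

theorem deriv_kap_bound {S1 : ℝ} (hS1 : ∀ x, |deriv sg x| ≤ S1) (q : ℝ) :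
    |deriv kap q| ≤ 16 * S1 := by
  have h1 : HasDerivAt (fun q : ℝ => sg (8 * q)) (deriv sg (8 * q) * 8) q := by
    have := (sg_diff (8 * q)).hasDerivAt
    exact this.comp q (by simpa using (hasDerivAt_id q).const_mul (8 : ℝ))
  have h2 : HasDerivAt (fun q : ℝ => 1 - sg (8 * q - 10)) (-(deriv sg (8 * q - 10) * 8)) q := by
    have := (sg_diff (8 * q - 10)).hasDerivAt
    have h3 : HasDerivAt (fun q : ℝ => sg (8 * q - 10)) (deriv sg (8 * q - 10) * 8) q :=
      this.comp q (by simpa using ((hasDerivAt_id q).const_mul (8 : ℝ)).sub_const 10)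
    simpa using h3.const_sub 1
  have h3 := (h1.mul h2).deriv
  have : kap = (fun q : ℝ => sg (8 * q)) * fun q : ℝ => 1 - sg (8 * q - 10) := by
    funext x; rfl
  rw [this, h3]
  have a1 := hS1 (8 * q)
  have a2 := hS1 (8 * q - 10)
  have b1 := sg_nonneg (8 * q)
  have b2 := sg_le_one (8 * q)
  have b3 := sg_nonneg (8 * q - 10)
  have b4 := sg_le_one (8 * q - 10)
  have c0 : 0 ≤ S1 := le_trans (abs_nonneg _) a1
  calc |deriv sg (8 * q) * 8 * (1 - sg (8 * q - 10)) + sg (8 * q) * -(deriv sg (8 * q - 10) * 8)|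
      ≤ |deriv sg (8 * q) * 8 * (1 - sg (8 * q - 10))|
        + |sg (8 * q) * -(deriv sg (8 * q - 10) * 8)| := abs_add_le _ _
    _ = |deriv sg (8 * q)| * 8 * (1 - sg (8 * q - 10))
        + sg (8 * q) * (|deriv sg (8 * q - 10)| * 8) := by
        rw [abs_mul, abs_mul, abs_mul, abs_neg, abs_mul, abs_of_nonneg b1,
          abs_of_nonneg (by linarith : (0:ℝ) ≤ 1 - sg (8 * q - 10))]
        norm_num
    _ ≤ S1 * 8 * 1 + 1 * (S1 * 8) := by
        gcongr
        · linarith
    _ = 16 * S1 := by ring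

/-- the key estimate `|c| ≤ D(y)` in the form used in both cases -/
theorem kink {r c y : ℝ} (hr0 : 0 < r) (hr1 : r < 1) (hcy : c ^ 2 + y ^ 2 = 1) :
    ∃ t : ℝ, |t| ≤ 1 ∧ c * V1 r y = y * t := by
  have hy1 : y ^ 2 ≤ 1 := by nlinarith [sq_nonneg c]
  have hr2 : r ^ 2 < 1 := by nlinarith
  have hry : r ^ 2 * y ^ 2 < 1 := by nlinarith [sq_nonneg y]
  have hpos : 0 < 1 - r ^ 2 * y ^ 2 := by linarith
  set D := Real.sqrt (1 - r ^ 2 * y ^ 2) with hD
  have hD0 : 0 < D := Real.sqrt_pos.mpr hpos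
  have hD2 : D ^ 2 = 1 - r ^ 2 * y ^ 2 := Real.sq_sqrt hpos.le
  have hcD : |c| ≤ D := by
    apply Real.abs_le_sqrt
    nlinarith [sq_nonneg y]
  refine ⟨-(c * r ^ 3 * y / (D * (1 + D))), ?_, ?_⟩
  · rw [abs_neg, abs_div, abs_of_pos (by positivity : 0 < D * (1 + D)), div_le_one (by positivity)]
    rw [abs_mul, abs_mul, abs_of_pos (by positivity : 0 < r ^ 3)]
    have hya : |y| ≤ 1 := by
      rw [← sq_abs] at hy1
      nlinarith [abs_nonneg y]
    have hr3 : r ^ 3 ≤ 1 := pow_le_one₀ hr0.le hr1.le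
    calc |c| * r ^ 3 * |y| ≤ D * 1 * 1 := by gcongr
      _ ≤ D * (1 + D) := by nlinarith
  · unfold V1
    rw [← hD]
    have h1 : (1 : ℝ) + D ≠ 0 := by positivity
    field_simp
    have : r ^ 2 * y ^ 2 = 1 - D ^ 2 := by linarith
    linear_combination c * this

theorem VV_zero (r : ℝ) : VV r 0 = 0 := by
  unfold VV; simp

theorem VV_neg (r y : ℝ) : VV r (-y) = -VV r y := by
  unfold VV
  rw [mul_neg, Real.arcsin_neg]; ring

theorem W2_neg (r y : ℝ) : W2 r (-y) = -W2 r y := by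
  unfold W2
  rw [neg_sq]; ring

theorem h_lower {r y : ℝ} (hr0 : 0 < r) (hr1 : r < 1) (hy0 : 0 ≤ y) (hy1 : y ≤ 1) :
    -5 ≤ 4 * W2 r y + VV r y := by
  have h1 : -1 ≤ W2 r y := by
    unfold W2
    have hq : 0 ≤ (1 - r ^ 2) / (Real.sqrt (1 - r ^ 2 * y ^ 2)) ^ 3 := by
      apply div_nonneg
      · nlinarith
      · positivity
    have hry : 0 ≤ r * y := by positivity
    have hry1 : r * y ≤ 1 := by nlinarith
    nlinarith
  have h2 : -1 ≤ VV r y := by
    unfold VV
    have hry : 0 ≤ r * y := by positivity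
    have h3 : Real.arcsin (r * y) ≤ r * y + 1 := by
      have hry1 : r * y ≤ 1 := by nlinarith
      have h4 : Real.arcsin (r * y) ≤ Real.pi / 2 * (r * y) := by
        have h6 := Real.mul_le_sin (Real.arcsin_nonneg.mpr hry) (Real.arcsin_le_pi_div_two _)
        rw [Real.sin_arcsin (by linarith) hry1] at h6
        have h7 : Real.pi / 2 * (2 / Real.pi * Real.arcsin (r * y)) ≤ Real.pi / 2 * (r * y) :=
          mul_le_mul_of_nonneg_left h6 (by positivity)
        have h8 : Real.pi / 2 * (2 / Real.pi * Real.arcsin (r * y)) = Real.arcsin (r * y) := by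
          have := Real.pi_pos.ne'
          field_simp
        linarith
      have h5 : Real.pi < 3.15 := Real.pi_lt_d2
      nlinarith
    linarith
  linarith

theorem B_odd (a0 am b0 b1 r0 r1 s c y : ℝ) :
    Bform a0 am b0 b1 r0 r1 s (-c) (-y) = -Bform a0 am b0 b1 r0 r1 s c y := by
  unfold Bform V1
  rw [neg_sq, neg_sq]; ring

theorem A_odd (eta a0 am b0 b1 r0 r1 s mx my c y : ℝ) :
    Aform eta a0 am b0 b1 r0 r1 s mx my (-c) (-y) = -Aform eta a0 am b0 b1 r0 r1 s mx my c y := by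
  unfold Aform
  rw [VV_neg, VV_neg, W2_neg, W2_neg]; ring

/-- the mixed derivative vanishes only in the direction of the angle profile -/
theorem stageI_dir {S1 : ℝ} (hS1 : ∀ x, |deriv sg x| ≤ S1) {k1 : ℝ} (hk1 : k1 = 1 / (64 * (S1 + 1)))
    {a0 am b0 b1 r0 r1 s c y : ℝ} (ha0 : 0 < a0) (hr0 : 0 < r0) (hr0' : r0 < 1)
    (hr1 : 0 < r1) (hr1' : r1 < 1) (hb0 : 0 ≤ b0) (hb0' : b0 ≤ k1 * a0)
    (hb1 : 0 ≤ b1) (hb1' : b1 ≤ k1 * a0) (hs0 : 0 ≤ s) (hs1 : s ≤ 1 / 2)
    (hcy : c ^ 2 + y ^ 2 = 1) (hB : Bform a0 am b0 b1 r0 r1 s c y = 0) :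
    y * Real.cos (om s) = c * Real.sin (om s) ∧
      b0 * deriv (deriv kap) s * VV r0 y + b1 * deriv (deriv kap) (s + 1) * VV r1 c = 0 := by
  have c0 : 0 ≤ S1 := le_trans (abs_nonneg _) (hS1 0)
  have hk : k1 * (16 * S1) ≤ 1 / 4 := by
    rw [hk1, div_mul_eq_mul_div, div_le_div_iff₀ (by positivity) (by norm_num)]
    nlinarith
  have hphi := phi_mid hs0 hs1
  have small : ∀ {b : ℝ} (q t : ℝ), 0 ≤ b → b ≤ k1 * a0 → |t| ≤ 1 →
      |b * deriv kap q * t| ≤ a0 / 4 := by
    intro b q t hb hb' ht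
    rw [abs_mul, abs_mul, abs_of_nonneg hb]
    have h1 := deriv_kap_bound hS1 q
    have h2 : b * |deriv kap q| ≤ (k1 * a0) * (16 * S1) := by
      apply mul_le_mul hb' h1 (abs_nonneg _) (le_trans hb hb')
    have h3 : b * |deriv kap q| * |t| ≤ b * |deriv kap q| * 1 := by
      apply mul_le_mul_of_nonneg_left ht
      positivity
    nlinarith
  unfold Bform at hB
  rw [dY_left (by linarith : s - 1 ≤ -(1 / 2)), dX_left (by linarith : s - 1 ≤ -(1 / 2))] at hB
  unfold dX dY at hB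
  rw [hphi] at hB
  rcases le_or_gt s (1 / 8) with h | h
  · -- the first part: the angle is zero
    have hkap : deriv kap (s + 1) = 0 := deriv_kap_flat (by linarith) (by linarith)
    have hkap2 : deriv (deriv kap) (s + 1) = 0 := deriv2_kap_flat (by linarith) (by linarith)
    obtain ⟨t, ht, hct⟩ := kink hr0 hr0' hcy
    rw [om_zero h, hkap, hct, Real.cos_zero, Real.sin_zero] at hB
    have h1 : y * (-(a0 * (1 - s)) + b0 * deriv kap s * t) = 0 := by linear_combination hB
    have h2 := small s t hb0 hb0' ht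
    have h3 : -(a0 * (1 - s)) + b0 * deriv kap s * t ≠ 0 := by
      have := (abs_le.mp h2).2
      have h4 : a0 / 2 ≤ a0 * (1 - s) := by nlinarith
      intro h5
      linarith
    have hy : y = 0 := by
      rcases mul_eq_zero.mp h1 with h5 | h5
      · exact h5
      · exact absurd h5 h3
    rw [hy, om_zero h, hkap2, VV_zero]
    simp
  · have hk0 : deriv kap s = 0 := deriv_kap_flat (by linarith) (by linarith)
    have hk02 : deriv (deriv kap) s = 0 := deriv2_kap_flat (by linarith) (by linarith)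
    rcases lt_or_ge s (1 / 4) with h' | h'
    · have hk1' : deriv kap (s + 1) = 0 := deriv_kap_flat (by linarith) (by linarith)
      have hk12 : deriv (deriv kap) (s + 1) = 0 := deriv2_kap_flat (by linarith) (by linarith)
      rw [hk0, hk1'] at hB
      have h1 : (a0 * (1 - s)) * (c * Real.sin (om s) - y * Real.cos (om s)) = 0 := by
        linear_combination hB
      have h2 : a0 * (1 - s) ≠ 0 := by
        have : 0 < 1 - s := by linarith
        positivity
      have h3 : c * Real.sin (om s) - y * Real.cos (om s) = 0 := by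
        rcases mul_eq_zero.mp h1 with h5 | h5
        · exact absurd h5 h2
        · exact h5
      refine ⟨by linarith, ?_⟩
      rw [hk02, hk12]; ring
    · have hyc : y ^ 2 + c ^ 2 = 1 := by linarith
      obtain ⟨t, ht, hct⟩ := kink hr1 hr1' hyc
      rw [om_top h', hk0, hct, Real.cos_pi_div_two, Real.sin_pi_div_two] at hB
      have h1 : c * (a0 * (1 - s) - b1 * deriv kap (s + 1) * t) = 0 := by linear_combination hB
      have h2 := small (s + 1) t hb1 hb1' ht
      have h3 : a0 * (1 - s) - b1 * deriv kap (s + 1) * t ≠ 0 := by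
        have := (abs_le.mp h2).2
        have h4 : a0 / 2 ≤ a0 * (1 - s) := by nlinarith
        intro h5
        linarith
      have hc : c = 0 := by
        rcases mul_eq_zero.mp h1 with h5 | h5
        · exact h5
        · exact absurd h5 h3
      rw [hc, om_top h', hk02, VV_zero, Real.cos_pi_div_two]
      simp

/-- negativity on the positive branch -/
theorem stageI_neg {S1 : ℝ} (hS1 : ∀ x, |deriv sg x| ≤ S1) {k1 : ℝ} (hk1 : k1 = 1 / (64 * (S1 + 1)))
    {eta : ℝ} (he0 : 0 < eta) (he : 64 * eta ≤ 1)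
    {a0 am b0 b1 r0 r1 s mx my : ℝ} (ha0 : 0 < a0) (hr0 : 0 < r0) (hr0' : r0 < 1)
    (hr1 : 0 < r1) (hr1' : r1 < 1) (hb0 : 0 ≤ b0) (hb0' : b0 ≤ k1 * a0)
    (hb1 : 0 ≤ b1) (hb1' : b1 ≤ k1 * a0) (hs0 : 0 ≤ s) (hs1 : s ≤ 1 / 2)
    (hmx : 0 ≤ mx) (hmy : 0 ≤ my) (hm : mx + my ≤ 9 * a0)
    (hz : b0 * deriv (deriv kap) s * VV r0 (Real.sin (om s))
      + b1 * deriv (deriv kap) (s + 1) * VV r1 (Real.cos (om s)) = 0) :
    Aform eta a0 am b0 b1 r0 r1 s mx my (Real.cos (om s)) (Real.sin (om s)) < 0 := by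
  have c0 : 0 ≤ S1 := le_trans (abs_nonneg _) (hS1 0)
  have hk : k1 ≤ 1 / 64 := by
    rw [hk1, div_le_div_iff₀ (by positivity) (by norm_num)]
    nlinarith
  have hC0 : 0 ≤ Real.cos (om s) :=
    Real.cos_nonneg_of_mem_Icc ⟨by linarith [om_nonneg s, Real.pi_pos], om_le s⟩
  have hS0 : 0 ≤ Real.sin (om s) :=
    Real.sin_nonneg_of_mem_Icc ⟨om_nonneg s, by linarith [om_le s, Real.pi_pos]⟩
  have hC1 : Real.cos (om s) ≤ 1 := Real.cos_le_one _
  have hS1' : Real.sin (om s) ≤ 1 := Real.sin_le_one _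
  have hsq := Real.sin_sq_add_cos_sq (om s)
  have g0 := h_lower hr0 hr0' hS0 hS1'
  have g1 := h_lower hr1 hr1' hC0 hC1
  unfold Aform
  rw [deriv_dX_left (by linarith : s - 1 ≤ -(1 / 2)), deriv_dY_left (by linarith : s - 1 ≤ -(1 / 2)),
    deriv_dX s, deriv_dY s, deriv_phi_mid hs0 hs1]
  set C := Real.cos (om s) with hCd
  set S := Real.sin (om s) with hSd
  have e1 : (a0 * (-1 * C - phi s * S * deriv om s) + am * 0) * C
      + (a0 * (-1 * S + phi s * C * deriv om s) + am * 0) * S = -a0 := by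
    linear_combination (-a0) * hsq
  have e2 : mx * C + my * S ≤ 9 * a0 := by nlinarith
  have u0 : -(5 * (k1 * a0)) ≤ b0 * kap s * (4 * W2 r0 S + VV r0 S) := by
    have h1 : 0 ≤ b0 * kap s := mul_nonneg hb0 (kap_nonneg s)
    have h2 : b0 * kap s ≤ k1 * a0 := by
      calc b0 * kap s ≤ b0 * 1 := mul_le_mul_of_nonneg_left (kap_le_one s) hb0
        _ ≤ k1 * a0 := by linarith
    nlinarith
  have u1 : -(5 * (k1 * a0)) ≤ b1 * kap (s + 1) * (4 * W2 r1 C + VV r1 C) := by
    have h1 : 0 ≤ b1 * kap (s + 1) := mul_nonneg hb1 (kap_nonneg _)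
    have h2 : b1 * kap (s + 1) ≤ k1 * a0 := by
      calc b1 * kap (s + 1) ≤ b1 * 1 := mul_le_mul_of_nonneg_left (kap_le_one _) hb1
        _ ≤ k1 * a0 := by linarith
    nlinarith
  have hka : k1 * a0 ≤ a0 / 64 := by nlinarith
  have key : eta * (-3 * (mx * C + my * S) + b0 * kap s * (4 * W2 r0 S + VV r0 S)
      + b1 * kap (s + 1) * (4 * W2 r1 C + VV r1 C)) ≥ -(a0 / 2) := by
    have h1 : -3 * (mx * C + my * S) + b0 * kap s * (4 * W2 r0 S + VV r0 S)
      + b1 * kap (s + 1) * (4 * W2 r1 C + VV r1 C) ≥ -(32 * a0) := by linarith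
    have h2 : eta * (-3 * (mx * C + my * S) + b0 * kap s * (4 * W2 r0 S + VV r0 S)
      + b1 * kap (s + 1) * (4 * W2 r1 C + VV r1 C)) ≥ eta * (-(32 * a0)) :=
      mul_le_mul_of_nonneg_left h1 he0.le
    nlinarith
  linarith

end SI

open SI in
/-- D3-I: no common zero in the first half of a stage. -/
theorem stageI (S1 : ℝ) (hS1 : ∀ x, |deriv sg x| ≤ S1) (k1 : ℝ) (hk1 : k1 = 1 / (64 * (S1 + 1)))
    (eta : ℝ) (he0 : 0 < eta) (he : 64 * eta ≤ 1)
    (a0 am b0 b1 r0 r1 s mx my c y : ℝ) (ha0 : 0 < a0) (hr0 : 0 < r0) (hr0' : r0 < 1)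
    (hr1 : 0 < r1) (hr1' : r1 < 1) (hb0 : 0 ≤ b0) (hb0' : b0 ≤ k1 * a0)
    (hb1 : 0 ≤ b1) (hb1' : b1 ≤ k1 * a0) (hs0 : 0 ≤ s) (hs1 : s ≤ 1 / 2)
    (hmx : 0 ≤ mx) (hmy : 0 ≤ my) (hm : mx + my ≤ 9 * a0) (hcy : c ^ 2 + y ^ 2 = 1) :
    ¬ (Bform a0 am b0 b1 r0 r1 s c y = 0 ∧ Aform eta a0 am b0 b1 r0 r1 s mx my c y = 0) := by
  rintro ⟨hB, hA⟩
  obtain ⟨hdir, hz⟩ := stageI_dir hS1 hk1 ha0 hr0 hr0' hr1 hr1' hb0 hb0' hb1 hb1' hs0 hs1 hcy hB
  have hsq := Real.sin_sq_add_cos_sq (om s)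
  set e := c * Real.cos (om s) + y * Real.sin (om s) with hedef
  have he2 : e ^ 2 = 1 := by
    rw [hedef]
    linear_combination (c ^ 2 + y ^ 2) * hsq + hcy
      - (y * Real.cos (om s) - c * Real.sin (om s)) * hdir
  have hc : c = e * Real.cos (om s) := by
    rw [hedef]
    linear_combination (-c) * hsq - Real.sin (om s) * hdir
  have hy : y = e * Real.sin (om s) := by
    rw [hedef]
    linear_combination (-y) * hsq + Real.cos (om s) * hdir
  have hcase : e = 1 ∨ e = -1 := by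
    have : (e - 1) * (e + 1) = 0 := by linear_combination he2
    rcases mul_eq_zero.mp this with h | h
    · left; linarith
    · right; linarith
  have fin : b0 * deriv (deriv kap) s * VV r0 (Real.sin (om s))
      + b1 * deriv (deriv kap) (s + 1) * VV r1 (Real.cos (om s)) = 0 := by
    rcases hcase with h | h
    · rw [h, one_mul] at hc hy
      rw [hc, hy] at hz
      exact hz
    · rw [h, neg_one_mul] at hc hy
      rw [hc, hy, VV_neg, VV_neg] at hz
      linarith
  have hneg := stageI_neg (am := am) hS1 hk1 he0 he ha0 hr0 hr0' hr1 hr1' hb0 hb0' hb1 hb1' hs0 hs1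
    hmx hmy hm fin
  rcases hcase with h | h
  · rw [h, one_mul] at hc hy
    rw [hc, hy] at hA
    linarith
  · rw [h, neg_one_mul] at hc hy
    rw [hc, hy, A_odd] at hA
    linarith

end Pool.Agent.Caratheodory
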