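import Pool.Agent.Caratheodory.StageDefs
import Pool.Agent.Caratheodory.Bounded

set_option autoImplicit false
open scoped ContDiff

namespace Pool.Agent.Caratheodory

namespace StageTwo

theorem sg_one {x : ℝ} (h : 1 ≤ x) : sg x = 1 := Real.smoothTransition.one_of_one_le h

theorem sg_zero {x : ℝ} (h : x ≤ 0) : sg x = 0 := Real.smoothTransition.zero_of_nonpos h

theorem sg_pos {x : ℝ} (h : 0 < x) : 0 < sg x := Real.smoothTransition.pos_of_pos h

theorem om_half {s : ℝ} (h : 1 / 4 ≤ s) : om s = Real.pi / 2 := by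
  unfold om
  rw [sg_one (by linarith)]
  ring

theorem om_zero {s : ℝ} (h : s ≤ 1 / 8) : om s = 0 := by
  unfold om
  rw [sg_zero (by linarith)]
  ring

theorem dX_zero {s : ℝ} (h : 1 / 4 ≤ s) : dX s = 0 := by
  unfold dX
  rw [om_half h, Real.cos_pi_div_two, mul_zero]

theorem dY_phi {s : ℝ} (h : 1 / 4 ≤ s) : dY s = phi s := by
  unfold dY
  rw [om_half h, Real.sin_pi_div_two, mul_one]

theorem dY_zero {s : ℝ} (h : s ≤ 1 / 8) : dY s = 0 := by
  unfold dY
  rw [om_zero h, Real.sin_zero, mul_zero]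

theorem dX_phi {s : ℝ} (h : s ≤ 1 / 8) : dX s = phi s := by
  unfold dX
  rw [om_zero h, Real.cos_zero, mul_one]

theorem deriv_dY {s : ℝ} (h : 1 / 4 < s) : deriv dY s = deriv phi s := by
  apply Filter.EventuallyEq.deriv_eq
  filter_upwards [lt_mem_nhds h] with t ht
  exact dY_phi ht.le

theorem deriv_dX {s : ℝ} (h : s < 1 / 8) : deriv dX s = deriv phi s := by
  apply Filter.EventuallyEq.deriv_eq
  filter_upwards [gt_mem_nhds h] with t ht
  exact dX_phi ht.le

theorem kap_one {s : ℝ} (h : 1 / 8 ≤ s) (h' : s ≤ 5 / 4) : kap s = 1 := by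
  unfold kap
  rw [sg_one (by linarith), sg_zero (by linarith)]
  ring

theorem deriv_kap_mid {s : ℝ} (h : 1 / 8 < s) (h' : s < 5 / 4) : deriv kap s = 0 := by
  have : deriv kap s = deriv (fun _ : ℝ => (1 : ℝ)) s := by
    apply Filter.EventuallyEq.deriv_eq
    filter_upwards [lt_mem_nhds h, gt_mem_nhds h'] with t ht ht'
    exact kap_one ht.le ht'.le
  rw [this, deriv_const]

theorem deriv_kap_right {s : ℝ} (h : 11 / 8 < s) : deriv kap s = 0 := by
  have : deriv kap s = deriv (fun _ : ℝ => (0 : ℝ)) s := by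
    apply Filter.EventuallyEq.deriv_eq
    filter_upwards [lt_mem_nhds h] with t ht
    exact kap_right ht.le
  rw [this, deriv_const]

theorem dderiv_kap_mid {s : ℝ} (h : 1 / 8 < s) (h' : s < 5 / 4) : deriv (deriv kap) s = 0 := by
  have : deriv (deriv kap) s = deriv (fun _ : ℝ => (0 : ℝ)) s := by
    apply Filter.EventuallyEq.deriv_eq
    filter_upwards [lt_mem_nhds h, gt_mem_nhds h'] with t ht ht'
    exact deriv_kap_mid ht ht'
  rw [this, deriv_const]

theorem dderiv_kap_right {s : ℝ} (h : 11 / 8 < s) : deriv (deriv kap) s = 0 := by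
  have : deriv (deriv kap) s = deriv (fun _ : ℝ => (0 : ℝ)) s := by
    apply Filter.EventuallyEq.deriv_eq
    filter_upwards [lt_mem_nhds h] with t ht
    exact deriv_kap_right ht
  rw [this, deriv_const]

theorem bracket_pos {a0 am s : ℝ} (ha0 : 0 < a0) (ham : 0 < am) (hs : 1 / 2 ≤ s) (hs1 : s ≤ 1) :
    0 < a0 * phi s + am * phi (s - 1) := by
  have h1 := phi_nonneg s
  have h2 := phi_nonneg (s - 1)
  rcases eq_or_lt_of_le hs1 with h | h
  · have : 0 < phi (s - 1) := by
      rw [h]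
      unfold phi
      have := sg_pos (x := 2 * (1 - 1 : ℝ) + 1) (by norm_num)
      have := sg_pos (x := 2 - 2 * (1 - 1 : ℝ)) (by norm_num)
      positivity
    have := mul_pos ham this
    have := mul_nonneg ha0.le h1
    linarith
  · have : 0 < phi s := by
      unfold phi
      have h3 := sg_pos (x := 2 * s + 1) (by linarith)
      have h4 := sg_pos (x := 2 - 2 * s) (by linarith)
      have h5 : 0 < 1 - s := by linarith
      positivity
    have := mul_pos ha0 this
    have := mul_nonneg ham.le h2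
    linarith

theorem phi_deriv_bound : ∃ M : ℝ, 0 ≤ M ∧ ∀ s : ℝ, -1 ≤ s → s ≤ 1 → |deriv phi s| ≤ M := by
  have hc : Continuous (deriv phi) := phi_smooth.continuous_deriv (by norm_num)
  obtain ⟨M, hM⟩ := (isCompact_Icc (a := (-1 : ℝ)) (b := 1)).exists_bound_of_continuousOn hc.continuousOn
  refine ⟨max M 0, le_max_right _ _, fun s h1 h2 => ?_⟩
  have := hM s ⟨h1, h2⟩
  rw [Real.norm_eq_abs] at this
  exact this.trans (le_max_left _ _)

/-- value of the kink combination at `y = 1` -/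
theorem kink_value {r : ℝ} (h0 : 0 < r) (h1 : r < 1) :
    GG r - 5 ≤ 4 * W2 r 1 + VV r 1 := by
  have hr : 0 < 1 - r ^ 2 := by nlinarith
  have hs := Real.sqrt_pos.mpr hr
  have hsq : Real.sqrt (1 - r ^ 2) ^ 2 = 1 - r ^ 2 := Real.sq_sqrt hr.le
  have h3 : (1 - r ^ 2) / Real.sqrt (1 - r ^ 2) ^ 3 = 1 / Real.sqrt (1 - r ^ 2) := by
    have : Real.sqrt (1 - r ^ 2) ^ 3 = Real.sqrt (1 - r ^ 2) ^ 2 * Real.sqrt (1 - r ^ 2) := by ring
    rw [this, hsq]
    field_simp
  have ha : Real.arcsin (r * 1) ≤ Real.pi / 2 := Real.arcsin_le_pi_div_two _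
  have hpi : Real.pi < 3.15 := Real.pi_lt_d2
  unfold W2 VV GG
  rw [show (1 : ℝ) - r ^ 2 * 1 ^ 2 = 1 - r ^ 2 by ring, h3]
  have : 4 * (r * 1 * (1 / Real.sqrt (1 - r ^ 2) - 1)) = 4 * r / Real.sqrt (1 - r ^ 2) - 4 * r := by
    field_simp
  rw [this]
  linarith

theorem W2_neg (r y : ℝ) : W2 r (-y) = - W2 r y := by
  unfold W2
  rw [show (-y) ^ 2 = y ^ 2 by ring]
  ring

theorem VV_neg (r y : ℝ) : VV r (-y) = - VV r y := by
  unfold VV
  rw [show r * -y = -(r * y) by ring, Real.arcsin_neg]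
  ring

end StageTwo

open StageTwo in
/-- D3-II (StageII.lean) -/
theorem stageII : ∃ M1 : ℝ, 0 < M1 ∧ ∀ (k1 eta : ℝ), 0 < k1 → k1 ≤ 1 / 64 →
    0 < eta → 64 * eta ≤ 1 → ∀ (a0 am b1 r0 r1 s mx my c y : ℝ), 0 < a0 → 2 * a0 ≤ am →
    0 < r0 → r0 < 1 → 0 < r1 → r1 < 1 → 0 ≤ b1 → b1 ≤ k1 * a0 → 1 / 2 ≤ s → s ≤ 1 →
    0 ≤ mx → 0 ≤ my → mx + my ≤ 9 * am → c ^ 2 + y ^ 2 = 1 →
    M1 / (eta * k1) * am ≤ a0 * GG r0 →
    ¬ (Bform a0 am (k1 * a0) b1 r0 r1 s c y = 0 ∧
      Aform eta a0 am (k1 * a0) b1 r0 r1 s mx my c y = 0) := by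
  obtain ⟨M, hM0, hM⟩ := phi_deriv_bound
  refine ⟨2 * M + 2, by linarith, ?_⟩
  intro k1 eta hk hk' he he' a0 am b1 r0 r1 s mx my c y ha0 ham hr0 hr0' hr1 hr1' hb1 hb1' hs hs1
    hmx hmy hm hcy hG ⟨hB, hA⟩
  have ham0 : 0 < am := by linarith
  -- first `c = 0`
  have hc : c = 0 := by
    unfold Bform at hB
    rw [dX_zero (by linarith), dY_zero (by linarith : s - 1 ≤ 1 / 8), dY_phi (by linarith : 1 / 4 ≤ s),
      dX_phi (by linarith : s - 1 ≤ 1 / 8), deriv_kap_mid (by linarith) (by linarith),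
      deriv_kap_right (by linarith)] at hB
    have h1 : (a0 * phi s + am * phi (s - 1)) * c = 0 := by linarith
    rcases mul_eq_zero.mp h1 with h | h
    · exact absurd h (bracket_pos ha0 ham0 hs hs1).ne'
    · exact h
  subst hc
  have hy : y = 1 ∨ y = -1 := by
    have : (y - 1) * (y + 1) = 0 := by nlinarith
    rcases mul_eq_zero.mp this with h | h
    · left; linarith
    · right; linarith
  -- the value at `y = 1`
  have key : a0 * deriv phi s + am * deriv phi (s - 1)
      - eta * (-3 * my + k1 * a0 * (4 * W2 r0 1 + VV r0 1)) < 0 := by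
    have h1 := le_abs_self (deriv phi s)
    have h1' := hM s (by linarith) hs1
    have h2 := le_abs_self (deriv phi (s - 1))
    have h2' := hM (s - 1) (by linarith) (by linarith)
    have h3 : (2 * M + 2) * am ≤ eta * k1 * (a0 * GG r0) := by
      have h4 : (2 * M + 2) / (eta * k1) * am * (eta * k1) = (2 * M + 2) * am := by
        field_simp
      calc (2 * M + 2) * am = (2 * M + 2) / (eta * k1) * am * (eta * k1) := h4.symm
        _ ≤ (a0 * GG r0) * (eta * k1) := mul_le_mul_of_nonneg_right hG (by positivity)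
        _ = _ := by ring
    have h5 := kink_value hr0 hr0'
    have h6 : eta * (k1 * a0) * (GG r0 - 5) ≤ eta * (k1 * a0) * (4 * W2 r0 1 + VV r0 1) :=
      mul_le_mul_of_nonneg_left h5 (by positivity)
    have h7 : eta * (k1 * a0) ≤ 1 / 64 * (1 / 64 * a0) := by
      apply mul_le_mul _ _ (by positivity) (by norm_num)
      · linarith
      · exact mul_le_mul_of_nonneg_right hk' ha0.le
    have h8 : a0 * deriv phi s ≤ a0 * M := mul_le_mul_of_nonneg_left (h1.trans h1') ha0.le
    have h9 : am * deriv phi (s - 1) ≤ am * M := mul_le_mul_of_nonneg_left (h2.trans h2') ham0.le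
    have h10 : eta * my ≤ 1 / 64 * (9 * am) := by
      apply mul_le_mul _ _ hmy (by norm_num)
      · linarith
      · linarith
    have h11 : a0 * M ≤ am / 2 * M := mul_le_mul_of_nonneg_right (by linarith) hM0
    nlinarith
  unfold Aform at hA
  rw [deriv_dY (by linarith : 1 / 4 < s), deriv_dX (by linarith : s - 1 < 1 / 8),
    dderiv_kap_mid (by linarith) (by linarith), dderiv_kap_right (by linarith),
    kap_one (by linarith) (by linarith), kap_right (by linarith : 11 / 8 ≤ s + 1)] at hA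
  rcases hy with h | h
  · subst h
    apply key.ne
    linarith
  · subst h
    rw [W2_neg, VV_neg] at hA
    apply key.ne
    linarith

end Pool.Agent.Caratheodory
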