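import Pool.Agent.Caratheodory.StageDefs
import Pool.Agent.Caratheodory.Bounded
import Pool.Agent.Caratheodory.Sep

set_option autoImplicit false
open scoped ContDiff

/-! # The wrinkles near a point (module D3-W, helper34) -/

namespace Pool.Agent.Caratheodory

open Filter Topology Set Finset

namespace Wrk

theorem zero_of_left {f : ℝ → ℝ} (hf : Continuous f) (h : ∀ x, x < 0 → f x = 0) {x : ℝ}
    (hx : x ≤ 0) : f x = 0 := by
  rcases hx.lt_or_eq with h1 | h1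
  · exact h x h1
  · have h2 : Tendsto f (𝓝[<] 0) (𝓝 (f 0)) := (hf.tendsto 0).mono_left nhdsWithin_le_nhds
    have h3 : Tendsto f (𝓝[<] 0) (𝓝 0) := by
      refine tendsto_const_nhds.congr' ?_
      filter_upwards [self_mem_nhdsWithin] with y hy
      exact (h y hy).symm
    rw [h1]
    exact tendsto_nhds_unique h2 h3

theorem dkap_left {x : ℝ} (hx : x ≤ 0) : deriv kap x = 0 := by
  refine zero_of_left (contDiff_infty_iff_deriv.1 kap_smooth).2.continuous (fun y hy => ?_) hx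
  have h1 : kap =ᶠ[𝓝 y] fun _ => 0 := by
    filter_upwards [Iio_mem_nhds hy] with z hz
    exact kap_left (le_of_lt hz)
  rw [h1.deriv_eq]
  simp

theorem ddkap_left {x : ℝ} (hx : x ≤ 0) : deriv (deriv kap) x = 0 := by
  refine zero_of_left (contDiff_infty_iff_deriv.1
    (contDiff_infty_iff_deriv.1 kap_smooth).2).2.continuous (fun y hy => ?_) hx
  have h1 : deriv kap =ᶠ[𝓝 y] fun _ => 0 := by
    filter_upwards [Iio_mem_nhds hy] with z hz
    exact dkap_left (le_of_lt hz)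
  rw [h1.deriv_eq]
  simp

theorem arg_sq {r y : ℝ} (h0 : 0 < r) (h1 : r < 1) (hy : |y| ≤ 1) :
    0 < 1 - r ^ 2 * y ^ 2 := by
  have h2 : y ^ 2 ≤ 1 := by
    rw [← sq_abs]
    exact pow_le_one₀ (abs_nonneg _) hy
  have h3 : r ^ 2 < 1 := by nlinarith
  nlinarith [sq_nonneg r, sq_nonneg y]

theorem VV_hasDerivAt {r : ℝ} (h0 : 0 < r) (h1 : r < 1) {y : ℝ} (hy : |y| ≤ 1) :
    HasDerivAt (VV r) (V1 r y) y := by
  have h2 : |r * y| < 1 := by
    rw [abs_mul, abs_of_pos h0]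
    calc r * |y| ≤ r * 1 := mul_le_mul_of_nonneg_left hy h0.le
      _ < 1 := by linarith
  rw [abs_lt] at h2
  have h3 : HasDerivAt (fun y => r * y) r y := by simpa using (hasDerivAt_id y).const_mul r
  have h4 := (Real.hasDerivAt_arcsin h2.1.ne' h2.2.ne).comp y h3
  have h5 := h3.sub h4
  refine HasDerivAt.congr_deriv (f := VV r) h5 ?_
  rw [V1, mul_pow]
  ring

theorem V1_hasDerivAt {r : ℝ} (h0 : 0 < r) (h1 : r < 1) {y : ℝ} (hy : |y| ≤ 1) :
    HasDerivAt (V1 r) (-(r ^ 3 * y / Real.sqrt (1 - r ^ 2 * y ^ 2) ^ 3)) y := by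
  have hp := arg_sq h0 h1 hy
  have h2 : HasDerivAt (fun y : ℝ => 1 - r ^ 2 * y ^ 2) (-(r ^ 2 * (2 * y))) y := by
    have := ((hasDerivAt_id y).pow 2).const_mul (r ^ 2) |>.const_sub 1
    refine this.congr_deriv ?_
    simp
  have h3 := (h2.sqrt hp.ne')
  have hs : 0 < Real.sqrt (1 - r ^ 2 * y ^ 2) := Real.sqrt_pos.2 hp
  have h4 := ((h3.inv hs.ne').const_mul r).const_sub r
  have h5 : V1 r = fun y => r - r * (Real.sqrt (1 - r ^ 2 * y ^ 2))⁻¹ := by
    ext y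
    rw [V1, div_eq_mul_inv]
  rw [h5]
  refine h4.congr_deriv ?_
  field_simp

theorem dVsin {r : ℝ} (h0 : 0 < r) (h1 : r < 1) (x : ℝ) :
    HasDerivAt (fun x => VV r (Real.sin x)) (Real.cos x * V1 r (Real.sin x)) x := by
  have := (VV_hasDerivAt h0 h1 (Real.abs_sin_le_one x)).comp x (Real.hasDerivAt_sin x)
  refine this.congr_deriv ?_
  ring

theorem dVcos {r : ℝ} (h0 : 0 < r) (h1 : r < 1) (x : ℝ) :
    HasDerivAt (fun x => VV r (Real.cos x)) (-(Real.sin x * V1 r (Real.cos x))) x := by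
  have := (VV_hasDerivAt h0 h1 (Real.abs_cos_le_one x)).comp x (Real.hasDerivAt_cos x)
  refine this.congr_deriv ?_
  ring

theorem W2_eq {r y c : ℝ} (h0 : 0 < r) (h1 : r < 1) (hcy : c ^ 2 + y ^ 2 = 1) :
    W2 r y = -(y * V1 r y) - c ^ 2 * (r ^ 3 * y / Real.sqrt (1 - r ^ 2 * y ^ 2) ^ 3) := by
  have hy : |y| ≤ 1 := by
    rw [← sq_le_one_iff_abs_le_one]
    nlinarith [sq_nonneg c]
  have hp := arg_sq h0 h1 hy
  have hs : 0 < Real.sqrt (1 - r ^ 2 * y ^ 2) := Real.sqrt_pos.2 hp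
  have hs2 : Real.sqrt (1 - r ^ 2 * y ^ 2) ^ 2 = 1 - r ^ 2 * y ^ 2 := Real.sq_sqrt hp.le
  rw [W2, V1]
  set D := Real.sqrt (1 - r ^ 2 * y ^ 2) with hD
  have hc : c ^ 2 = 1 - y ^ 2 := by linarith
  rw [hc]
  field_simp
  linear_combination (-y) * hs2

theorem ddVsin {r : ℝ} (h0 : 0 < r) (h1 : r < 1) (x : ℝ) :
    deriv (deriv (fun x => VV r (Real.sin x))) x = W2 r (Real.sin x) := by
  have h2 : deriv (fun x => VV r (Real.sin x)) = fun x => Real.cos x * V1 r (Real.sin x) := by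
    ext x
    exact (dVsin h0 h1 x).deriv
  have h3 := (V1_hasDerivAt h0 h1 (Real.abs_sin_le_one x)).comp x (Real.hasDerivAt_sin x)
  have h4 := (Real.hasDerivAt_cos x).mul h3
  rw [h2, (show HasDerivAt (fun x => Real.cos x * V1 r (Real.sin x)) _ x from h4).deriv,
    W2_eq h0 h1 (Real.cos_sq_add_sin_sq x)]
  simp only [Function.comp_apply]
  ring

theorem ddVcos {r : ℝ} (h0 : 0 < r) (h1 : r < 1) (x : ℝ) :
    deriv (deriv (fun x => VV r (Real.cos x))) x = W2 r (Real.cos x) := by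
  have h2 : deriv (fun x => VV r (Real.cos x)) = fun x => -(Real.sin x * V1 r (Real.cos x)) := by
    ext x
    exact (dVcos h0 h1 x).deriv
  have h3 := (V1_hasDerivAt h0 h1 (Real.abs_cos_le_one x)).comp x (Real.hasDerivAt_cos x)
  have h4 := ((Real.hasDerivAt_sin x).mul h3).neg
  rw [h2, (show HasDerivAt (fun x => -(Real.sin x * V1 r (Real.cos x))) _ x from h4).deriv,
    W2_eq (c := Real.sin x) h0 h1 (by rw [add_comm]; exact Real.cos_sq_add_sin_sq x)]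
  simp only [Function.comp_apply]
  ring


theorem fderiv2_sum (t : Finset ℕ) (f : ℕ → ℂ → ℝ) (hf : ∀ j, ContDiff ℝ ∞ (f j)) (ξ v w : ℂ) :
    fderiv ℝ (fderiv ℝ (fun ξ => ∑ j ∈ t, f j ξ)) ξ v w
      = ∑ j ∈ t, fderiv ℝ (fderiv ℝ (f j)) ξ v w := by
  have h1 : fderiv ℝ (fun ξ => ∑ j ∈ t, f j ξ) = fun ξ => ∑ j ∈ t, fderiv ℝ (f j) ξ := by
    ext1 ξ
    exact fderiv_fun_sum fun j _ => (hf j).differentiable (by simp) ξ
  have h2 : fderiv ℝ (fun ξ => ∑ j ∈ t, fderiv ℝ (f j) ξ) ξ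
      = ∑ j ∈ t, fderiv ℝ (fderiv ℝ (f j)) ξ :=
    fderiv_fun_sum fun j _ => (((contDiff_infty_iff_fderiv.1 (hf j)).2).differentiable
      (by simp) ξ)
  rw [h1, h2]
  simp

/-- coefficient of the wrinkle of stage `j` -/
noncomputable def wb (k1 : ℝ) (a : ℕ → ℝ) (j : ℕ) : ℝ := if j = 0 then 0 else k1 * a j

/-- angular factor of the wrinkle of stage `j` -/
noncomputable def wB (r : ℕ → ℝ) (j : ℕ) (x : ℝ) : ℝ :=
  VV (r j) (if Even j then Real.sin x else Real.cos x)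

theorem wB_even {r : ℕ → ℝ} {j : ℕ} (h : Even j) : wB r j = fun x => VV (r j) (Real.sin x) := by
  ext x
  rw [wB, if_pos h]

theorem wB_odd {r : ℕ → ℝ} {j : ℕ} (h : ¬ Even j) : wB r j = fun x => VV (r j) (Real.cos x) := by
  ext x
  rw [wB, if_neg h]

theorem wB_smooth {r : ℕ → ℝ} (hr : ∀ j, 0 < r j ∧ r j < 1) (j : ℕ) : ContDiff ℝ ∞ (wB r j) := by
  by_cases h : Even j
  · rw [wB_even h]
    exact VV_smooth (hr j).1 (hr j).2 Real.contDiff_sin Real.abs_sin_le_one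
  · rw [wB_odd h]
    exact VV_smooth (hr j).1 (hr j).2 Real.contDiff_cos Real.abs_cos_le_one

/-- the term of the series defining `Wr` -/
noncomputable def wT (k1 : ℝ) (a r : ℕ → ℝ) (j : ℕ) (ξ : ℂ) : ℝ :=
  kap (ξ.re + j) * (wb k1 a j * wB r j ξ.im)

theorem Wr_eq_tsum (k1 : ℝ) (a r : ℕ → ℝ) (ξ : ℂ) : Wr k1 a r ξ = ∑' j, wT k1 a r j ξ := by
  rw [Wr]
  refine tsum_congr fun j => ?_
  rw [wT, wb, wB]
  by_cases h0 : j = 0
  · simp [h0]
  · by_cases h : Even j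
    · simp only [h0, h, if_true, if_false, wrS, Complex.add_re, Complex.add_im,
        Complex.natCast_re, Complex.natCast_im, add_zero]
      ring
    · simp only [h0, h, if_false, wrC, Complex.add_re, Complex.add_im,
        Complex.natCast_re, Complex.natCast_im, add_zero]
      ring

theorem Wr_near (k1 : ℝ) (a r : ℕ → ℝ) (n : ℕ) {ξ : ℂ} (h : -(n : ℝ) - 1 / 4 < ξ.re) :
    Wr k1 a r ξ = ∑ j ∈ Finset.range (n + 2), wT k1 a r j ξ := by
  rw [Wr_eq_tsum]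
  refine tsum_eq_sum fun j hj => ?_
  rw [Finset.mem_range, not_lt] at hj
  have h1 : (n : ℝ) + 2 ≤ j := by exact_mod_cast hj
  rw [wT, kap_right (by linarith), zero_mul]

theorem wT_D2 (k1 : ℝ) (a r : ℕ → ℝ) (hr : ∀ j, 0 < r j ∧ r j < 1) (j : ℕ) (ξ v w : ℂ) :
    fderiv ℝ (fderiv ℝ (wT k1 a r j)) ξ v w
      = deriv (deriv kap) (ξ.re + j) * (wb k1 a j * wB r j ξ.im) * v.re * w.re
        + deriv kap (ξ.re + j) * (wb k1 a j * deriv (wB r j) ξ.im) * (v.re * w.im + v.im * w.re)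
        + kap (ξ.re + j) * (wb k1 a j * deriv (deriv (wB r j)) ξ.im) * v.im * w.im := by
  have hA : ContDiff ℝ ∞ (fun t : ℝ => kap (t + j)) :=
    kap_smooth.comp (contDiff_id.add contDiff_const)
  have hB : ContDiff ℝ ∞ (fun x : ℝ => wb k1 a j * wB r j x) :=
    contDiff_const.mul (wB_smooth hr j)
  have h := sep_D2 _ _ hA hB ξ v w
  have e1 : deriv (fun t : ℝ => kap (t + j)) = fun t => deriv kap (t + j) := by
    ext t
    exact deriv_comp_add_const kap (j : ℝ) t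
  have e2 : deriv (fun t : ℝ => deriv kap (t + j)) = fun t => deriv (deriv kap) (t + j) := by
    ext t
    exact deriv_comp_add_const (deriv kap) (j : ℝ) t
  have e3 : deriv (fun x : ℝ => wb k1 a j * wB r j x) = fun x => wb k1 a j * deriv (wB r j) x := by
    ext x
    exact deriv_const_mul _ ((wB_smooth hr j).differentiable (by simp) x)
  have e4 : deriv (fun x : ℝ => wb k1 a j * deriv (wB r j) x)
      = fun x => wb k1 a j * deriv (deriv (wB r j)) x := by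
    ext x
    exact deriv_const_mul _ ((contDiff_infty_iff_deriv.1 (wB_smooth hr j)).2.differentiable
      (by simp) x)
  rw [e1, e2, e3, e4] at h
  exact h

theorem wT_smooth (k1 : ℝ) (a r : ℕ → ℝ) (hr : ∀ j, 0 < r j ∧ r j < 1) (j : ℕ) :
    ContDiff ℝ ∞ (wT k1 a r j) := by
  have hA : ContDiff ℝ ∞ (fun ξ : ℂ => kap (ξ.re + j)) :=
    kap_smooth.comp (Complex.reCLM.contDiff.add contDiff_const)
  have hB : ContDiff ℝ ∞ (fun ξ : ℂ => wb k1 a j * wB r j ξ.im) :=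
    contDiff_const.mul ((wB_smooth hr j).comp Complex.imCLM.contDiff)
  exact hA.mul hB

theorem Wr_D2 (k1 : ℝ) (a r : ℕ → ℝ) (hr : ∀ j, 0 < r j ∧ r j < 1)
    (n : ℕ) (s x : ℝ) (hs0 : 0 ≤ s) (hs1 : s ≤ 1) (v w : ℂ) :
    fderiv ℝ (fderiv ℝ (Wr k1 a r)) ⟨s - n, x⟩ v w
      = (deriv (deriv kap) s * (wb k1 a n * wB r n x) * v.re * w.re
        + deriv kap s * (wb k1 a n * deriv (wB r n) x) * (v.re * w.im + v.im * w.re)
        + kap s * (wb k1 a n * deriv (deriv (wB r n)) x) * v.im * w.im)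
        + (deriv (deriv kap) (s + 1) * (k1 * a (n + 1) * wB r (n + 1) x) * v.re * w.re
        + deriv kap (s + 1) * (k1 * a (n + 1) * deriv (wB r (n + 1)) x)
          * (v.re * w.im + v.im * w.re)
        + kap (s + 1) * (k1 * a (n + 1) * deriv (deriv (wB r (n + 1))) x) * v.im * w.im) := by
  have h0 : Wr k1 a r =ᶠ[𝓝 (⟨s - n, x⟩ : ℂ)]
      fun ξ => ∑ j ∈ Finset.range (n + 2), wT k1 a r j ξ := by
    have : ∀ᶠ ξ : ℂ in 𝓝 (⟨s - n, x⟩ : ℂ), -(n : ℝ) - 1 / 4 < ξ.re := by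
      refine Complex.continuous_re.continuousAt.eventually_const_lt ?_
      show -(n : ℝ) - 1 / 4 < s - n
      linarith
    filter_upwards [this] with ξ hξ
    exact Wr_near k1 a r n hξ
  rw [(h0.fderiv).fderiv_eq, fderiv2_sum _ _ (wT_smooth k1 a r hr)]
  rw [Finset.sum_range_succ, Finset.sum_range_succ]
  have h1 : ∑ j ∈ Finset.range n, fderiv ℝ (fderiv ℝ (wT k1 a r j)) ⟨s - n, x⟩ v w = 0 := by
    refine Finset.sum_eq_zero fun j hj => ?_
    rw [Finset.mem_range] at hj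
    have h2 : (j : ℝ) + 1 ≤ n := by exact_mod_cast hj
    have h3 : s - n + j ≤ 0 := by linarith
    rw [wT_D2 k1 a r hr]
    show deriv (deriv kap) (s - n + j) * _ * _ * _ + deriv kap (s - n + j) * _ * _
      + kap (s - n + j) * _ * _ * _ = 0
    rw [kap_left h3, dkap_left h3, ddkap_left h3]
    ring
  rw [h1, zero_add, wT_D2 k1 a r hr, wT_D2 k1 a r hr]
  have e1 : (⟨s - n, x⟩ : ℂ).re + (n : ℝ) = s := by
    show s - n + n = s
    ring
  have e2 : (⟨s - n, x⟩ : ℂ).re + ((n + 1 : ℕ) : ℝ) = s + 1 := by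
    show s - n + ((n + 1 : ℕ) : ℝ) = s + 1
    push_cast
    ring
  have e3 : wb k1 a (n + 1) = k1 * a (n + 1) := by
    rw [wb, if_neg (Nat.succ_ne_zero n)]
  rw [e1, e2, e3]

theorem Wr_val (k1 : ℝ) (a r : ℕ → ℝ) (n : ℕ) (s x : ℝ) (hs0 : 0 ≤ s) (hs1 : s ≤ 1) :
    Wr k1 a r ⟨s - n, x⟩
      = kap s * (wb k1 a n * wB r n x) + kap (s + 1) * (k1 * a (n + 1) * wB r (n + 1) x) := by
  rw [Wr_near k1 a r n (by show -(n : ℝ) - 1 / 4 < s - n; linarith)]
  rw [Finset.sum_range_succ, Finset.sum_range_succ]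
  have h1 : ∑ j ∈ Finset.range n, wT k1 a r j ⟨s - n, x⟩ = 0 := by
    refine Finset.sum_eq_zero fun j hj => ?_
    rw [Finset.mem_range] at hj
    have h2 : (j : ℝ) + 1 ≤ n := by exact_mod_cast hj
    have h3 : s - n + j ≤ 0 := by linarith
    show kap (s - n + j) * _ = 0
    rw [kap_left h3, zero_mul]
  have e1 : (⟨s - n, x⟩ : ℂ).re + (n : ℝ) = s := by
    show s - n + n = s
    ring
  have e2 : (⟨s - n, x⟩ : ℂ).re + ((n + 1 : ℕ) : ℝ) = s + 1 := by
    show s - n + ((n + 1 : ℕ) : ℝ) = s + 1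
    push_cast
    ring
  have e3 : wb k1 a (n + 1) = k1 * a (n + 1) := by
    rw [wb, if_neg (Nat.succ_ne_zero n)]
  rw [h1, zero_add, wT, wT, e1, e2, e3]

end Wrk

open Wrk in
/-- D3-W (Wrinkle.lean): the wrinkles near a point of stage `n`. -/
theorem wr_facts (k1 : ℝ) (a r : ℕ → ℝ) (hk1 : 0 < k1) (hpos : ∀ j, 0 < a j)
    (hr : ∀ j, 0 < r j ∧ r j < 1) (hW : ContDiff ℝ ∞ (Wr k1 a r))
    (n : ℕ) (s x : ℝ) (hs0 : 0 ≤ s) (hs1 : s ≤ 1) (b0 b1 c y : ℝ)
    (hb0 : b0 = if n = 0 then 0 else k1 * a n) (hb1 : b1 = k1 * a (n + 1))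
    (hc : c = if Even n then Real.cos x else Real.sin x)
    (hy : y = if Even n then Real.sin x else Real.cos x) :
    Wr k1 a r ⟨s - n, x⟩ = b0 * kap s * VV (r n) y + b1 * kap (s + 1) * VV (r (n + 1)) c ∧
    fderiv ℝ (fderiv ℝ (Wr k1 a r)) ⟨s - n, x⟩ 1 1
      = b0 * deriv (deriv kap) s * VV (r n) y + b1 * deriv (deriv kap) (s + 1) * VV (r (n + 1)) c ∧
    fderiv ℝ (fderiv ℝ (Wr k1 a r)) ⟨s - n, x⟩ Complex.I Complex.I
      = b0 * kap s * W2 (r n) y + b1 * kap (s + 1) * W2 (r (n + 1)) c ∧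
    fderiv ℝ (fderiv ℝ (Wr k1 a r)) ⟨s - n, x⟩ 1 Complex.I
      = (if Even n then 1 else -1) * (b0 * deriv kap s * (c * V1 (r n) y)
          - b1 * deriv kap (s + 1) * (y * V1 (r (n + 1)) c)) := by
  have hb0' : wb k1 a n = b0 := by rw [wb, hb0]
  rw [Wr_val k1 a r n s x hs0 hs1, Wr_D2 k1 a r hr n s x hs0 hs1, Wr_D2 k1 a r hr n s x hs0 hs1,
    Wr_D2 k1 a r hr n s x hs0 hs1, hb0', ← hb1]
  simp only [Complex.one_re, Complex.one_im, Complex.I_re, Complex.I_im, mul_zero, mul_one,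
    add_zero, zero_add, zero_mul]
  by_cases h : Even n
  · have h' : ¬ Even (n + 1) := by
      rw [Nat.even_add_one, not_not]
      exact h
    rw [if_pos h] at hc hy
    rw [if_pos h, wB_even h, wB_odd h', ddVsin (hr n).1 (hr n).2,
      ddVcos (hr (n + 1)).1 (hr (n + 1)).2, (dVsin (hr n).1 (hr n).2 x).deriv,
      (dVcos (hr (n + 1)).1 (hr (n + 1)).2 x).deriv, hc, hy]
    refine ⟨by ring, by ring, by ring, by ring⟩
  · have h' : Even (n + 1) := by
      rw [Nat.even_add_one]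
      exact h
    rw [if_neg h] at hc hy
    rw [if_neg h, wB_odd h, wB_even h', ddVcos (hr n).1 (hr n).2,
      ddVsin (hr (n + 1)).1 (hr (n + 1)).2, (dVcos (hr n).1 (hr n).2 x).deriv,
      (dVsin (hr (n + 1)).1 (hr (n + 1)).2 x).deriv, hc, hy]
    refine ⟨by ring, by ring, by ring, by ring⟩

end Pool.Agent.Caratheodory
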