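import Pool.Agent.Caratheodory.CoreAux
import Pool.Agent.Caratheodory.Sep
import Pool.Agent.Caratheodory.Seq
import Pool.Agent.Caratheodory.Series
import Pool.Agent.Caratheodory.Bounded
import Pool.Agent.Caratheodory.Closing
import Pool.Agent.Caratheodory.Macro
import Pool.Agent.Caratheodory.StageI
import Pool.Agent.Caratheodory.StageII
import Pool.Agent.Caratheodory.Wrinkle

set_option autoImplicit false
open scoped ContDiff Topology

namespace Pool.Agent.Caratheodory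

/-- all data needed for the smoothness of the series -/
structure Good (a r : ℕ → ℝ) (N : ℕ → ℝ → ℝ) : Prop where
  pos : ∀ j, 0 < a j
  hr : ∀ j, 0 < r j ∧ r j < 1
  dec : ∀ k M : ℕ, ∃ C : ℝ, ∀ j : ℕ, a j * (1 + |N k (r j)|) ≤ C * Real.exp (-(M * j : ℝ))

theorem Good.dec0 {a r : ℕ → ℝ} {N : ℕ → ℝ → ℝ} (h : Good a r N) (M : ℕ) :
    ∃ C : ℝ, ∀ j : ℕ, a j ≤ C * Real.exp (-(M * j : ℝ)) := by
  obtain ⟨C, hC⟩ := h.dec 0 M
  refine ⟨C, fun j => ?_⟩
  have h1 := hC j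
  have h2 := h.pos j
  have h3 := abs_nonneg (N 0 (r j))
  nlinarith [mul_nonneg h2.le h3]

theorem series_macro {a r : ℕ → ℝ} {N : ℕ → ℝ → ℝ} (h : Good a r N) (G : ℕ → ℝ → ℝ)
    (hG : ∀ j, G j = XX ∨ G j = YY) :
    ContDiff ℝ ∞ (fun x : ℝ => ∑' j : ℕ, a j * G j (x + j)) ∧
    (∀ k N : ℕ, ∃ C : ℝ, ∀ x : ℝ, x ≤ 0 →
      ‖iteratedFDeriv ℝ k (fun x : ℝ => ∑' j : ℕ, a j * G j (x + j)) x‖
        ≤ C * Real.exp (N * x)) := by
  have hsm : ∀ j, ContDiff ℝ ∞ (G j) := by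
    intro j
    rcases hG j with e | e <;> rw [e]
    · exact XX_bounded.1
    · exact YY_bounded.1
  obtain ⟨CX, hCX⟩ : ∃ C : ℕ → ℝ, ∀ k s, ‖iteratedFDeriv ℝ k XX s‖ ≤ C k := by
    choose C hC using XX_bounded.2.2.2.2
    exact ⟨C, hC⟩
  obtain ⟨CY, hCY⟩ : ∃ C : ℕ → ℝ, ∀ k s, ‖iteratedFDeriv ℝ k YY s‖ ≤ C k := by
    choose C hC using YY_bounded.2.2.2.2
    exact ⟨C, hC⟩
  have hs := series (ContinuousLinearMap.id ℝ ℝ) (fun j x => a j * G j (x + j))
    (fun j => contDiff_const.mul ((hsm j).comp (contDiff_id.add contDiff_const)))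
    (fun j x hx => by
      have h0 : x + j ≤ -(1/2) := by
        simp only [ContinuousLinearMap.id_apply] at hx
        linarith
      rcases hG j with e | e <;> rw [e]
      · rw [XX_bounded.2.2.2.1 _ h0, mul_zero]
      · rw [YY_bounded.2.2.2.1 _ h0, mul_zero])
    (fun k M => by
      obtain ⟨C, hC⟩ := h.dec0 M
      refine ⟨C * max (CX k) (CY k), fun j x => ?_⟩
      have hb : ∀ y, ‖iteratedFDeriv ℝ k (G j) y‖ ≤ max (CX k) (CY k) := by
        intro y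
        rcases hG j with e | e <;> rw [e]
        · exact (hCX k y).trans (le_max_left _ _)
        · exact (hCY k y).trans (le_max_right _ _)
      have h1 := normA_shift (G j) (hsm j) (a j) (j : ℝ) k _ hb x
      have h2 := hC j
      have h3 : 0 ≤ max (CX k) (CY k) := (norm_nonneg _).trans (hb 0)
      rw [abs_of_pos (h.pos j)] at h1
      calc ‖iteratedFDeriv ℝ k (fun x => a j * G j (x + j)) x‖ ≤ a j * max (CX k) (CY k) := h1
        _ ≤ (C * Real.exp (-(M * j : ℝ))) * max (CX k) (CY k) :=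
          mul_le_mul_of_nonneg_right h2 h3
        _ = C * max (CX k) (CY k) * Real.exp (-(M * j : ℝ)) := by ring)
  exact ⟨hs.1, hs.2.2⟩

theorem MX_good {a r : ℕ → ℝ} {N : ℕ → ℝ → ℝ} (h : Good a r N) :
    ContDiff ℝ ∞ (MX a) ∧ (∀ k N : ℕ, ∃ C : ℝ, ∀ x : ℝ, x ≤ 0 →
      ‖iteratedFDeriv ℝ k (MX a) x‖ ≤ C * Real.exp (N * x)) := by
  have e : MX a = fun x : ℝ => ∑' j : ℕ, a j * (if Even j then XX else YY) (x + j) := by
    funext x
    unfold MX
    refine tsum_congr fun j => ?_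
    split_ifs <;> rfl
  rw [e]
  exact series_macro h (fun j => if Even j then XX else YY)
    (fun j => by by_cases hj : Even j <;> simp [hj])

theorem MY_good {a r : ℕ → ℝ} {N : ℕ → ℝ → ℝ} (h : Good a r N) :
    ContDiff ℝ ∞ (MY a) ∧ (∀ k N : ℕ, ∃ C : ℝ, ∀ x : ℝ, x ≤ 0 →
      ‖iteratedFDeriv ℝ k (MY a) x‖ ≤ C * Real.exp (N * x)) := by
  have e : MY a = fun x : ℝ => ∑' j : ℕ, a j * (if Even j then YY else XX) (x + j) := by
    funext x
    unfold MY
    refine tsum_congr fun j => ?_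
    split_ifs <;> rfl
  rw [e]
  exact series_macro h (fun j => if Even j then YY else XX)
    (fun j => by by_cases hj : Even j <;> simp [hj])

theorem kapA_nonpos {s : ℝ} (hs : s ≤ 0) : kap s = 0 := by
  unfold kap
  rw [sgA_zero (by linarith), zero_mul]

theorem kapA_big {s : ℝ} (hs : 11/8 ≤ s) : kap s = 0 := by
  unfold kap
  rw [sgA_one (x := 8 * s - 10) (by linarith), sub_self, mul_zero]

/-- chosen bounds for the derivatives of the wrinkles -/
theorem exists_N : ∃ N : ℕ → ℝ → ℝ, ∀ (k : ℕ) (r : ℝ), 0 < r → r < 1 →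
    (∀ ξ : ℂ, ‖iteratedFDeriv ℝ k (wrS r) ξ‖ ≤ N k r) ∧
    (∀ ξ : ℂ, ‖iteratedFDeriv ℝ k (wrC r) ξ‖ ≤ N k r) := by
  have h : ∀ (k : ℕ) (r : ℝ), ∃ C : ℝ, 0 < r → r < 1 →
    (∀ ξ : ℂ, ‖iteratedFDeriv ℝ k (wrS r) ξ‖ ≤ C) ∧
    (∀ ξ : ℂ, ‖iteratedFDeriv ℝ k (wrC r) ξ‖ ≤ C) := by
    intro k r
    by_cases hr : 0 < r ∧ r < 1
    · obtain ⟨C, hC⟩ := (wrS_bounded r hr.1 hr.2).2 k
      obtain ⟨D, hD⟩ := (wrC_bounded r hr.1 hr.2).2 k
      exact ⟨max C D, fun _ _ => ⟨fun ξ => (hC ξ).trans (le_max_left _ _),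
        fun ξ => (hD ξ).trans (le_max_right _ _)⟩⟩
    · exact ⟨0, fun h1 h2 => absurd ⟨h1, h2⟩ hr⟩
  choose N hN using h
  exact ⟨N, fun k r h1 h2 => hN k r h1 h2⟩

theorem Wr_good {a r : ℕ → ℝ} {N : ℕ → ℝ → ℝ} (h : Good a r N) (k1 : ℝ) (hk : 0 < k1)
    (hN : ∀ (k : ℕ) (r : ℝ), 0 < r → r < 1 →
    (∀ ξ : ℂ, ‖iteratedFDeriv ℝ k (wrS r) ξ‖ ≤ N k r) ∧
    (∀ ξ : ℂ, ‖iteratedFDeriv ℝ k (wrC r) ξ‖ ≤ N k r)) : RD (Wr k1 a r) := by
  set f : ℕ → ℂ → ℝ := fun j ξ => if j = 0 then 0 else a j * k1 *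
    (if Even j then wrS (r j) (ξ + j) else wrC (r j) (ξ + j)) with hf
  have hf' : ∀ j, f j = if j = 0 then (fun _ => 0) else
      (fun ξ => (a j * k1) * (if Even j then wrS (r j) else wrC (r j)) (ξ + (j : ℂ))) := by
    intro j
    by_cases hj : j = 0
    · simp [hf, hj]
    · funext ξ
      simp only [hf, hj, if_false]
      split_ifs <;> rfl
  have hcd : ∀ j, ContDiff ℝ ∞ ((if Even j then wrS (r j) else wrC (r j)) : ℂ → ℝ) := by
    intro j
    split_ifs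
    · exact (wrS_bounded (r j) (h.hr j).1 (h.hr j).2).1
    · exact (wrC_bounded (r j) (h.hr j).1 (h.hr j).2).1
  have hs := series Complex.reCLM f
    (fun j => by
      rw [hf' j]
      by_cases h0 : j = 0
      · rw [if_pos h0]; exact contDiff_const
      · rw [if_neg h0]
        exact contDiff_const.mul ((hcd j).comp (contDiff_id.add contDiff_const)))
    (fun j x hx => by
      have h0 : (x + (j : ℂ)).re ≤ 0 := by
        simp only [Complex.reCLM_apply] at hx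
        simp
        linarith
      simp only [hf]
      split_ifs
      · rfl
      · unfold wrS; rw [kapA_nonpos h0, zero_mul, mul_zero]
      · unfold wrC; rw [kapA_nonpos h0, zero_mul, mul_zero])
    (fun k M => by
      obtain ⟨C, hC⟩ := h.dec k M
      refine ⟨C * k1, fun j x => ?_⟩
      have hb : ∀ y, ‖iteratedFDeriv ℝ k ((if Even j then wrS (r j) else wrC (r j)) : ℂ → ℝ) y‖
          ≤ |N k (r j)| := by
        intro y
        split_ifs
        · exact ((hN k (r j) (h.hr j).1 (h.hr j).2).1 y).trans (le_abs_self _)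
        · exact ((hN k (r j) (h.hr j).1 (h.hr j).2).2 y).trans (le_abs_self _)
      have hC' : 0 ≤ C * Real.exp (-(M * j : ℝ)) := by
        refine le_trans ?_ (hC j)
        have := h.pos j
        positivity
      rw [hf' j]
      by_cases hj : j = 0
      · rw [if_pos hj]
        have : iteratedFDeriv ℝ k (fun _ : ℂ => (0:ℝ)) x = 0 := by
          exact congrFun (iteratedFDeriv_fun_zero (𝕜 := ℝ) (E := ℂ) (F := ℝ) (n := k)) x
        rw [this, norm_zero]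
        nlinarith
      · rw [if_neg hj]
        have h1 := normA_shift _ (hcd j) (a j * k1) (j : ℂ) k _ hb x
        refine h1.trans ?_
        have ha := h.pos j
        rw [abs_of_pos (mul_pos ha hk)]
        have h2 := hC j
        have h3 := abs_nonneg (N k (r j))
        nlinarith [mul_nonneg ha.le hk.le])
  exact ⟨hs.1, hs.2.2⟩

theorem Wr_zero {k1 : ℝ} {a r : ℕ → ℝ} {ξ : ℂ} (h : 3/8 ≤ ξ.re) : Wr k1 a r ξ = 0 := by
  unfold Wr
  have : ∀ j : ℕ, (if j = 0 then 0 else a j * k1 *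
    (if Even j then wrS (r j) (ξ + j) else wrC (r j) (ξ + j))) = 0 := by
    intro j
    by_cases hj : j = 0
    · rw [if_pos hj]
    · rw [if_neg hj]
      have h1 : (1:ℝ) ≤ j := by exact_mod_cast Nat.one_le_iff_ne_zero.2 hj
      have h2 : 11/8 ≤ (ξ + (j:ℂ)).re := by simp; linarith
      split_ifs
      · unfold wrS; rw [kapA_big h2, zero_mul, mul_zero]
      · unfold wrC; rw [kapA_big h2, zero_mul, mul_zero]
  simp only [this, tsum_zero]

theorem Wr_periodic {k1 : ℝ} {a r : ℕ → ℝ} (ξ : ℂ) :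
    Wr k1 a r (ξ + 2 * Real.pi * Complex.I) = Wr k1 a r ξ := by
  unfold Wr
  refine tsum_congr fun j => ?_
  have h1 : (ξ + 2 * Real.pi * Complex.I + j).re = (ξ + j).re := by simp
  have h2 : (ξ + 2 * Real.pi * Complex.I + j).im = (ξ + j).im + 2 * Real.pi := by simp
  unfold wrS wrC
  rw [h1, h2, Real.sin_add_two_pi, Real.cos_add_two_pi]

theorem D2_Wr_zero {k1 : ℝ} {a r : ℕ → ℝ} (hW : ContDiff ℝ ∞ (Wr k1 a r)) {ξ : ℂ}
    (h : 3/8 ≤ ξ.re) (v w : ℂ) : fderiv ℝ (fderiv ℝ (Wr k1 a r)) ξ v w = 0 := by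
  have hc : Continuous (fun ξ => fderiv ℝ (fderiv ℝ (Wr k1 a r)) ξ v w) := by
    have h1 := (contDiff_infty_iff_fderiv.1 hW).2
    have h2 := (contDiff_infty_iff_fderiv.1 h1).2.continuous
    exact (h2.clm_apply continuous_const).clm_apply continuous_const
  have hcl : IsClosed {ξ : ℂ | fderiv ℝ (fderiv ℝ (Wr k1 a r)) ξ v w = 0} :=
    isClosed_eq hc continuous_const
  have hsub : {z : ℂ | 3/8 < z.re} ⊆ {ξ : ℂ | fderiv ℝ (fderiv ℝ (Wr k1 a r)) ξ v w = 0} := by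
    intro z hz
    have : Wr k1 a r =ᶠ[𝓝 z] fun _ => (0:ℝ) := by
      have ho : IsOpen {z : ℂ | 3/8 < z.re} := isOpen_lt continuous_const Complex.continuous_re
      filter_upwards [ho.mem_nhds hz] with y hy using Wr_zero (le_of_lt hy)
    show fderiv ℝ (fderiv ℝ (Wr k1 a r)) z v w = 0
    rw [D2_congr this]
    simp
  have h3 := closure_minimal hsub hcl
  have h4 : closure {z : ℂ | 3/8 < z.re} = {z : ℂ | 3/8 ≤ z.re} := Complex.closure_setOfPred_lt_re _
  rw [h4] at h3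
  exact h3 h

/-- second derivatives of the macroscopic part -/
theorem D2_macro {A B : ℝ → ℝ} (hA : ContDiff ℝ ∞ A) (hB : ContDiff ℝ ∞ B) {W : ℂ → ℝ}
    (hW : ContDiff ℝ ∞ W) (ξ v w : ℂ) :
    fderiv ℝ (fderiv ℝ (fun ξ : ℂ => A ξ.re * Real.cos ξ.im + B ξ.re * Real.sin ξ.im + W ξ)) ξ v w
    = (deriv (deriv A) ξ.re * Real.cos ξ.im + deriv (deriv B) ξ.re * Real.sin ξ.im) * v.re * w.re
      + (-(deriv A ξ.re * Real.sin ξ.im) + deriv B ξ.re * Real.cos ξ.im)
          * (v.re * w.im + v.im * w.re)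
      - (A ξ.re * Real.cos ξ.im + B ξ.re * Real.sin ξ.im) * v.im * w.im
      + fderiv ℝ (fderiv ℝ W) ξ v w := by
  have hcos : ContDiff ℝ ∞ Real.cos := Real.contDiff_cos
  have hsin : ContDiff ℝ ∞ Real.sin := Real.contDiff_sin
  have h1 : ContDiff ℝ ∞ (fun ξ : ℂ => A ξ.re * Real.cos ξ.im) :=
    (hA.comp Complex.reCLM.contDiff).mul (hcos.comp Complex.imCLM.contDiff)
  have h2 : ContDiff ℝ ∞ (fun ξ : ℂ => B ξ.re * Real.sin ξ.im) :=
    (hB.comp Complex.reCLM.contDiff).mul (hsin.comp Complex.imCLM.contDiff)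
  rw [D2_add (h1.add h2) hW, D2_add h1 h2, sep_D2 A Real.cos hA hcos, sep_D2 B Real.sin hB hsin]
  have e1 : deriv Real.cos = fun x => -Real.sin x := by funext x; exact Real.deriv_cos
  have e2 : deriv Real.sin = Real.cos := Real.deriv_sin
  have e3 : deriv (deriv Real.cos) = fun x => -Real.cos x := by
    rw [e1]; funext x
    simp
  have e4 : deriv (deriv Real.sin) = fun x => -Real.sin x := by rw [e2, e1]
  rw [e3, e4, e1, e2]
  ring

/-- the pure case, algebra -/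
theorem pure_alg {A1 A2 B1 B2 A B P c y : ℝ} (hcy : c ^ 2 + y ^ 2 = 1)
    (hS : A1 * (A2 + 3 * P ^ 2 * A) + B1 * (B2 + 3 * P ^ 2 * B) < 0)
    (h1 : -(A1 * y) + B1 * c = 0)
    (h2 : (A2 + 3 * P ^ 2 * A) * c + (B2 + 3 * P ^ 2 * B) * y = 0) : False := by
  have hA : A1 = c * (A1 * c + B1 * y) := by linear_combination (-A1) * hcy - y * h1
  have hB : B1 = y * (A1 * c + B1 * y) := by linear_combination (-B1) * hcy + c * h1
  have : A1 * (A2 + 3 * P ^ 2 * A) + B1 * (B2 + 3 * P ^ 2 * B) = 0 := by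
    calc A1 * (A2 + 3 * P ^ 2 * A) + B1 * (B2 + 3 * P ^ 2 * B)
        = (A1 * c + B1 * y) * ((A2 + 3 * P ^ 2 * A) * c + (B2 + 3 * P ^ 2 * B) * y)
          + (A1 - c * (A1 * c + B1 * y)) * (A2 + 3 * P ^ 2 * A)
          + (B1 - y * (A1 * c + B1 * y)) * (B2 + 3 * P ^ 2 * B) := by ring
      _ = 0 := by rw [h2, ← hA, ← hB]; ring
  linarith

end Pool.Agent.Caratheodory
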