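import Pool.Agent.Caratheodory.StageDefs

set_option autoImplicit false
open scoped ContDiff Topology

namespace Pool.Agent.Caratheodory

theorem sgA_contDiff : ContDiff ℝ ∞ sg := by
  have h : ContDiff ℝ ((⊤ : ℕ∞) : ℕ∞ω) Real.smoothTransition := Real.smoothTransition.contDiff
  exact h

theorem sgA_zero {x : ℝ} (h : x ≤ 0) : sg x = 0 := Real.smoothTransition.zero_of_nonpos h
theorem sgA_one {x : ℝ} (h : 1 ≤ x) : sg x = 1 := Real.smoothTransition.one_of_one_le h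

theorem sgA_deriv_bounded : ∃ S1 : ℝ, 0 ≤ S1 ∧ ∀ x, |deriv sg x| ≤ S1 := by
  have hc : Continuous (deriv sg) := (contDiff_infty_iff_deriv.1 sgA_contDiff).2.continuous
  obtain ⟨C, hC⟩ := (isCompact_Icc (a := (0:ℝ)) (b := 1)).exists_bound_of_continuousOn hc.continuousOn
  refine ⟨max C 0, le_max_right _ _, fun x => ?_⟩
  by_cases h : x ∈ Set.Icc (0:ℝ) 1
  · have := hC x h
    rw [Real.norm_eq_abs] at this
    exact this.trans (le_max_left _ _)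
  · rw [Set.mem_Icc, not_and_or, not_le, not_le] at h
    have : deriv sg x = 0 := by
      rcases h with h | h
      · have : sg =ᶠ[𝓝 x] fun _ => (0:ℝ) := by
          filter_upwards [Iio_mem_nhds h] with y hy using sgA_zero (le_of_lt hy)
        rw [this.deriv_eq]; simp
      · have : sg =ᶠ[𝓝 x] fun _ => (1:ℝ) := by
          filter_upwards [Ioi_mem_nhds h] with y hy using sgA_one (le_of_lt hy)
        rw [this.deriv_eq]; simp
    rw [this, abs_zero]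
    exact le_max_right _ _

theorem normA_shift {E : Type} [NormedAddCommGroup E] [NormedSpace ℝ E] (g : E → ℝ)
    (hg : ContDiff ℝ ∞ g) (c : ℝ) (v : E) (k : ℕ) (C : ℝ)
    (hC : ∀ x, ‖iteratedFDeriv ℝ k g x‖ ≤ C) (x : E) :
    ‖iteratedFDeriv ℝ k (fun x => c * g (x + v)) x‖ ≤ |c| * C := by
  have h1 : iteratedFDeriv ℝ k (fun x => c * g (x + v)) x
      = c • iteratedFDeriv ℝ k (fun x => g (x + v)) x := by
    have hcd : ContDiffAt ℝ k (fun x => g (x + v)) x := by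
      have : ContDiff ℝ ∞ (fun x => g (x + v)) := hg.comp (contDiff_id.add contDiff_const)
      exact (this.of_le (by exact_mod_cast le_top)).contDiffAt
    exact iteratedFDeriv_const_smul_apply' (𝕜 := ℝ) (a := c) hcd
  rw [h1, norm_smul, Real.norm_eq_abs]
  refine mul_le_mul_of_nonneg_left ?_ (abs_nonneg _)
  have h2 := congrFun (iteratedFDeriv_comp_add_right' (𝕜 := ℝ) (f := g) k v) x
  rw [h2]
  exact hC _

/-- rapidly decaying (with all derivatives) as `re → -∞` -/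
def RD (f : ℂ → ℝ) : Prop := ContDiff ℝ ∞ f ∧ ∀ k N : ℕ, ∃ C : ℝ, ∀ ξ : ℂ, ξ.re ≤ 0 →
  ‖iteratedFDeriv ℝ k f ξ‖ ≤ C * Real.exp (N * ξ.re)

theorem RD.add {f g : ℂ → ℝ} (hf : RD f) (hg : RD g) : RD (fun ξ => f ξ + g ξ) := by
  refine ⟨hf.1.add hg.1, fun k N => ?_⟩
  obtain ⟨C, hC⟩ := hf.2 k N
  obtain ⟨D, hD⟩ := hg.2 k N
  refine ⟨C + D, fun ξ hξ => ?_⟩
  have h1 : ContDiffAt ℝ k f ξ := (hf.1.of_le (by exact_mod_cast le_top)).contDiffAt
  have h2 : ContDiffAt ℝ k g ξ := (hg.1.of_le (by exact_mod_cast le_top)).contDiffAt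
  have h3 : iteratedFDeriv ℝ k (fun ξ => f ξ + g ξ) ξ
      = iteratedFDeriv ℝ k f ξ + iteratedFDeriv ℝ k g ξ := iteratedFDeriv_add_apply h1 h2
  rw [h3, add_mul]
  exact (norm_add_le _ _).trans (add_le_add (hC ξ hξ) (hD ξ hξ))

theorem RD.mul_bounded {f g : ℂ → ℝ} (hf : RD f) (hg : ContDiff ℝ ∞ g)
    (hb : ∀ k : ℕ, ∃ C : ℝ, ∀ ξ : ℂ, ‖iteratedFDeriv ℝ k g ξ‖ ≤ C) : RD (fun ξ => f ξ * g ξ) := by
  refine ⟨hf.1.mul hg, fun k N => ?_⟩
  choose C hC using fun i => hf.2 i N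
  choose D hD using hb
  refine ⟨∑ i ∈ Finset.range (k + 1), (k.choose i : ℝ) * C i * D (k - i), fun ξ hξ => ?_⟩
  refine (norm_iteratedFDeriv_mul_le (hf.1.of_le (le_refl _)) (hg.of_le (le_refl _)) ξ
    (n := k) (by exact_mod_cast le_top)).trans ?_
  rw [Finset.sum_mul]
  refine Finset.sum_le_sum fun i _ => ?_
  have h1 := hC i ξ hξ
  have h2 := hD (k - i) ξ
  have h0 : (0:ℝ) ≤ (k.choose i : ℝ) := by positivity
  calc (k.choose i : ℝ) * ‖iteratedFDeriv ℝ i f ξ‖ * ‖iteratedFDeriv ℝ (k - i) g ξ‖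
      ≤ (k.choose i : ℝ) * (C i * Real.exp (N * ξ.re)) * D (k - i) := by
        refine mul_le_mul (mul_le_mul_of_nonneg_left h1 h0) h2 (norm_nonneg _) ?_
        exact mul_nonneg h0 ((norm_nonneg _).trans h1)
    _ = (k.choose i : ℝ) * C i * D (k - i) * Real.exp (N * ξ.re) := by ring

theorem RD_comp_re {m : ℝ → ℝ} (hm : ContDiff ℝ ∞ m)
    (hb : ∀ k N : ℕ, ∃ C : ℝ, ∀ x : ℝ, x ≤ 0 →
      ‖iteratedFDeriv ℝ k m x‖ ≤ C * Real.exp (N * x)) : RD (fun ξ : ℂ => m ξ.re) := by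
  refine ⟨hm.comp Complex.reCLM.contDiff, fun k N => ?_⟩
  obtain ⟨C, hC⟩ := hb k N
  refine ⟨C, fun ξ hξ => ?_⟩
  have h1 := Complex.reCLM.iteratedFDeriv_comp_right (f := m) hm ξ (i := k)
    (by exact_mod_cast le_top)
  have h2 : (fun ξ : ℂ => m ξ.re) = m ∘ Complex.reCLM := rfl
  rw [h2, h1]
  refine (ContinuousMultilinearMap.norm_compContinuousLinearMap_le _ _).trans ?_
  have h3 : ‖Complex.reCLM‖ = 1 := Complex.reCLM_norm
  simp only [h3, Finset.prod_const_one, mul_one]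
  exact hC _ hξ

theorem bounded_comp_im {m : ℝ → ℝ} (hm : ContDiff ℝ ∞ m)
    (hb : ∀ k : ℕ, ∃ C : ℝ, ∀ x : ℝ, ‖iteratedFDeriv ℝ k m x‖ ≤ C) :
    ContDiff ℝ ∞ (fun ξ : ℂ => m ξ.im) ∧
    ∀ k : ℕ, ∃ C : ℝ, ∀ ξ : ℂ, ‖iteratedFDeriv ℝ k (fun ξ : ℂ => m ξ.im) ξ‖ ≤ C := by
  refine ⟨hm.comp Complex.imCLM.contDiff, fun k => ?_⟩
  obtain ⟨C, hC⟩ := hb k
  refine ⟨C, fun ξ => ?_⟩
  have h1 := Complex.imCLM.iteratedFDeriv_comp_right (f := m) hm ξ (i := k)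
    (by exact_mod_cast le_top)
  have h2 : (fun ξ : ℂ => m ξ.im) = m ∘ Complex.imCLM := rfl
  rw [h2, h1]
  refine (ContinuousMultilinearMap.norm_compContinuousLinearMap_le _ _).trans ?_
  have h3 : ‖Complex.imCLM‖ = 1 := Complex.imCLM_norm
  simp only [h3, Finset.prod_const_one, mul_one]
  exact hC _

theorem cos_bounded (k : ℕ) : ∃ C : ℝ, ∀ x : ℝ, ‖iteratedFDeriv ℝ k Real.cos x‖ ≤ C := by
  refine ⟨1, fun x => ?_⟩
  rw [norm_iteratedFDeriv_eq_norm_iteratedDeriv, Real.norm_eq_abs]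
  exact Real.abs_iteratedDeriv_cos_le_one k x

theorem sin_bounded (k : ℕ) : ∃ C : ℝ, ∀ x : ℝ, ‖iteratedFDeriv ℝ k Real.sin x‖ ≤ C := by
  refine ⟨1, fun x => ?_⟩
  rw [norm_iteratedFDeriv_eq_norm_iteratedDeriv, Real.norm_eq_abs]
  exact Real.abs_iteratedDeriv_sin_le_one k x

theorem D2_add {f g : ℂ → ℝ} (hf : ContDiff ℝ ∞ f) (hg : ContDiff ℝ ∞ g) (ξ v w : ℂ) :
    fderiv ℝ (fderiv ℝ (fun ξ => f ξ + g ξ)) ξ v w
      = fderiv ℝ (fderiv ℝ f) ξ v w + fderiv ℝ (fderiv ℝ g) ξ v w := by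
  have hf1 : Differentiable ℝ f := hf.differentiable (by simp)
  have hg1 : Differentiable ℝ g := hg.differentiable (by simp)
  have hf2 : Differentiable ℝ (fderiv ℝ f) :=
    (contDiff_infty_iff_fderiv.1 hf).2.differentiable (by simp)
  have hg2 : Differentiable ℝ (fderiv ℝ g) :=
    (contDiff_infty_iff_fderiv.1 hg).2.differentiable (by simp)
  have e1 : fderiv ℝ (fun ξ => f ξ + g ξ) = fun ξ => fderiv ℝ f ξ + fderiv ℝ g ξ := by
    funext ζ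
    exact fderiv_fun_add (hf1 ζ) (hg1 ζ)
  rw [e1, fderiv_fun_add (hf2 ξ) (hg2 ξ)]
  rfl

theorem D2_congr {f g : ℂ → ℝ} {ξ : ℂ} (h : f =ᶠ[𝓝 ξ] g) :
    fderiv ℝ (fderiv ℝ f) ξ = fderiv ℝ (fderiv ℝ g) ξ := by
  exact (h.fderiv (𝕜 := ℝ)).fderiv_eq

end Pool.Agent.Caratheodory
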