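import Pool.Agent.Caratheodory.Core

set_option autoImplicit false
open scoped ContDiff Topology

namespace Pool.Agent.Caratheodory

theorem exists_stage (τ : ℝ) (h : τ < 3/8) : ∃ (n : ℕ) (s : ℝ), 0 ≤ s ∧ s ≤ 1 ∧
    (n = 0 → s < 3/8) ∧ τ = s - n := by
  by_cases h0 : 0 ≤ τ
  · exact ⟨0, τ, h0, by linarith, fun _ => h, by simp⟩
  · rw [not_le] at h0
    refine ⟨⌈-τ⌉₊, τ + ⌈-τ⌉₊, ?_, ?_, ?_, by ring⟩
    · have := Nat.le_ceil (-τ); linarith
    · have := (Nat.ceil_lt_add_one (a := -τ) (by linarith)); linarith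
    · intro h1
      have h2 : 0 < ⌈-τ⌉₊ := Nat.ceil_pos.2 (by linarith)
      omega

theorem UU_left {P lam k1 : ℝ} {a r : ℕ → ℝ} (hP : 0 < P) (hl : 0 < lam) {ξ : ℂ}
    (h : ξ.re < 3/8) : UU P lam k1 a r =ᶠ[𝓝 ξ] (fun ξ : ℂ => MX a ξ.re * Real.cos ξ.im +
      MY a ξ.re * Real.sin ξ.im + Wr k1 a r ξ) := by
  have ho : IsOpen {z : ℂ | z.re < 3/8} := isOpen_lt Complex.continuous_re continuous_const
  filter_upwards [ho.mem_nhds h] with z hz
  have hz' : z.re < 3/8 := hz
  unfold UU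
  rw [(px_facts P hP).2.1 _ hz'.le, (py_facts P lam hP hl).2.1 _ (by linarith), one_mul, one_mul]

/-- D-assembly: the function on the `ξ`-plane -/
theorem core' : ∃ (P T cx cy : ℝ) (U : ℂ → ℝ), 0 < P ∧ P ≤ 1 ∧ ContDiff ℝ ∞ U ∧
    (∀ ξ : ℂ, U (ξ + 2 * Real.pi * Complex.I) = U ξ) ∧
    (∀ k N : ℕ, ∃ C : ℝ, ∀ ξ : ℂ, ξ.re ≤ 0 →
      ‖iteratedFDeriv ℝ k U ξ‖ ≤ C * Real.exp (N * ξ.re)) ∧
    (∀ ξ : ℂ, T ≤ ξ.re →
      U ξ = Real.exp (-(P * ξ.re)) * (cx * Real.cos ξ.im + cy * Real.sin ξ.im)) ∧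
    (cx ≠ 0 ∨ cy ≠ 0) ∧
    (∀ ξ : ℂ, ¬ (fderiv ℝ (fderiv ℝ U) ξ 1 Complex.I = 0 ∧
      fderiv ℝ (fderiv ℝ U) ξ 1 1 -
        P ^ 2 * (4 * fderiv ℝ (fderiv ℝ U) ξ Complex.I Complex.I + U ξ) = 0)) := by
  obtain ⟨S1, hS0, hS1⟩ := sgA_deriv_bounded
  obtain ⟨M1, hM1, hII⟩ := stageII
  obtain ⟨P0, hP0, hpure⟩ := pure_neg
  obtain ⟨N, hN⟩ := exists_N
  set k1 : ℝ := 1 / (64 * (S1 + 1)) with hk1
  have hk1pos : 0 < k1 := by rw [hk1]; positivity
  have hk1le : k1 ≤ 1 / 64 := by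
    rw [hk1]
    apply one_div_le_one_div_of_le (by norm_num)
    linarith
  set P : ℝ := min P0 (1/8) with hPdef
  have hP : 0 < P := lt_min hP0 (by norm_num)
  have hPle : P ≤ 1/8 := min_le_right _ _
  obtain ⟨lam, hlam, hpn⟩ := hpure P hP (min_le_left _ _)
  have he0 : 0 < P ^ 2 := by positivity
  have he : 64 * P ^ 2 ≤ 1 := by nlinarith
  obtain ⟨a, r, ha0, hpos, h2, hr, hgr, hdec⟩ := exists_data N (M1 / (P ^ 2 * k1))
  have hgood : Good a r N := ⟨hpos, hr, hdec⟩
  obtain ⟨hMXs, hMXd⟩ := MX_good hgood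
  obtain ⟨hMYs, hMYd⟩ := MY_good hgood
  have hW := Wr_good hgood k1 hk1pos hN
  obtain ⟨mf1, mf2, mf3, ⟨X1, hX1, hX1', hX1c⟩, hMY, ⟨Y1, hY1⟩⟩ := macro_facts a ha0 hpos h2
  obtain ⟨hpx, hpx1, c1, hc1, hpx2⟩ := px_facts P hP
  obtain ⟨hpy, hpy1, c2, hc2, hpy2⟩ := py_facts P lam hP hlam
  have hcos : ContDiff ℝ ∞ Real.cos := Real.contDiff_cos
  have hsin : ContDiff ℝ ∞ Real.sin := Real.contDiff_sin
  refine ⟨P, max 1 (1 + 1 / lam), c1 * X1, c2 * Y1, UU P lam k1 a r, hP, by linarith, ?_, ?_, ?_,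
    ?_, ?_, ?_⟩
  · have h1 : ContDiff ℝ ∞ (fun ξ : ℂ => px P ξ.re * MX a ξ.re * Real.cos ξ.im) :=
      ((hpx.mul hMXs).comp Complex.reCLM.contDiff).mul (hcos.comp Complex.imCLM.contDiff)
    have h2 : ContDiff ℝ ∞ (fun ξ : ℂ => py P lam ξ.re * MY a ξ.re * Real.sin ξ.im) :=
      ((hpy.mul hMYs).comp Complex.reCLM.contDiff).mul (hsin.comp Complex.imCLM.contDiff)
    exact (h1.add h2).add hW.1
  · intro ξ
    unfold UU
    rw [Wr_periodic]
    have h1 : (ξ + 2 * Real.pi * Complex.I).re = ξ.re := by simp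
    have h2 : (ξ + 2 * Real.pi * Complex.I).im = ξ.im + 2 * Real.pi := by simp
    rw [h1, h2, Real.sin_add_two_pi, Real.cos_add_two_pi]
  · intro k M
    have hRD : RD (fun ξ : ℂ => MX a ξ.re * Real.cos ξ.im +
      MY a ξ.re * Real.sin ξ.im + Wr k1 a r ξ) := by
      obtain ⟨g1, g2⟩ := bounded_comp_im hcos cos_bounded
      obtain ⟨g3, g4⟩ := bounded_comp_im hsin sin_bounded
      exact (((RD_comp_re hMXs hMXd).mul_bounded g1 g2).add
        ((RD_comp_re hMYs hMYd).mul_bounded g3 g4)).add hW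
    obtain ⟨C, hC⟩ := hRD.2 k M
    refine ⟨C, fun ξ hξ => ?_⟩
    have h1 := (UU_left (P := P) (lam := lam) (k1 := k1) (a := a) (r := r) hP hlam
      (show ξ.re < 3/8 by linarith)).iteratedFDeriv (𝕜 := ℝ) k
    rw [h1.eq_of_nhds]
    exact hC ξ hξ
  · intro ξ hξ
    have h1 : 1 ≤ ξ.re := (le_max_left _ _).trans hξ
    have h2 : 1 + 1 / lam ≤ ξ.re := (le_max_right _ _).trans hξ
    unfold UU
    rw [Wr_zero (by linarith), hpx2 _ (by linarith), hpy2 _ h2, hX1c _ (by linarith), hY1 _ h1]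
    ring
  · left
    have : (0:ℝ) < X1 := by linarith
    positivity
  · intro ξ
    by_cases hlt : ξ.re < 3/8
    · obtain ⟨n, s, hs0, hs1, hns, hτ⟩ := exists_stage ξ.re hlt
      have hξ : ξ = ⟨s - n, ξ.im⟩ := Complex.ext hτ rfl
      set x := ξ.im with hx
      rw [D2_congr (UU_left (P := P) (lam := lam) (k1 := k1) (a := a) (r := r) hP hlam hlt),
        (UU_left (P := P) (lam := lam) (k1 := k1) (a := a) (r := r) hP hlam hlt).eq_of_nhds,
        D2_macro hMXs hMYs hW.1, D2_macro hMXs hMYs hW.1, D2_macro hMXs hMYs hW.1]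
      set b0 : ℝ := if n = 0 then 0 else k1 * a n with hb0
      set am : ℝ := if n = 0 then 0 else a (n - 1) with ham
      have hb0' : 0 ≤ b0 := by
        rw [hb0]; split_ifs
        · exact le_refl _
        · have := hpos n; positivity
      have hb0'' : b0 ≤ k1 * a n := by
        rw [hb0]; split_ifs
        · have := hpos n; positivity
        · exact le_refl _
      have hb1 : 0 ≤ k1 * a (n+1) := by have := hpos (n+1); positivity
      have hb1' : k1 * a (n+1) ≤ k1 * a n := by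
        have h3 := h2 n; have h4 := hpos (n+1); have h5 := hpos n
        apply mul_le_mul_of_nonneg_left _ hk1pos.le
        linarith
      obtain ⟨m1, m2, m3, m4⟩ := mf1 n s hs0 hs1
      have hre : ξ.re = s - n := hτ
      by_cases hev : Even n
      · obtain ⟨d1, d2, d3, d4⟩ := mf2 n s hs0 hs1 hev
        obtain ⟨w1, w2, w3, w4⟩ := wr_facts k1 a r hk1pos hpos hr hW.1 n s x hs0 hs1 b0
          (k1 * a (n+1)) (Real.cos x) (Real.sin x) hb0 rfl (by rw [if_pos hev])
          (by rw [if_pos hev])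
        rw [← hξ] at w1 w2 w3 w4
        rw [w1, w2, w3, w4, hre, d1, d2, d3, d4, ← ham, if_pos hev]
        have hcy : Real.cos x ^ 2 + Real.sin x ^ 2 = 1 := by
          have := Real.sin_sq_add_cos_sq x; linarith
        intro hcon
        have key : Bform (a n) am b0 (k1 * a (n+1)) (r n) (r (n+1)) s (Real.cos x) (Real.sin x) = 0 ∧
            Aform (P ^ 2) (a n) am b0 (k1 * a (n+1)) (r n) (r (n+1)) s (MX a (s - n)) (MY a (s - n))
              (Real.cos x) (Real.sin x) = 0 := by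
          unfold Bform Aform
          simp only [Complex.one_re, Complex.one_im, Complex.I_re, Complex.I_im] at hcon
          constructor
          · linear_combination hcon.1
          · linear_combination hcon.2
        by_cases hs : s ≤ 1/2
        · exact stageI S1 hS1 k1 hk1 (P ^ 2) he0 he (a n) am b0 (k1 * a (n+1)) (r n) (r (n+1)) s
            _ _ _ _ (hpos n) (hr n).1 (hr n).2 (hr _).1 (hr _).2 hb0' hb0'' hb1 hb1' hs0 hs m1 m2
            (m3 hs) hcy key
        · rw [not_le] at hs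
          have hn : n ≠ 0 := by
            intro h0; have := hns h0; linarith
          obtain ⟨m, rfl⟩ := Nat.exists_eq_succ_of_ne_zero hn
          have ham' : am = a m := by rw [ham, if_neg hn]; rfl
          have hb0e : b0 = k1 * a (m+1) := by rw [hb0, if_neg hn]
          rw [hb0e, ham'] at key
          refine hII k1 (P ^ 2) hk1pos hk1le he0 he (a (m+1)) (a m) _ (r (m+1)) _ s _ _ _ _
            (hpos _) (h2 m) (hr _).1 (hr _).2 (hr _).1 (hr _).2 hb1 hb1' hs.le hs1 m1 m2 ?_ hcy ?_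
            key
          · exact m4 (Nat.succ_le_succ (Nat.zero_le _))
          · exact hgr m
      · obtain ⟨d1, d2, d3, d4⟩ := mf3 n s hs0 hs1 hev
        obtain ⟨w1, w2, w3, w4⟩ := wr_facts k1 a r hk1pos hpos hr hW.1 n s x hs0 hs1 b0
          (k1 * a (n+1)) (Real.sin x) (Real.cos x) hb0 rfl (by rw [if_neg hev])
          (by rw [if_neg hev])
        rw [← hξ] at w1 w2 w3 w4
        rw [w1, w2, w3, w4, hre, d1, d2, d3, d4, ← ham, if_neg hev]
        have hcy : Real.sin x ^ 2 + Real.cos x ^ 2 = 1 := Real.sin_sq_add_cos_sq x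
        intro hcon
        have key : Bform (a n) am b0 (k1 * a (n+1)) (r n) (r (n+1)) s (Real.sin x) (Real.cos x) = 0 ∧
            Aform (P ^ 2) (a n) am b0 (k1 * a (n+1)) (r n) (r (n+1)) s (MY a (s - n)) (MX a (s - n))
              (Real.sin x) (Real.cos x) = 0 := by
          unfold Bform Aform
          simp only [Complex.one_re, Complex.one_im, Complex.I_re, Complex.I_im] at hcon
          constructor
          · linear_combination -hcon.1
          · linear_combination hcon.2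
        have hsum : MX a (s - n) + MY a (s - n) = MY a (s - n) + MX a (s - n) := add_comm _ _
        by_cases hs : s ≤ 1/2
        · exact stageI S1 hS1 k1 hk1 (P ^ 2) he0 he (a n) am b0 (k1 * a (n+1)) (r n) (r (n+1)) s
            _ _ _ _ (hpos n) (hr n).1 (hr n).2 (hr _).1 (hr _).2 hb0' hb0'' hb1 hb1' hs0 hs m2 m1
            (by rw [← hsum]; exact m3 hs) hcy key
        · rw [not_le] at hs
          have hn : n ≠ 0 := by
            intro h0; have := hns h0; linarith
          obtain ⟨m, rfl⟩ := Nat.exists_eq_succ_of_ne_zero hn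
          have ham' : am = a m := by rw [ham, if_neg hn]; rfl
          have hb0e : b0 = k1 * a (m+1) := by rw [hb0, if_neg hn]
          rw [hb0e, ham'] at key
          refine hII k1 (P ^ 2) hk1pos hk1le he0 he (a (m+1)) (a m) _ (r (m+1)) _ s _ _ _ _
            (hpos _) (h2 m) (hr _).1 (hr _).2 (hr _).1 (hr _).2 hb1 hb1' hs.le hs1 m2 m1 ?_ hcy ?_
            key
          · rw [← hsum]; exact m4 (Nat.succ_le_succ (Nat.zero_le _))
          · exact hgr m
    · rw [not_lt] at hlt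
      set A : ℝ → ℝ := fun t => px P t * X1 with hA
      set B : ℝ → ℝ := fun t => py P lam t * MY a t with hB
      have hAs : ContDiff ℝ ∞ A := hpx.mul contDiff_const
      have hBs : ContDiff ℝ ∞ B := hpy.mul hMYs
      have hloc : UU P lam k1 a r =ᶠ[𝓝 ξ] (fun ξ : ℂ => A ξ.re * Real.cos ξ.im +
          B ξ.re * Real.sin ξ.im + Wr k1 a r ξ) := by
        have ho : IsOpen {z : ℂ | 1/4 < z.re} := isOpen_lt continuous_const Complex.continuous_re
        filter_upwards [ho.mem_nhds (show 1/4 < ξ.re by linarith)] with z hz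
        have hz' : 1/4 < z.re := hz
        unfold UU
        rw [hX1c _ hz'.le]
      rw [D2_congr hloc, hloc.eq_of_nhds, D2_macro hAs hBs hW.1, D2_macro hAs hBs hW.1,
        D2_macro hAs hBs hW.1, D2_Wr_zero hW.1 hlt, D2_Wr_zero hW.1 hlt, D2_Wr_zero hW.1 hlt,
        Wr_zero hlt]
      rintro ⟨h3, h4⟩
      simp only [Complex.one_re, Complex.one_im, Complex.I_re, Complex.I_im] at h3 h4
      have hA1 : HasDerivAt A (deriv A ξ.re) ξ.re :=
        (hAs.differentiable (by simp) ξ.re).hasDerivAt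
      have hB1 : HasDerivAt B (deriv B ξ.re) ξ.re :=
        (hBs.differentiable (by simp) ξ.re).hasDerivAt
      have hA2 : HasDerivAt (deriv A) (deriv (deriv A) ξ.re) ξ.re :=
        ((contDiff_infty_iff_deriv.1 hAs).2.differentiable (by simp) ξ.re).hasDerivAt
      have hB2 : HasDerivAt (deriv B) (deriv (deriv B) ξ.re) ξ.re :=
        ((contDiff_infty_iff_deriv.1 hBs).2.differentiable (by simp) ξ.re).hasDerivAt
      have hneg := hpn X1 (MY a) hX1 hX1' (fun τ hτ => (hMY τ hτ).1) (fun τ hτ => (hMY τ hτ).2)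
        ξ.re hlt _ _ _ _ hA1 hA2 hB1 hB2
      have hcy : Real.cos ξ.im ^ 2 + Real.sin ξ.im ^ 2 = 1 := by
        have := Real.sin_sq_add_cos_sq ξ.im; linarith
      refine pure_alg (c := Real.cos ξ.im) (y := Real.sin ξ.im) hcy hneg ?_ ?_
      · linear_combination h3
      · linear_combination h4

end Pool.Agent.Caratheodory
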