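import Mathlib
import Pool.Agent.Work.MP_d5a045_gt.H

/-!
# Module C: from the strip to the plane
-/

set_option autoImplicit false
open scoped ContDiff

namespace Pool.Agent.Caratheodory

/-- decay of all derivatives -/
def DecC (u : ℂ → ℝ) : Prop := ∀ k N : ℕ, ∃ C : ℝ, ∀ ζ : ℂ, ζ.re ≤ 0 →
      ‖iteratedFDeriv ℝ k u ζ‖ ≤ C * Real.exp (N * ζ.re)

theorem DecC.apply {u : ℂ → ℝ} (hu : ContDiff ℝ ∞ u) (h : DecC u) (a : ℂ) :
    DecC (fun ζ => fderiv ℝ u ζ a) := by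
  intro n N
  obtain ⟨C, hC⟩ := h (n + 1) N
  refine ⟨‖a‖ * C, fun ζ hζ => ?_⟩
  have h1 : ContDiffAt ℝ ∞ (fderiv ℝ u) ζ := (hu.fderiv_right (by simp)).contDiffAt
  have h2 := norm_iteratedFDeriv_clm_apply_const (c := a) (n := n) h1 (WithTop.coe_le_coe.2 le_top)
  rw [norm_iteratedFDeriv_fderiv] at h2
  calc _ ≤ ‖a‖ * ‖iteratedFDeriv ℝ (n + 1) u ζ‖ := h2
    _ ≤ ‖a‖ * (C * Real.exp (N * ζ.re)) := mul_le_mul_of_nonneg_left (hC ζ hζ) (norm_nonneg _)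
    _ = _ := by ring

/-- the map `(t, x) ↦ t + i x / 2` -/
noncomputable def LL : ℝ × ℝ →L[ℝ] ℂ :=
  (ContinuousLinearMap.fst ℝ ℝ ℝ).smulRight (1 : ℂ) +
    (ContinuousLinearMap.snd ℝ ℝ ℝ).smulRight (Complex.I / 2)

theorem LL_apply (p : ℝ × ℝ) : LL p = p.1 + p.2 * (Complex.I / 2) := by
  simp [LL]

theorem LL_re (p : ℝ × ℝ) : (LL p).re = p.1 := by
  rw [LL_apply]; simp

theorem LL_im (p : ℝ × ℝ) : (LL p).im = p.2 / 2 := by
  rw [LL_apply]; simp; ring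

theorem dt_LL {u : ℂ → ℝ} (hu : ContDiff ℝ ∞ u) :
    CarNeg.dt (fun p => u (LL p)) = fun p => fderiv ℝ u (LL p) 1 := by
  funext p
  have h1 : HasFDerivAt (fun p => u (LL p)) ((fderiv ℝ u (LL p)).comp LL) p :=
    HasFDerivAt.comp p (hu.contDiffAt.differentiableAt (by simp)).hasFDerivAt LL.hasFDerivAt
  unfold CarNeg.dt
  rw [h1.fderiv]
  simp [LL_apply]

theorem dx_LL {u : ℂ → ℝ} (hu : ContDiff ℝ ∞ u) :
    CarNeg.dx (fun p => u (LL p)) = fun p => fderiv ℝ u (LL p) (Complex.I / 2) := by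
  funext p
  have h1 : HasFDerivAt (fun p => u (LL p)) ((fderiv ℝ u (LL p)).comp LL) p :=
    HasFDerivAt.comp p (hu.contDiffAt.differentiableAt (by simp)).hasFDerivAt LL.hasFDerivAt
  unfold CarNeg.dx
  rw [h1.fderiv]
  simp [LL_apply]

theorem smooth_app {u : ℂ → ℝ} (hu : ContDiff ℝ ∞ u) (a : ℂ) :
    ContDiff ℝ ∞ (fun ζ => fderiv ℝ u ζ a) :=
  (hu.fderiv_right (by simp)).clm_apply contDiff_const

theorem pf_LL : ∀ {k : ℕ} {u : ℂ → ℝ}, ContDiff ℝ ∞ u → DecC u → CarNeg.PF k (fun p => u (LL p))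
  | 0, u, _, h => by
    intro N
    obtain ⟨C, hC⟩ := h 0 N
    refine ⟨C, fun t ht x => ?_⟩
    have h1 := hC (LL (t, x)) (by rw [LL_re]; exact ht)
    rw [norm_iteratedFDeriv_zero, LL_re] at h1
    exact h1
  | (k + 1), u, hu, h => by
    refine ⟨?_, ?_, ?_⟩
    · intro N
      obtain ⟨C, hC⟩ := h 0 N
      refine ⟨C, fun t ht x => ?_⟩
      have h1 := hC (LL (t, x)) (by rw [LL_re]; exact ht)
      rw [norm_iteratedFDeriv_zero, LL_re] at h1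
      exact h1
    · rw [dt_LL hu]; exact pf_LL (smooth_app hu 1) (h.apply hu 1)
    · rw [dx_LL hu]; exact pf_LL (smooth_app hu (Complex.I / 2)) (h.apply hu (Complex.I / 2))

theorem snd_app {u : ℂ → ℝ} (hu : ContDiff ℝ ∞ u) (ζ a b : ℂ) :
    fderiv ℝ (fun ζ => fderiv ℝ u ζ a) ζ b = fderiv ℝ (fderiv ℝ u) ζ b a := by
  have hd : DifferentiableAt ℝ (fderiv ℝ u) ζ :=
    (hu.fderiv_right (m := ∞) (by simp)).contDiffAt.differentiableAt (by simp)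
  rw [fderiv_clm_apply hd (differentiableAt_const a)]
  simp

theorem snd_symm {u : ℂ → ℝ} (hu : ContDiff ℝ ∞ u) (ζ a b : ℂ) :
    fderiv ℝ (fderiv ℝ u) ζ b a = fderiv ℝ (fderiv ℝ u) ζ a b := by
  have hs : IsSymmSndFDerivAt ℝ u ζ :=
    (hu.contDiffAt (x := ζ)).isSymmSndFDerivAt (by
      rw [minSmoothness_of_isRCLikeNormedField]; exact WithTop.coe_le_coe.2 le_top)
  exact hs b a

/-- general form of the module (end condition with one more term) -/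
theorem polar' (u : ℂ → ℝ) (hu : ContDiff ℝ ∞ u)
    (hper : ∀ ζ : ℂ, u (ζ + Real.pi * Complex.I) = u ζ)
    (hdecay : ∀ k N : ℕ, ∃ C : ℝ, ∀ ζ : ℂ, ζ.re ≤ 0 →
      ‖iteratedFDeriv ℝ k u ζ‖ ≤ C * Real.exp (N * ζ.re))
    (T0 cx cy cz : ℝ)
    (hfar : ∀ ζ : ℂ, T0 ≤ ζ.re →
      u ζ = Real.exp (-ζ.re) * (cx * Real.cos (2 * ζ.im) +
        (cy + cz * Real.exp (-2 * ζ.re)) * Real.sin (2 * ζ.im)))
    (hne : ∀ ζ : ℂ, ¬ (fderiv ℝ (fderiv ℝ u) ζ 1 Complex.I = 0 ∧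
      fderiv ℝ (fderiv ℝ u) ζ 1 1 - fderiv ℝ (fderiv ℝ u) ζ Complex.I Complex.I - u ζ = 0)) :
    ∃ (h : ℂ → ℝ) (R0 : ℝ), 0 < R0 ∧ ContDiff ℝ ∞ h ∧
      (∀ z : ℂ, R0 ≤ ‖z‖ → h z = (cx * (z ^ 2).re + (cy + cz / ‖z‖ ^ 2) * (z ^ 2).im) / ‖z‖ ^ 2) ∧
      (∀ z : ℂ, z ≠ 0 →
        ¬ (fderiv ℝ (fderiv ℝ h) z 1 1 = fderiv ℝ (fderiv ℝ h) z Complex.I Complex.I ∧
          fderiv ℝ (fderiv ℝ h) z 1 Complex.I = 0)) := by
  obtain ⟨h, h1, h2, h3⟩ := CarNeg.exists_plane (fun p => u (LL p)) (hu.comp LL.contDiff)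
    (fun t x => by
      have e : LL (t, x + 2 * Real.pi) = LL (t, x) + Real.pi * Complex.I := by
        rw [LL_apply, LL_apply]; push_cast; ring
      show u (LL (t, x + 2 * Real.pi)) = u (LL (t, x))
      rw [e, hper])
    (fun k => pf_LL hu hdecay)
    (fun p hp hq => by
      have s1 := smooth_app hu 1
      have s2 := smooth_app hu (Complex.I / 2)
      rw [dt_LL hu, dx_LL s1] at hp
      rw [dt_LL hu, dx_LL hu, dt_LL s1, dx_LL s2] at hq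
      simp only [snd_app hu] at hp hq
      have hI : (Complex.I / 2 : ℂ) = (1 / 2 : ℝ) • Complex.I := by
        rw [Complex.real_smul]; push_cast; ring
      rw [snd_symm hu, hI, map_smul, smul_eq_mul] at hp
      rw [hI] at hq
      simp only [map_smul, smul_apply, smul_eq_mul] at hq
      refine hne (LL p) ⟨by linarith, by linarith⟩)
    cx cy cz T0
    (fun t ht x => by
      have h1 := hfar (LL (t, x)) (by rw [LL_re]; exact ht)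
      have e : 2 * (LL (t, x)).im = x := by rw [LL_im]; ring
      rw [e, LL_re] at h1
      exact h1)
  exact ⟨h, Real.exp T0, Real.exp_pos _, h1, h2, h3⟩

/-- MODULE C (Polar): from a function of `t + i θ` to a function on the plane. -/
theorem polar (u : ℂ → ℝ) (hu : ContDiff ℝ ∞ u)
    (hper : ∀ ζ : ℂ, u (ζ + Real.pi * Complex.I) = u ζ)
    (hdecay : ∀ k N : ℕ, ∃ C : ℝ, ∀ ζ : ℂ, ζ.re ≤ 0 →
      ‖iteratedFDeriv ℝ k u ζ‖ ≤ C * Real.exp (N * ζ.re))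
    (T0 cx cy : ℝ)
    (hfar : ∀ ζ : ℂ, T0 ≤ ζ.re →
      u ζ = Real.exp (-ζ.re) * (cx * Real.cos (2 * ζ.im) + cy * Real.sin (2 * ζ.im)))
    (hne : ∀ ζ : ℂ, ¬ (fderiv ℝ (fderiv ℝ u) ζ 1 Complex.I = 0 ∧
      fderiv ℝ (fderiv ℝ u) ζ 1 1 - fderiv ℝ (fderiv ℝ u) ζ Complex.I Complex.I - u ζ = 0)) :
    ∃ (h : ℂ → ℝ) (R0 : ℝ), 0 < R0 ∧ ContDiff ℝ ∞ h ∧
      (∀ z : ℂ, R0 ≤ ‖z‖ → h z = (cx * (z ^ 2).re + cy * (z ^ 2).im) / ‖z‖ ^ 2) ∧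
      (∀ z : ℂ, z ≠ 0 →
        ¬ (fderiv ℝ (fderiv ℝ h) z 1 1 = fderiv ℝ (fderiv ℝ h) z Complex.I Complex.I ∧
          fderiv ℝ (fderiv ℝ h) z 1 Complex.I = 0)) := by
  obtain ⟨h, R0, h1, h2, h3, h4⟩ := polar' u hu hper hdecay T0 cx cy 0
    (fun ζ hζ => by rw [hfar ζ hζ]; ring) hne
  exact ⟨h, R0, h1, h2, fun z hz => by rw [h3 z hz]; ring, h4⟩

end Pool.Agent.Caratheodory
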