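import Mathlib

/-!
# Module D6: rescaling of the time variable
-/

set_option autoImplicit false
open scoped ContDiff

namespace Pool.Agent.Caratheodory

/-- the rescaling map `ζ ↦ ζ.re / P + 2 i ζ.im` -/
noncomputable def MM (P : ℝ) : ℂ →L[ℝ] ℂ :=
  Complex.reCLM.smulRight (((1 / P : ℝ) : ℂ)) + Complex.imCLM.smulRight (2 * Complex.I)

theorem MM_apply (P : ℝ) (ζ : ℂ) : MM P ζ = ζ.re * ((1 / P : ℝ) : ℂ) + ζ.im * (2 * Complex.I) := by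
  simp [MM]

theorem MM_re (P : ℝ) (ζ : ℂ) : (MM P ζ).re = ζ.re / P := by
  rw [MM_apply]; simp; ring

theorem MM_im (P : ℝ) (ζ : ℂ) : (MM P ζ).im = 2 * ζ.im := by
  rw [MM_apply]; simp; ring

theorem MM_one (P : ℝ) : MM P 1 = (1 / P : ℝ) • (1 : ℂ) := by
  rw [MM_apply]; simp

theorem MM_I (P : ℝ) : MM P Complex.I = (2 : ℝ) • Complex.I := by
  rw [MM_apply]; simp

theorem fderiv_MM {U : ℂ → ℝ} (hU : ContDiff ℝ ∞ U) (P : ℝ) :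
    fderiv ℝ (fun ζ => U (MM P ζ)) = fun ζ => (fderiv ℝ U (MM P ζ)).comp (MM P) := by
  funext ζ
  exact (HasFDerivAt.comp ζ (hU.contDiffAt.differentiableAt (by simp)).hasFDerivAt
    (MM P).hasFDerivAt).fderiv

theorem fderiv2_MM {U : ℂ → ℝ} (hU : ContDiff ℝ ∞ U) (P : ℝ) (ζ a b : ℂ) :
    fderiv ℝ (fderiv ℝ (fun ζ => U (MM P ζ))) ζ a b =
      fderiv ℝ (fderiv ℝ U) (MM P ζ) (MM P a) (MM P b) := by
  have h1 : HasFDerivAt (fderiv ℝ U) (fderiv ℝ (fderiv ℝ U) (MM P ζ)) (MM P ζ) :=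
    ((hU.fderiv_right (m := ∞) (by simp)).contDiffAt.differentiableAt (by simp)).hasFDerivAt
  have h2 : HasFDerivAt (fun ζ => fderiv ℝ U (MM P ζ))
      ((fderiv ℝ (fderiv ℝ U) (MM P ζ)).comp (MM P)) ζ :=
    HasFDerivAt.comp ζ h1 (MM P).hasFDerivAt
  have h3 : HasFDerivAt (fun ζ => (fderiv ℝ U (MM P ζ)).comp (MM P))
      (((ContinuousLinearMap.compL ℝ ℂ ℂ ℝ).flip (MM P)).comp
        ((fderiv ℝ (fderiv ℝ U) (MM P ζ)).comp (MM P))) ζ :=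
    HasFDerivAt.comp (𝕜 := ℝ) (E := ℂ) (f := fun ζ => fderiv ℝ U (MM P ζ)) ζ
      (((ContinuousLinearMap.compL ℝ ℂ ℂ ℝ).flip (MM P)).hasFDerivAt) h2
  rw [fderiv_MM hU, h3.fderiv]
  rfl

/-- D6: `core'` implies `core`, with `u ζ = U (ζ.re / P + 2 ζ.im i)`. -/
theorem rescale (h : ∃ (P T cx cy : ℝ) (U : ℂ → ℝ), 0 < P ∧ P ≤ 1 ∧ ContDiff ℝ ∞ U ∧
    (∀ ξ : ℂ, U (ξ + 2 * Real.pi * Complex.I) = U ξ) ∧
    (∀ k N : ℕ, ∃ C : ℝ, ∀ ξ : ℂ, ξ.re ≤ 0 →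
      ‖iteratedFDeriv ℝ k U ξ‖ ≤ C * Real.exp (N * ξ.re)) ∧
    (∀ ξ : ℂ, T ≤ ξ.re →
      U ξ = Real.exp (-(P * ξ.re)) * (cx * Real.cos ξ.im + cy * Real.sin ξ.im)) ∧
    (cx ≠ 0 ∨ cy ≠ 0) ∧
    (∀ ξ : ℂ, ¬ (fderiv ℝ (fderiv ℝ U) ξ 1 Complex.I = 0 ∧
      fderiv ℝ (fderiv ℝ U) ξ 1 1 -
        P ^ 2 * (4 * fderiv ℝ (fderiv ℝ U) ξ Complex.I Complex.I + U ξ) = 0))) :
    ∃ (u : ℂ → ℝ) (T0 cx cy : ℝ), ContDiff ℝ ∞ u ∧
    (∀ ζ : ℂ, u (ζ + Real.pi * Complex.I) = u ζ) ∧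
    (∀ k N : ℕ, ∃ C : ℝ, ∀ ζ : ℂ, ζ.re ≤ 0 →
      ‖iteratedFDeriv ℝ k u ζ‖ ≤ C * Real.exp (N * ζ.re)) ∧
    (∀ ζ : ℂ, T0 ≤ ζ.re →
      u ζ = Real.exp (-ζ.re) * (cx * Real.cos (2 * ζ.im) + cy * Real.sin (2 * ζ.im))) ∧
    (cx ≠ 0 ∨ cy ≠ 0) ∧
    (∀ ζ : ℂ, ¬ (fderiv ℝ (fderiv ℝ u) ζ 1 Complex.I = 0 ∧
      fderiv ℝ (fderiv ℝ u) ζ 1 1 - fderiv ℝ (fderiv ℝ u) ζ Complex.I Complex.I - u ζ = 0)) := by
  obtain ⟨P, T, cx, cy, U, hP, hP1, hU, hper, hdec, hfar, hc, hne⟩ := h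
  refine ⟨fun ζ => U (MM P ζ), P * T, cx, cy, hU.comp (MM P).contDiff, ?_, ?_, ?_, hc, ?_⟩
  · intro ζ
    have e : MM P (ζ + Real.pi * Complex.I) = MM P ζ + 2 * Real.pi * Complex.I := by
      apply Complex.ext
      · rw [MM_re, Complex.add_re, Complex.add_re, MM_re]; simp
      · rw [MM_im, Complex.add_im, Complex.add_im, MM_im]; simp; ring
    show U (MM P (ζ + Real.pi * Complex.I)) = U (MM P ζ)
    rw [e, hper]
  · intro k N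
    obtain ⟨C, hC⟩ := hdec k N
    refine ⟨|C| * ‖MM P‖ ^ k, fun ζ hζ => ?_⟩
    have h1 : iteratedFDeriv ℝ k (U ∘ (MM P)) ζ =
        (iteratedFDeriv ℝ k U (MM P ζ)).compContinuousLinearMap fun _ => MM P :=
      (MM P).iteratedFDeriv_comp_right hU ζ (i := k) (WithTop.coe_le_coe.2 le_top)
    have h2 : ‖iteratedFDeriv ℝ k (U ∘ (MM P)) ζ‖ ≤
        ‖iteratedFDeriv ℝ k U (MM P ζ)‖ * ‖MM P‖ ^ k := by
      rw [h1]
      refine (ContinuousMultilinearMap.norm_compContinuousLinearMap_le _ _).trans ?_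
      simp
    have h3 : (MM P ζ).re ≤ ζ.re := by
      rw [MM_re, div_le_iff₀ hP]
      nlinarith
    have h4 : (MM P ζ).re ≤ 0 := h3.trans hζ
    have h5 : ‖iteratedFDeriv ℝ k U (MM P ζ)‖ ≤ |C| * Real.exp (N * ζ.re) := by
      refine (hC _ h4).trans ?_
      refine mul_le_mul (le_abs_self C) ?_ (Real.exp_pos _).le (abs_nonneg _)
      exact Real.exp_le_exp.2 (mul_le_mul_of_nonneg_left h3 (Nat.cast_nonneg N))
    calc ‖iteratedFDeriv ℝ k (fun ζ => U (MM P ζ)) ζ‖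
        ≤ ‖iteratedFDeriv ℝ k U (MM P ζ)‖ * ‖MM P‖ ^ k := h2
      _ ≤ (|C| * Real.exp (N * ζ.re)) * ‖MM P‖ ^ k :=
          mul_le_mul_of_nonneg_right h5 (by positivity)
      _ = _ := by ring
  · intro ζ hζ
    have h1 : T ≤ (MM P ζ).re := by
      rw [MM_re, le_div_iff₀ hP]
      linarith
    have h2 : P * (MM P ζ).re = ζ.re := by
      rw [MM_re]; field_simp
    show U (MM P ζ) = _
    rw [hfar _ h1, h2, MM_im]
  · intro ζ hcon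
    obtain ⟨h1, h2⟩ := hcon
    rw [fderiv2_MM hU, MM_one, MM_I] at h1
    rw [fderiv2_MM hU, fderiv2_MM hU, MM_one, MM_I] at h2
    simp only [map_smul, smul_apply, smul_eq_mul] at h1 h2
    refine hne (MM P ζ) ⟨?_, ?_⟩
    · have h3 : (2 * (1 / P)) * fderiv ℝ (fderiv ℝ U) (MM P ζ) 1 Complex.I = 0 := by
        linear_combination h1
      exact (mul_eq_zero.1 h3).resolve_left (by positivity)
    · have h4 : P ^ 2 * (1 / P * (1 / P * fderiv ℝ (fderiv ℝ U) (MM P ζ) 1 1) -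
          2 * (2 * fderiv ℝ (fderiv ℝ U) (MM P ζ) Complex.I Complex.I) - U (MM P ζ)) = 0 := by
        rw [h2, mul_zero]
      have h5 : P ^ 2 * (1 / P * (1 / P * fderiv ℝ (fderiv ℝ U) (MM P ζ) 1 1)) =
          fderiv ℝ (fderiv ℝ U) (MM P ζ) 1 1 := by
        field_simp
      linear_combination h4 - h5

end Pool.Agent.Caratheodory
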