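import Mathlib
import Pool.Agent.Caratheodory.Polar
import Pool.Agent.Caratheodory.Rescale
import Pool.Agent.Work.MP_d5a045_gt.Geo

/-!
# From the analytic core to the frozen statement
-/

set_option autoImplicit false
open scoped ContDiff

namespace Pool.Agent.Caratheodory

/-- the function near the south pole -/
def gS (cx cy cz : ℝ) (w : ℂ) : ℝ :=
  cx * (w.re ^ 2 - w.im ^ 2) + (cy + cz * (w.re ^ 2 + w.im ^ 2)) * (2 * (w.re * w.im))

theorem hasFDerivAt_gS (cx cy cz : ℝ) (w : ℂ) : HasFDerivAt (gS cx cy cz)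
    ((2 * cx * w.re + 2 * cy * w.im + cz * (6 * (w.re ^ 2 * w.im) + 2 * w.im ^ 3)) • Complex.reCLM +
     (-2 * cx * w.im + 2 * cy * w.re + cz * (2 * w.re ^ 3 + 6 * (w.re * w.im ^ 2))) •
      Complex.imCLM) w := by
  have hx : HasFDerivAt (fun w : ℂ => w.re) Complex.reCLM w := Complex.reCLM.hasFDerivAt
  have hy : HasFDerivAt (fun w : ℂ => w.im) Complex.imCLM w := Complex.imCLM.hasFDerivAt
  have h1 := (((hx.pow 2).sub (hy.pow 2)).const_mul cx).add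
    (((((hx.pow 2).add (hy.pow 2)).const_mul cz).const_add cy).mul ((hx.mul hy).const_mul 2))
  refine h1.congr_fderiv ?_
  ext <;> (simp; ring)

theorem second_gS (cx cy cz : ℝ) (a b : ℂ) : fderiv ℝ (fderiv ℝ (gS cx cy cz)) 0 a b =
    (2 * cx * a.re + 2 * cy * a.im) * b.re + (-2 * cx * a.im + 2 * cy * a.re) * b.im := by
  have e : fderiv ℝ (gS cx cy cz) = fun w : ℂ =>
    ((2 * cx * w.re + 2 * cy * w.im + cz * (6 * (w.re ^ 2 * w.im) + 2 * w.im ^ 3)) • Complex.reCLM +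
     (-2 * cx * w.im + 2 * cy * w.re + cz * (2 * w.re ^ 3 + 6 * (w.re * w.im ^ 2))) •
      Complex.imCLM) := funext fun w => (hasFDerivAt_gS cx cy cz w).fderiv
  rw [e]
  have hx : HasFDerivAt (fun w : ℂ => w.re) Complex.reCLM 0 := Complex.reCLM.hasFDerivAt
  have hy : HasFDerivAt (fun w : ℂ => w.im) Complex.imCLM 0 := Complex.imCLM.hasFDerivAt
  have h1 := (((hx.const_mul (2 * cx)).add (hy.const_mul (2 * cy))).add
    (((((hx.pow 2).mul hy).const_mul 6).add ((hy.pow 3).const_mul 2)).const_mul cz)).smul_const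
      Complex.reCLM
  have h2 := (((hy.const_mul (-2 * cx)).add (hx.const_mul (2 * cy))).add
    ((((hx.pow 3).const_mul 2).add ((hx.mul (hy.pow 2)).const_mul 6)).const_mul cz)).smul_const
      Complex.imCLM
  have h3 := h1.add h2
  have h4 := h3.fderiv
  refine (congrArg (fun T => T a b) h4).trans ?_
  simp

/-- from a function on the plane to the frozen statement -/
theorem from_plane (h : ℂ → ℝ) (hh : ContDiff ℝ ∞ h) (R0 cx cy cz : ℝ) (hR0 : 0 < R0)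
    (hfar : ∀ z : ℂ, R0 ≤ ‖z‖ →
      h z = (cx * (z ^ 2).re + (cy + cz / ‖z‖ ^ 2) * (z ^ 2).im) / ‖z‖ ^ 2)
    (hc : cx ≠ 0 ∨ cy ≠ 0)
    (hQ : ∀ z : ℂ, z ≠ 0 →
      ¬ (fderiv ℝ (fderiv ℝ h) z 1 1 = fderiv ℝ (fderiv ℝ h) z Complex.I Complex.I ∧
        fderiv ℝ (fderiv ℝ h) z 1 Complex.I = 0)) :
    ¬ (∀ F : EuclideanSpace ℝ (Fin 3) → ℝ,
    (∀ n : ℕ, ContDiff ℝ n F) →
    IsCompact {x : EuclideanSpace ℝ (Fin 3) | F x = 0} →
    (∀ x : EuclideanSpace ℝ (Fin 3), F x = 0 → fderiv ℝ F x ≠ 0) →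
    Nonempty (↥{x : EuclideanSpace ℝ (Fin 3) | F x = 0} ≃ₜ
      ↥(Metric.sphere (0 : EuclideanSpace ℝ (Fin 3)) 1)) →
    ∃ p q : EuclideanSpace ℝ (Fin 3), F p = 0 ∧ F q = 0 ∧ p ≠ q ∧
      (∃ c : ℝ, ∀ u v : EuclideanSpace ℝ (Fin 3),
        fderiv ℝ F p u = 0 → fderiv ℝ F p v = 0 →
          fderiv ℝ (fderiv ℝ F) p u v = c * inner ℝ u v) ∧
      (∃ c : ℝ, ∀ u v : EuclideanSpace ℝ (Fin 3),
        fderiv ℝ F q u = 0 → fderiv ℝ F q v = 0 →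
          fderiv ℝ (fderiv ℝ F) q u v = c * inner ℝ u v)) := by
  refine Pool.Agent.Work.Cara.geo' h (gS cx cy cz) hh ?_ R0 hR0 ?_ ?_ hQ
  · have hx : ContDiff ℝ ∞ (fun w : ℂ => w.re) := Complex.reCLM.contDiff
    have hy : ContDiff ℝ ∞ (fun w : ℂ => w.im) := Complex.imCLM.contDiff
    exact (contDiff_const.mul ((hx.pow 2).sub (hy.pow 2))).add
      ((contDiff_const.add (contDiff_const.mul ((hx.pow 2).add (hy.pow 2)))).mul
        (contDiff_const.mul (hx.mul hy)))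
  · intro z hz
    have hn : ‖z‖ ^ 2 = z.re ^ 2 + z.im ^ 2 := by
      rw [← Complex.normSq_eq_norm_sq, Complex.normSq_apply]; ring
    have h0 : 0 < z.re ^ 2 + z.im ^ 2 := lt_of_lt_of_le (by positivity) hz
    have h1 : R0 ≤ ‖z‖ := by
      rw [← hn] at hz
      exact (pow_le_pow_iff_left₀ hR0.le (norm_nonneg z) two_ne_zero).1 hz
    have hre : (z ^ 2).re = z.re ^ 2 - z.im ^ 2 := by
      rw [sq, Complex.mul_re]; ring
    have him : (z ^ 2).im = 2 * (z.re * z.im) := by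
      rw [sq, Complex.mul_im]; ring
    rw [hfar z h1, hre, him, hn]
    have e1 : ((z.re ^ 2 + z.im ^ 2)⁻¹ • z).re = (z.re ^ 2 + z.im ^ 2)⁻¹ * z.re := by
      rw [Complex.smul_re, smul_eq_mul]
    have e2 : ((z.re ^ 2 + z.im ^ 2)⁻¹ • z).im = (z.re ^ 2 + z.im ^ 2)⁻¹ * z.im := by
      rw [Complex.smul_im, smul_eq_mul]
    rw [gS, e1, e2]
    field_simp
  · rintro ⟨h1, h2⟩
    rw [second_gS, second_gS] at h1
    rw [second_gS] at h2
    simp only [Complex.one_re, Complex.one_im, Complex.I_re, Complex.I_im] at h1 h2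
    rcases hc with hc | hc
    · exact hc (by linarith)
    · exact hc (by linarith)

/-- from the analytic core on the strip to the frozen statement -/
theorem main_of_core (hcore : ∃ (P T cx cy : ℝ) (U : ℂ → ℝ), 0 < P ∧ P ≤ 1 ∧ ContDiff ℝ ∞ U ∧
    (∀ ξ : ℂ, U (ξ + 2 * Real.pi * Complex.I) = U ξ) ∧
    (∀ k N : ℕ, ∃ C : ℝ, ∀ ξ : ℂ, ξ.re ≤ 0 →
      ‖iteratedFDeriv ℝ k U ξ‖ ≤ C * Real.exp (N * ξ.re)) ∧
    (∀ ξ : ℂ, T ≤ ξ.re →
      U ξ = Real.exp (-(P * ξ.re)) * (cx * Real.cos ξ.im + cy * Real.sin ξ.im)) ∧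
    (cx ≠ 0 ∨ cy ≠ 0) ∧
    (∀ ξ : ℂ, ¬ (fderiv ℝ (fderiv ℝ U) ξ 1 Complex.I = 0 ∧
      fderiv ℝ (fderiv ℝ U) ξ 1 1 -
        P ^ 2 * (4 * fderiv ℝ (fderiv ℝ U) ξ Complex.I Complex.I + U ξ) = 0))) :
    ¬ (∀ F : EuclideanSpace ℝ (Fin 3) → ℝ,
    (∀ n : ℕ, ContDiff ℝ n F) →
    IsCompact {x : EuclideanSpace ℝ (Fin 3) | F x = 0} →
    (∀ x : EuclideanSpace ℝ (Fin 3), F x = 0 → fderiv ℝ F x ≠ 0) →
    Nonempty (↥{x : EuclideanSpace ℝ (Fin 3) | F x = 0} ≃ₜ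
      ↥(Metric.sphere (0 : EuclideanSpace ℝ (Fin 3)) 1)) →
    ∃ p q : EuclideanSpace ℝ (Fin 3), F p = 0 ∧ F q = 0 ∧ p ≠ q ∧
      (∃ c : ℝ, ∀ u v : EuclideanSpace ℝ (Fin 3),
        fderiv ℝ F p u = 0 → fderiv ℝ F p v = 0 →
          fderiv ℝ (fderiv ℝ F) p u v = c * inner ℝ u v) ∧
      (∃ c : ℝ, ∀ u v : EuclideanSpace ℝ (Fin 3),
        fderiv ℝ F q u = 0 → fderiv ℝ F q v = 0 →
          fderiv ℝ (fderiv ℝ F) q u v = c * inner ℝ u v)) := by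
  obtain ⟨u, T0, cx, cy, h1, h2, h3, h4, h5, h6⟩ := rescale hcore
  obtain ⟨h, R0, g1, g2, g3, g4⟩ := polar u h1 h2 h3 T0 cx cy h4 h6
  exact from_plane h g2 R0 cx cy 0 g1 (fun z hz => by rw [g3 z hz]; ring) h5 g4

end Pool.Agent.Caratheodory
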