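import Pool.Agent.Caratheodory.CoreDefs

set_option autoImplicit false
open scoped ContDiff

namespace Pool.Agent.Caratheodory

noncomputable section

/-- derivative of `VV r` -/
def V1 (r y : ℝ) : ℝ := r - r / Real.sqrt (1 - r ^ 2 * y ^ 2)

/-- second `x`-derivative of `VV r (sin x)` at `sin x = y` -/
def W2 (r y : ℝ) : ℝ := r * y * ((1 - r ^ 2) / (Real.sqrt (1 - r ^ 2 * y ^ 2)) ^ 3 - 1)

def dX (s : ℝ) : ℝ := phi s * Real.cos (om s)
def dY (s : ℝ) : ℝ := phi s * Real.sin (om s)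

/-- mixed derivative `U_{τ x}` in stage form: `c = cos x`, `y = sin x` -/
def Bform (a0 am b0 b1 r0 r1 s c y : ℝ) : ℝ :=
  -(a0 * dX s + am * dY (s - 1)) * y + (a0 * dY s + am * dX (s - 1)) * c
  + b0 * deriv kap s * (c * V1 r0 y) - b1 * deriv kap (s + 1) * (y * V1 r1 c)

/-- `U_{ττ} - η (4 U_{xx} + U)` in stage form; `mx, my` the values of the macroscopic coefficients -/
def Aform (eta a0 am b0 b1 r0 r1 s mx my c y : ℝ) : ℝ :=
  (a0 * deriv dX s + am * deriv dY (s - 1)) * c + (a0 * deriv dY s + am * deriv dX (s - 1)) * y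
  + b0 * deriv (deriv kap) s * VV r0 y + b1 * deriv (deriv kap) (s + 1) * VV r1 c
  - eta * (-3 * (mx * c + my * y) + b0 * kap s * (4 * W2 r0 y + VV r0 y)
    + b1 * kap (s + 1) * (4 * W2 r1 c + VV r1 c))

end

end Pool.Agent.Caratheodory
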